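import Pool.Agent.H16.DIR.Sel

/-!
# DIR: the lines whose body is not orthogonal to the first coordinate

`DrOk.bad`: if the digits of `Z 1 - ka Z 0` are full for all closed slopes, the mass of the lines whose
long bodies are not almost parallel to the second axis is small, against the row of the upper digits.
-/

set_option autoImplicit false

namespace Pool.DIR16

open Finset Real Matrix
open Pool.Agent.H49.Ent Pool.Agent.H32.Dense Pool.STK Pool.POT Pool.FAD Pool.SLO Pool.TQ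
open Pool.K2S (Pe)
open Pool.DIR21
open Pool.BFL (Pb)

variable {Ω Λ τ B β ρ σ : Type} [Fintype Ω] {p : Ω → ℝ} {L : Ω → Λ} {th : Ω → τ}
  {b : Ω → B} {hgt : Ω → Fin 2 → ℤ} {S : Ω → ρ} {Wd : Ω → β} {Z : Ω → Fin 2 → ℤ} {Bs : Ω → σ}
  {M : B → Matrix (Fin 2) (Fin 2) ℝ} {X : ℕ} {C Lm d R ϖ : ℝ}

/-- The direction of a tuple. -/
noncomputable def dr (M : B → Matrix (Fin 2) (Fin 2) ℝ) (b : Ω → B) (th : Ω → τ) {n : ℕ}
    (A0 : (Fin (n + 2) → τ) → Matrix (Fin 2) (Fin 2) ℝ) (v : Fin (n + 2) → Ω) : Fin 2 → ℝ :=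
  un (bdv M b th A0 v)

/-- The body over the first sample. -/
def bw (M : B → Matrix (Fin 2) (Fin 2) ℝ) (b : Ω → B) (th : Ω → τ) {n : ℕ}
    (A0 : (Fin (n + 2) → τ) → Matrix (Fin 2) (Fin 2) ℝ) (w : Fin (n + 2 + 1) → Ω) :
    Matrix (Fin 2) (Fin 2) ℝ := bod M A0 (b (w 0)) fun j => th (w j.succ)

theorem bw_eq (hp : ∀ ω, 0 ≤ p ω) (hb : Det p L b) {n : ℕ}
    {A0 : (Fin (n + 2) → τ) → Matrix (Fin 2) (Fin 2) ℝ} {w : Fin (n + 2 + 1) → Ω}
    (hw : 0 < tup p L (n + 2) w) : bdv M b th A0 (fun j => w j.succ) = bw M b th A0 w := by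
  have h1 := (tup_pos_iff hp L _ w).1 hw
  have h2 : b (w (Fin.succ 0)) = b (w 0) := hb _ _ (h1.1 _) (h1.1 0) (h1.2 _)
  unfold bdv bw
  rw [h2]

/-- The line is bad. -/
def BL (M : B → Matrix (Fin 2) (Fin 2) ℝ) (b : Ω → B) (th : Ω → τ) {n : ℕ}
    (A0 : (Fin (n + 2) → τ) → Matrix (Fin 2) (Fin 2) ℝ) (T : Λ → Prop) (f : Λ → Fin (n + 2) → Ω)
    (θ : ℝ) (z : Λ) : Prop := T z ∧ θ ≤ |dr M b th A0 (f z) 0|

theorem Pe_sub (h0 : ∀ ω, 0 ≤ p ω) {G G1 G2 G3 : Ω → Prop}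
    (h : ∀ ω, 0 < p ω → G1 ω → G ω ∨ (G2 ω ∨ G3 ω)) : Pe p G1 ≤ Pe p G + (Pb p G2 + Pb p G3) := by
  rw [← Pb_Pe, ← Pb_Pe]
  exact (Pb_mono h0 h).trans ((Pb_or h0 _ _).trans (add_le_add le_rfl (Pb_or h0 _ _)))

/-- **The bad lines.** -/
theorem bad_lines (hH : DrOk p L th b hgt S Wd Z Bs M X C Lm d R ϖ) {h κ₁ δ F₀ η : ℝ} {X0 : ℕ}
    (hm : MN h κ₁ δ F₀ η ϖ C (4 * Lm) X0) (hX : X0 ≤ X) (hF : 1 ≤ F₀) (hL0 : 0 < Lm)
    (hϖ : 0 < ϖ)
    (hR : R + (d + Real.log 2) / ϖ ≤ (2 - h) * X * Real.log 2 + η * X) {n : ℕ}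
    {A0 : (Fin (n + 2) → τ) → Matrix (Fin 2) (Fin 2) ℝ} (hA : ∀ t, (A0 t).det ≠ 0)
    (hinv : ∀ t i j, |(A0 t)⁻¹ i j| ≤ 2 ^ X) {Kb : ℝ} (hKb0 : 0 ≤ Kb)
    (hKb : ∀ w : Fin (n + 2 + 1) → Ω, ∀ i a, |bw M b th A0 w i a| ≤ Kb) {e₀ : ℝ}
    (hbody : DF (tup p L (n + 2)) (fun _ => Tx 2 X) (fun w => A0 fun j => th (w j.succ))
      (fun w => xv X (hgt (w 0)))
      (fun w => (b (w 0), (th (w 0), fun j : Fin (n + 2) => th (w j.succ)))) ≤ e₀)
    (he : F₀ * (|e₀| + (4 * n + 9) * d + |Pool.POT64.Cch 2 Lm C| + |Cc 2 (4 * Lm)|) ≤ η * X)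
    {θ δ₁ ε₂ ε₃ : ℝ} (hθ : 0 < θ) (hθ1 : θ ≤ 1) (hδ₁ : 0 < δ₁) (hδ : 0 ≤ δ) (hε₂ : 0 < ε₂)
    (hε₃ : 0 ≤ ε₃) (hε₃1 : ε₃ ≤ 1) (hF₂ : 1 ≤ F₀ * (δ₁ * ε₂)) {T : Λ → Prop}
    {f : Λ → Fin (n + 2) → Ω}
    (hf : ∀ ω, 0 < p ω → T (L ω) → θ ≤ nb (bdv M b th A0 (f (L ω))))
    (hT2 : Pb (tup p L (n + 1)) (fun v => θ ≤ nb (bdv M b th A0 v) ∧ T (L (v 0)) ∧
      RR ((2 : ℝ) ^ (-(κ₁ * X))) (bdv M b th A0 v) (bdv M b th A0 (f (L (v 0))))) ≤ δ / δ₁)
    (hT3 : ∀ ω, T (L ω) → δ₁ * p ω ≤ mg (fun w : Fin (n + 1 + 1 + 1) → Ω =>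
      tup p L (n + 1 + 1) w * ci (θ ≤ nb (bdv M b th A0 fun j => w j.succ))) (fun w => w 0) ω)
    {t : ℕ} (ht : t ≤ X) (hs : 10 * 2 ^ (X - t) * (2 : ℝ) ^ (-(κ₁ * X)) ≤ ε₃ * θ ^ 4) {m' : ℕ}
    (hm' : 1 ≤ m') {m : ℝ} (hm0 : 0 < m)
    (hmass : m + δ / δ₁ + (δ / δ₁ + δ + ε₃ + 1 / m') ≤ δ₁ * ε₂)
    {b₁ ϖ₁ R₂ : ℝ} (hb₁ : 0 ≤ b₁) (hϖ₁ : 0 ≤ ϖ₁)
    (hFI : FIh p L (fun ω => (Wd ω, S ω)) Z Bs t (1 / θ) b₁ (ϖ₁ * m)) (hC : 0 ≤ C)
    (hR₂ : 0 ≤ R₂)
    (hrow : ∀ G : Ω → Prop, ϖ₁ ≤ Pe p G → 0 < Pe p G →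
      CH (cond p G True) (fun ω i => Z ω i / 2 ^ t) (fun ω => (Wd ω, S ω)) ≤ R₂) {K : ℕ}
    (hK : 0 < K) (hnum : R₂ + (1 / m / K + 1 / m * ϖ₁) * (2 * Real.log (4 * (C * 2 ^ X) + 1)) +
      Real.log (K + 1) + (|e₀| + (2 * n + 5) * d + |Pool.POT64.Cch 2 Lm C| + Real.log 2 +
      |Cc 2 (4 * Lm)|) / m + Ca (4 * Lm) + Real.log 9 + Real.log (2 * (2 * (Kb + 1) + 1) + 1) +
      Real.log (2 * (1 / θ + 2) + 1) < (1 - ϖ₁ / m) * b₁ + ((X - t) * Real.log 2 +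
        Real.log θ)) :
    Pb p (fun ω => BL M b th A0 T f θ (L ω)) ≤ ε₂ := by
  classical
  by_contra hcon
  push Not at hcon
  have hp := hH.law
  have hp0 := hp.nonneg
  obtain ⟨tq, htq⟩ : ∃ tq, tq = tup p L (n + 2) := ⟨_, rfl⟩
  have htl : IsLaw tq := by rw [htq]; exact tup_isLaw hp L (n + 2)
  have ht0 := htl.nonneg
  have him : Im tq p (fun w => w 0) := by rw [htq]; exact im_tup hp0 L _ 0
  have hd0 : 0 ≤ d := (MI_nonneg hp0 _ _ _).trans hH.h0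
  have hn0 : (0 : ℝ) ≤ n := Nat.cast_nonneg n
  obtain ⟨r, hr⟩ : ∃ r : ℝ, r = (2 : ℝ) ^ (-(κ₁ * X)) := ⟨_, rfl⟩
  have hr0 : 0 < r := by rw [hr]; positivity
  rw [← hr] at hT2 hs
  -- the sizes
  have hY1 : (1 : ℝ) ≤ 2 ^ (X - t) := one_le_pow₀ (by norm_num)
  have hY0 : (0 : ℝ) < 2 ^ (X - t) := by positivity
  have hs' : 2 ^ (X - t) * (10 * (r / θ ^ 4)) ≤ ε₃ := by
    have : 2 ^ (X - t) * (10 * (r / θ ^ 4)) = 10 * 2 ^ (X - t) * r / θ ^ 4 := by ring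
    rw [this, div_le_iff₀ (by positivity)]
    exact hs
  have hr4 : 10 * (r / θ ^ 4) ≤ 1 := by
    have h1 : 10 * (r / θ ^ 4) ≤ 2 ^ (X - t) * (10 * (r / θ ^ 4)) :=
      le_mul_of_one_le_left (by positivity) hY1
    linarith
  have hr4' : 0 ≤ r / θ ^ 4 := by positivity
  have hr2 : r / (θ * θ) ≤ θ / 8 := by
    have h1 : r / (θ * θ) = r / θ ^ 4 * (θ * θ) := by field_simp
    rw [h1]
    have h2 : r / θ ^ 4 * (θ * θ) ≤ 1 / 10 * (θ * θ) :=
      mul_le_mul_of_nonneg_right (by linarith) (by positivity)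
    have h3 : θ * θ ≤ θ * 1 := mul_le_mul_of_nonneg_left hθ1 hθ.le
    linarith
  -- the support
  have hsup : ∀ w, 0 < tq w → 0 < p (w 0) ∧ L (w (Fin.succ 0)) = L (w 0) ∧
      bdv M b th A0 (fun j => w j.succ) = bw M b th A0 w := fun w hw => by
    rw [htq] at hw
    have h1 := (tup_pos_iff hp0 L _ w).1 hw
    exact ⟨h1.1 0, h1.2 _, bw_eq hp0 hH.Lb hw⟩
  -- the mass of the bad tuples
  have mB : δ₁ * ε₂ ≤ Pe tq (fun w => θ ≤ nb (bw M b th A0 w) ∧ BL M b th A0 T f θ (L (w 0))) := by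
    have h1 : δ₁ * Pe p (fun ω => BL M b th A0 T f θ (L ω)) ≤
        Pe tq (fun w => θ ≤ nb (bw M b th A0 w) ∧ BL M b th A0 T f θ (L (w 0))) := by
      refine mg_ci_T ht0 (fun w => w 0) _ fun ω hω => ?_
      refine (hT3 ω hω.1).trans (le_of_eq ?_)
      unfold mg
      refine Finset.sum_congr rfl fun w _ => ?_
      by_cases h2 : w 0 = ω
      · rw [if_pos h2, if_pos h2]
        rw [htq]
        show tup p L (n + 2) w * ci (θ ≤ nb (bdv M b th A0 fun j => w j.succ)) =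
          tup p L (n + 2) w * ci (θ ≤ nb (bw M b th A0 w) ∧ BL M b th A0 T f θ (L (w 0)))
        rcases (tup_isLaw hp L (n + 2)).nonneg w |>.eq_or_lt with h3 | h3
        · rw [← h3, zero_mul, zero_mul]
        · rw [bw_eq hp0 hH.Lb h3]
          congr 1
          refine le_antisymm (ci_mono fun h => ⟨h, ?_⟩) (ci_mono fun h => h.1)
          rw [h2]
          exact hω
      · rw [if_neg h2, if_neg h2]
    refine le_trans (mul_le_mul_of_nonneg_left ?_ hδ₁.le) h1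
    rw [← Pb_Pe]
    exact hcon.le
  -- the copies
  have hPB : δ₁ * ε₂ ≤ Pe tq (Bg M b th A0 θ) := by
    refine mB.trans ?_
    rw [← Pb_Pe, ← Pb_Pe]
    exact Pb_mono ht0 fun w _ h => h.1
  have hPB0 : 0 < Pe tq (Bg M b th A0 θ) := lt_of_lt_of_le (by positivity) hPB
  have hlk := hH.lnk hm hX hF hL0.le hϖ hR hA hinv hbody (κ := θ) (by
    rw [← htq]
    refine le_trans ?_ hPB
    rw [div_le_iff₀ (by linarith)]
    linarith) (by
      refine le_trans (mul_le_mul_of_nonneg_left ?_ (by linarith)) he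
      have h1 : (3 * (n : ℝ) + 8) * d ≤ (4 * n + 9) * d :=
        mul_le_mul_of_nonneg_right (by linarith) hd0
      linarith)
  rw [← htq, ← hr] at hlk
  obtain ⟨q, hq⟩ : ∃ q, q = cond tq (Bg M b th A0 θ) True := ⟨_, rfl⟩
  rw [← hq] at hlk
  have hql : IsLaw q := by rw [hq]; exact cond_law ht0 hPB0
  have hqt : ∀ w, 0 < q w → 0 < tq w ∧ Bg M b th A0 θ w := fun w hw => by
    rw [hq] at hw
    have := (cond_pos_iff ht0 _ True w).1 hw
    exact ⟨this.1, of_eq_true this.2⟩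
  obtain ⟨g, hg1, hg2⟩ := cpy_sel hql (fun w => Z (w 0)) (fun w => Bs (w 0))
    (fun w w' => RR r (bw M b th A0 w) (bw M b th A0 w'))
  have hg3 := hg2.trans hlk
  -- the pairs (sample, copy)
  have mg' : Pb tq (fun w => Bg M b th A0 θ w ∧
      RR r (bw M b th A0 w) (bw M b th A0 (g (Z (w 0), Bs (w 0))))) ≤ δ := by
    have e1 : Pb tq (fun w => Bg M b th A0 θ w ∧
        RR r (bw M b th A0 w) (bw M b th A0 (g (Z (w 0), Bs (w 0))))) =
        Pe tq (Bg M b th A0 θ) * Pe q (fun w =>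
          RR r (bw M b th A0 w) (bw M b th A0 (g (Z (w 0), Bs (w 0))))) := by
      rw [Pb_Pe, Pe_cc hPB0, hq]
    rw [e1, ← Pb_Pe q]
    have h1 := Pe_le_one htl (Bg M b th A0 θ)
    have h2 := Pb_nonneg hql.nonneg (fun w =>
      RR r (bw M b th A0 w) (bw M b th A0 (g (Z (w 0), Bs (w 0)))))
    exact (mul_le_of_le_one_left h2 h1).trans hg3
  -- the pairs (sample, selected sample)
  have mf' : Pb tq (fun w => Bg M b th A0 θ w ∧ T (L (w 0)) ∧
      RR r (bw M b th A0 w) (bdv M b th A0 (f (L (w 0))))) ≤ δ / δ₁ := by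
    have him2 : Im tq (tup p L (n + 1)) (fun w => w ∘ Fin.succ) := by
      rw [htq]
      exact im_of_marg (tup_sub hp0 L (M := n + 1) (N := n + 2) Fin.succ
        (Fin.succ_injective _))
    rw [Pb_im him2] at hT2
    refine le_trans (Pb_mono ht0 fun w hw h => ?_) hT2
    obtain ⟨s1, s2, s3⟩ := hsup w hw
    have e1 : bdv M b th A0 (w ∘ Fin.succ) = bw M b th A0 w := s3
    have e2 : L ((w ∘ Fin.succ) 0) = L (w 0) := s2
    rw [e1, e2]
    exact h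
  -- the slopes
  obtain ⟨rL, hrL⟩ : ∃ rL : Λ → ℝ, rL = fun z => dr M b th A0 (f z) 1 / dr M b th A0 (f z) 0 :=
    ⟨_, rfl⟩
  obtain ⟨rP, hrP⟩ : ∃ rP : (Fin 2 → ℤ) × σ → ℝ, rP = fun y =>
      un (bw M b th A0 (g y)) 1 / un (bw M b th A0 (g y)) 0 := ⟨_, rfl⟩
  obtain ⟨rw', hrw⟩ : ∃ rw' : (Fin (n + 2 + 1) → Ω) → ℝ, rw' = fun w =>
      un (bw M b th A0 w) 1 / un (bw M b th A0 w) 0 := ⟨_, rfl⟩
  have sl1 : ∀ w, 0 < tq w → θ ≤ nb (bw M b th A0 w) → BL M b th A0 T f θ (L (w 0)) →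
      ¬ RR r (bw M b th A0 w) (bdv M b th A0 (f (L (w 0)))) →
      θ / 2 ≤ |un (bw M b th A0 w) 0| ∧ |rL (L (w 0)) - rw' w| ≤ 2 * (r / θ ^ 4) := by
    intro w hw h1 h2 h3
    obtain ⟨s1, -, -⟩ := hsup w hw
    have n1 := hf (w 0) s1 h2.1
    have g1 := rr_un hr0.le h3 hθ h1 n1
    have u1 : Un (un (bw M b th A0 w)) := un_un (hθ.trans_le h1)
    have u2 : Un (dr M b th A0 (f (L (w 0)))) := un_un (hθ.trans_le n1)
    have g2 : |wg (dr M b th A0 (f (L (w 0)))) (un (bw M b th A0 w))| ≤ r / (θ * θ) := by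
      rw [wg_swap, abs_neg]
      exact g1
    have g3 := first_big u2 u1 h2.2 g2
    have g4 : θ / 2 ≤ |un (bw M b th A0 w) 0| := by linarith
    refine ⟨g4, ?_⟩
    have g5 := slope_near hθ (by positivity : 0 < θ / 2) h2.2 g4 g2
    rw [hrL, hrw]
    refine g5.trans (le_of_eq ?_)
    field_simp
  have sl2 : ∀ w, 0 < tq w → θ ≤ nb (bw M b th A0 w) → θ / 2 ≤ |un (bw M b th A0 w) 0| →
      ¬ RR r (bw M b th A0 w) (bw M b th A0 (g (Z (w 0), Bs (w 0)))) →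
      |rw' w - rP (Z (w 0), Bs (w 0))| ≤ 8 * (r / θ ^ 4) := by
    intro w hw h1 h2 h3
    have hqw : 0 < q w := by
      rw [hq]
      exact (cond_pos_iff ht0 _ True w).2 ⟨hw, eq_true h1⟩
    have n1 : θ ≤ nb (bw M b th A0 (g (Z (w 0), Bs (w 0)))) := (hqt _ (hg1 w hqw)).2
    have g1 := rr_un hr0.le h3 hθ h1 n1
    have u1 : Un (un (bw M b th A0 w)) := un_un (hθ.trans_le h1)
    have u2 : Un (un (bw M b th A0 (g (Z (w 0), Bs (w 0))))) := un_un (hθ.trans_le n1)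
    have g3 := first_big u1 u2 h2 g1
    have g4 : θ / 4 ≤ |un (bw M b th A0 (g (Z (w 0), Bs (w 0)))) 0| := by linarith
    have g5 := slope_near (by positivity : 0 < θ / 2) (by positivity : 0 < θ / 4) h2 g4 g1
    rw [hrw, hrP]
    refine g5.trans (le_of_eq ?_)
    field_simp
    norm_num
  -- the codes
  obtain ⟨Q, hQ⟩ : ∃ Q : (Fin (n + 2 + 1) → Ω) → Prop, Q = fun w =>
      θ ≤ nb (bw M b th A0 w) ∧ BL M b th A0 T f θ (L (w 0)) := ⟨_, rfl⟩
  have hsh := Pool.PR46.shift_eq htl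
    (fun w => if Q w then 2 ^ (X - t) * rL (L (w 0)) else 0)
    (fun w => if Q w then 2 ^ (X - t) * rP (Z (w 0), Bs (w 0)) else 0) (θ := ε₃)
    (η := δ / δ₁ + δ) hε₃ (by
      refine le_trans (Pb_mono ht0 fun w hw h => ?_) ((Pb_or ht0 _ _).trans
        (add_le_add mf' mg'))
      by_cases hQw : Q w
      · simp only [if_pos hQw] at h
        rw [hQ] at hQw
        by_contra hn
        push Not at hn
        have h1 := hn.1 hQw.1 hQw.2.1
        have h2 := hn.2 hQw.1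
        obtain ⟨a1, a2⟩ := sl1 w hw hQw.1 hQw.2 h1
        have a3 := sl2 w hw hQw.1 a1 h2
        have a4 : |rL (L (w 0)) - rP (Z (w 0), Bs (w 0))| ≤ 10 * (r / θ ^ 4) := by
          have := abs_sub_le (rL (L (w 0))) (rw' w) (rP (Z (w 0), Bs (w 0)))
          linarith
        rw [← mul_sub, abs_mul, abs_of_pos hY0] at h
        have := mul_le_mul_of_nonneg_left a4 hY0.le
        linarith
      · simp only [if_neg hQw, sub_zero, abs_zero] at h
        linarith) m' hm'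
  obtain ⟨i, -, hi⟩ := hsh
  obtain ⟨s, hsd⟩ : ∃ s : ℝ, s = (i : ℝ) / m' := ⟨_, rfl⟩
  rw [← hsd] at hi
  obtain ⟨kL, hkL⟩ : ∃ kL : Λ → ℤ, kL = fun z => ⌊2 ^ (X - t) * rL z + s⌋ := ⟨_, rfl⟩
  obtain ⟨kP, hkP⟩ : ∃ kP : (Fin 2 → ℤ) × σ → ℤ, kP = fun y => ⌊2 ^ (X - t) * rP y + s⌋ :=
    ⟨_, rfl⟩
  obtain ⟨ka, hka⟩ : ∃ ka : ℤ → ℝ, ka = fun k : ℤ =>
      max (-(1 / θ)) (min (1 / θ) (((k : ℝ) - s) / 2 ^ (X - t))) := ⟨_, rfl⟩
  have hθi : 0 < 1 / θ := by positivity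
  have kab : ∀ k, |ka k| ≤ 1 / θ := fun k => by
    rw [hka, abs_le]
    exact ⟨le_max_left _ _, max_le (by linarith) (min_le_left _ _)⟩
  have kan : ∀ z, |rL z| ≤ 1 / θ → |rL z - ka (kL z)| ≤ 1 / 2 ^ (X - t) := by
    intro z hz
    have h1 := Int.floor_le (2 ^ (X - t) * rL z + s)
    have h2 := Int.lt_floor_add_one (2 ^ (X - t) * rL z + s)
    have h3 : |rL z - ((kL z : ℝ) - s) / 2 ^ (X - t)| ≤ 1 / 2 ^ (X - t) := by
      have e1 : rL z - ((kL z : ℝ) - s) / 2 ^ (X - t) =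
          (2 ^ (X - t) * rL z + s - kL z) / 2 ^ (X - t) := by
        field_simp
        ring
      rw [e1, abs_div, abs_of_pos hY0]
      refine div_le_div_of_nonneg_right ?_ hY0.le
      rw [hkL, abs_le]
      simp only
      constructor <;> linarith
    have h4 : |rL z - ka (kL z)| ≤ |rL z - ((kL z : ℝ) - s) / 2 ^ (X - t)| := by
      obtain ⟨x, hx⟩ : ∃ x : ℝ, x = ((kL z : ℝ) - s) / 2 ^ (X - t) := ⟨_, rfl⟩
      rw [hka]
      simp only
      rw [← hx]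
      have hz' := abs_le.1 hz
      rcases le_total x (1 / θ) with c1 | c1
      · rw [min_eq_right c1]
        rcases le_total (-(1 / θ)) x with c2 | c2
        · rw [max_eq_right c2]
        · rw [max_eq_left c2, abs_of_nonneg (by linarith [hz'.1]),
            abs_of_nonneg (by linarith [hz'.1])]
          linarith
      · rw [min_eq_left c1, max_eq_right (by linarith), abs_of_nonpos (by linarith [hz'.2]),
          abs_of_nonpos (by linarith [hz'.2])]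
        linarith
    exact h4.trans h3
  -- the event
  obtain ⟨G, hG⟩ : ∃ G : (Fin (n + 2 + 1) → Ω) → Prop, G = fun w => 0 < tq w ∧ Q w ∧
      ¬ RR r (bw M b th A0 w) (bdv M b th A0 (f (L (w 0)))) ∧
      kL (L (w 0)) = kP (Z (w 0), Bs (w 0)) := ⟨_, rfl⟩
  obtain ⟨E, hE⟩ : ∃ E : Ω → Prop, E = fun ω => kL (L ω) = kP (Z ω, Bs ω) := ⟨_, rfl⟩
  have hGm : m ≤ Pe tq G := by
    have h1 := Pe_sub (G := G) (G1 := Q) ht0
      (G2 := fun w => Bg M b th A0 θ w ∧ T (L (w 0)) ∧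
        RR r (bw M b th A0 w) (bdv M b th A0 (f (L (w 0)))))
      (G3 := fun w => ⌊(if Q w then 2 ^ (X - t) * rL (L (w 0)) else 0) + s⌋ ≠
        ⌊(if Q w then 2 ^ (X - t) * rP (Z (w 0), Bs (w 0)) else 0) + s⌋) (fun w hw hQw => by
        by_cases c1 : RR r (bw M b th A0 w) (bdv M b th A0 (f (L (w 0))))
        · have hQw' := hQw
          rw [hQ] at hQw'
          exact Or.inr (Or.inl ⟨hQw'.1, hQw'.2.1, c1⟩)
        · by_cases c2 : kL (L (w 0)) = kP (Z (w 0), Bs (w 0))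
          · left
            rw [hG]
            exact ⟨hw, hQw, c1, c2⟩
          · right
            right
            simp only [if_pos hQw]
            rw [hkL, hkP] at c2
            exact c2)
    have mB' : δ₁ * ε₂ ≤ Pe tq Q := by
      rw [hQ]
      exact mB
    have h2 := mB'.trans h1
    linarith
  have hGt : ∀ w, G w → 0 < tq w ∧ Q w ∧
      ¬ RR r (bw M b th A0 w) (bdv M b th A0 (f (L (w 0)))) ∧
      kL (L (w 0)) = kP (Z (w 0), Bs (w 0)) := fun w hw => by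
    rw [hG] at hw
    exact hw
  have hGQ : ∀ w, G w → θ ≤ nb (bw M b th A0 w) ∧ BL M b th A0 T f θ (L (w 0)) := fun w hw => by
    have := (hGt w hw).2.1
    rw [hQ] at this
    exact this
  -- the deficit
  have hdf : DF tq (fun _ => Tx 2 X) (bw M b th A0) (fun w => xv X (Z (w 0))) (Pool.DIR21.dat Wd b th) ≤
      |e₀| + (2 * n + 5) * d + |Pool.POT64.Cch 2 Lm C| := by
    have h1 := hH.df_tup hL0.le hinv hbody (n + 1) id Function.injective_id
    have h9 : (2 * (((n + 1 : ℕ) : ℝ) + 1) + 1) * d = (2 * n + 5) * d := by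
      push_cast
      ring
    rw [h9] at h1
    rw [htq]
    have h5 := le_abs_self e₀
    have h6 := le_abs_self (Pool.POT64.Cch 2 Lm C)
    have h8 : DF (tup p L (n + 2)) (fun _ => Tx 2 X) (bw M b th A0) (fun w => xv X (Z (w 0)))
      (Pool.DIR21.dat Wd b th) ≤ e₀ + (2 * n + 5) * d + Pool.POT64.Cch 2 Lm C := h1
    linarith
  have hrLb : ∀ w, G w → |rL (L (w 0))| ≤ 1 / θ := fun w hw => by
    have h1 := hGQ w hw
    have n1 := hf (w 0) (hsup w (hGt w hw).1).1 h1.2.1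
    rw [hrL]
    exact slope_le (un_un (hθ.trans_le n1)) hθ h1.2.2
  have hkey := key hp htl him (t := t) Z (fun ω => (Wd ω, S ω)) (fun ω => kL (L ω)) ka
    (A := bw M b th A0) (Pool.DIR21.dat Wd b th) (bod_dt _) (by
      intro w w' x y e
      simp only [Pool.DIR21.dat, Prod.mk.injEq] at e
      refine Prod.ext e.1 (hH.SY _ _ (him.pos ht0 x) (him.pos ht0 y) ?_)
      simp only [Prod.mk.injEq]
      exact ⟨e.1, e.2.2.1, e.2.1⟩) (fun w => hH.bod_det hA _ _) (by positivity)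
    (fun w => hH.bod_inc hinv _ _) (by positivity) hdf (G := G) (E := E) (fun w hw => by
      rw [hE]
      exact (hGt w hw).2.2.2) hm0 hGm hθ (fun w hw => (hGQ w hw).1) (c1 := Kb + 1)
    (by positivity) (fun w hw a => by
      obtain ⟨a1, a2, a3, a4⟩ := hGt w hw
      obtain ⟨b1, b2⟩ := hGQ w hw
      have n1 := hf (w 0) (hsup w a1).1 b2.1
      have c1 := rr_col a3 (hθ.trans_le n1) a
      have c2 : |wg (co (bw M b th A0 w) a) (dr M b th A0 (f (L (w 0))))| ≤ r / θ :=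
        c1.trans (div_le_div_of_nonneg_left hr0.le hθ n1)
      have c3 := col_big hθ b2.2 c2
      have c4 : |bw M b th A0 w 1 a - rL (L (w 0)) * bw M b th A0 w 0 a| ≤ r / θ / θ := by
        rw [hrL]
        exact c3
      have c5 := kan (L (w 0)) (hrLb w hw)
      have c6 : |bw M b th A0 w 1 a - ka (kL (L (w 0))) * bw M b th A0 w 0 a| ≤
          r / θ / θ + 1 / 2 ^ (X - t) * Kb := by
        have e1 : bw M b th A0 w 1 a - ka (kL (L (w 0))) * bw M b th A0 w 0 a =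
            (bw M b th A0 w 1 a - rL (L (w 0)) * bw M b th A0 w 0 a) +
            (rL (L (w 0)) - ka (kL (L (w 0)))) * bw M b th A0 w 0 a := by ring
        rw [e1]
        refine (abs_add_le _ _).trans (add_le_add c4 ?_)
        rw [abs_mul]
        exact mul_le_mul c5 (hKb w 0 a) (abs_nonneg _) (by positivity)
      have hXt : (2 : ℝ) ^ X = 2 ^ (X - t) * 2 ^ t := by
        rw [← pow_add, Nat.sub_add_cancel ht]
      have h2t : (0 : ℝ) < 2 ^ t := by positivity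
      have c7 : 2 ^ (X - t) * (r / θ / θ) ≤ 1 := by
        have e1 : r / θ / θ = r / θ ^ 4 * (θ * θ) := by field_simp
        have e2 : r / θ ^ 4 * (θ * θ) ≤ r / θ ^ 4 * 1 :=
          mul_le_mul_of_nonneg_left (by nlinarith) hr4'
        rw [e1]
        have e3 := mul_le_mul_of_nonneg_left e2 hY0.le
        have e4 : 0 ≤ 2 ^ (X - t) * (r / θ ^ 4) := by positivity
        linarith
      calc |bw M b th A0 w 1 a - ka (kL (L (w 0))) * bw M b th A0 w 0 a| * 2 ^ X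
          ≤ (r / θ / θ + 1 / 2 ^ (X - t) * Kb) * 2 ^ X :=
            mul_le_mul_of_nonneg_right c6 (by positivity)
        _ = (2 ^ (X - t) * (r / θ / θ) + Kb) * 2 ^ t := by
            rw [hXt]
            field_simp
        _ ≤ (Kb + 1) * 2 ^ t := mul_le_mul_of_nonneg_right (by linarith) h2t.le)
    (fun w w' _ _ hw hw' e => by
      obtain ⟨a1, a2, a3, a4⟩ := hGt w hw
      obtain ⟨b1, b2⟩ := hGQ w hw
      obtain ⟨a1', a2', a3', a4'⟩ := hGt w' hw'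
      obtain ⟨b1', b2'⟩ := hGQ w' hw'
      have e1 : bw M b th A0 w = bw M b th A0 w' := by
        have e0 := e
        simp only [Pool.DIR21.dat, Prod.mk.injEq] at e0
        have e5 : (fun j : Fin (n + 2) => th (w j.succ)) = fun j => th (w' j.succ) := e0.2.2.2
        unfold bw
        rw [e0.2.1, e5]
      have c1 := (sl1 w a1 b1 b2 a3).2
      have c2 := (sl1 w' a1' b1' b2' a3').2
      have e2 : rw' w = rw' w' := by
        rw [hrw]
        simp only [e1]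
      rw [← e2] at c2
      have c3 : |rL (L (w 0)) - rL (L (w' 0))| ≤ 4 * (r / θ ^ 4) := by
        have h1 := abs_sub_le (rL (L (w 0))) (rw' w) (rL (L (w' 0)))
        rw [abs_sub_comm (rw' w)] at h1
        linarith
      have c4 := mul_le_mul_of_nonneg_left c3 hY0.le
      have c5 : |2 ^ (X - t) * rL (L (w 0)) - 2 ^ (X - t) * rL (L (w' 0))| ≤ 1 := by
        rw [← mul_sub, abs_mul, abs_of_pos hY0]
        have : 0 ≤ 2 ^ (X - t) * (r / θ ^ 4) := by positivity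
        linarith
      have f1 := Int.floor_le (2 ^ (X - t) * rL (L (w 0)) + s)
      have f2 := Int.lt_floor_add_one (2 ^ (X - t) * rL (L (w 0)) + s)
      have f3 := Int.floor_le (2 ^ (X - t) * rL (L (w' 0)) + s)
      have f4 := Int.lt_floor_add_one (2 ^ (X - t) * rL (L (w' 0)) + s)
      rw [hkL]
      rw [abs_le] at c5 ⊢
      simp only
      constructor <;> linarith [c5.1, c5.2])
    (Kb := 1 / θ) (by positivity) kab hb₁ hϖ₁ (fun B' h1 h2 h3 =>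
      hFI kL kP ka B' kab (fun ω _ hω => by
        have := h1 ω hω
        rw [hE] at this
        exact this) h2 h3) hC hR₂ hH.Z_b hrow hK
  linarith

end Pool.DIR16
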