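import Pool.Agent.H16.DIR.Bad

/-!
# DIR: the lines whose body has a small slope

`bad_linesS`: `bad_lines` for the lines whose body has a slope of size at most `Sb`, if the digits of
`Z 1 - ka Z 0` are full for the closed slopes of size at most `Sb`.
-/

set_option autoImplicit false

namespace Pool.DIR16

open Finset Real Matrix
open Pool.Agent.H49.Ent Pool.Agent.H32.Dense Pool.STK Pool.POT Pool.FAD Pool.SLO Pool.TQ
open Pool.K2S (Pe)
open Pool.DIR21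
open Pool.BFL (Pb)

variable {Ω Λ τ B β ρ σ : Type} [Fintype Ω] {p : Ω → ℝ} {L : Ω → Λ} {th : Ω → τ}
  {b : Ω → B} {hgt : Ω → Fin 2 → ℤ} {S : Ω → ρ} {Wd : Ω → β} {Z : Ω → Fin 2 → ℤ} {Bs : Ω → σ}
  {M : B → Matrix (Fin 2) (Fin 2) ℝ} {X : ℕ} {C Lm d R ϖ : ℝ}

/-- The line is bad and its body has a small slope. -/
def BS (M : B → Matrix (Fin 2) (Fin 2) ℝ) (b : Ω → B) (th : Ω → τ) {n : ℕ}
    (A0 : (Fin (n + 2) → τ) → Matrix (Fin 2) (Fin 2) ℝ) (T : Λ → Prop) (f : Λ → Fin (n + 2) → Ω)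
    (θ Sb : ℝ) (z : Λ) : Prop :=
  T z ∧ θ ≤ |dr M b th A0 (f z) 0| ∧ |dr M b th A0 (f z) 1| ≤ Sb * |dr M b th A0 (f z) 0|

/-- **The bad lines with a bounded slope.** -/
theorem bad_linesS (hH : DrOk p L th b hgt S Wd Z Bs M X C Lm d R ϖ) {h κ₁ δ F₀ η : ℝ} {X0 : ℕ}
    (hm : MN h κ₁ δ F₀ η ϖ C (4 * Lm) X0) (hX : X0 ≤ X) (hF : 1 ≤ F₀) (hL0 : 0 < Lm)
    (hϖ : 0 < ϖ)
    (hR : R + (d + Real.log 2) / ϖ ≤ (2 - h) * X * Real.log 2 + η * X) {n : ℕ}
    {A0 : (Fin (n + 2) → τ) → Matrix (Fin 2) (Fin 2) ℝ} (hA : ∀ t, (A0 t).det ≠ 0)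
    (hinv : ∀ t i j, |(A0 t)⁻¹ i j| ≤ 2 ^ X) {Kb : ℝ} (hKb0 : 0 ≤ Kb)
    (hKb : ∀ w : Fin (n + 2 + 1) → Ω, ∀ i a, |bw M b th A0 w i a| ≤ Kb) {Sb : ℝ} (hSb : 0 ≤ Sb)
    {e₀ : ℝ}
    (hbody : DF (tup p L (n + 2)) (fun _ => Tx 2 X) (fun w => A0 fun j => th (w j.succ))
      (fun w => xv X (hgt (w 0)))
      (fun w => (b (w 0), (th (w 0), fun j : Fin (n + 2) => th (w j.succ)))) ≤ e₀)
    (he : F₀ * (|e₀| + (4 * n + 9) * d + |Pool.POT64.Cch 2 Lm C| + |Cc 2 (4 * Lm)|) ≤ η * X)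
    {θ δ₁ ε₂ ε₃ : ℝ} (hθ : 0 < θ) (hθ1 : θ ≤ 1) (hδ₁ : 0 < δ₁) (hδ : 0 ≤ δ) (hε₂ : 0 < ε₂)
    (hε₃ : 0 ≤ ε₃) (hε₃1 : ε₃ ≤ 1) (hF₂ : 1 ≤ F₀ * (δ₁ * ε₂)) {T : Λ → Prop}
    {f : Λ → Fin (n + 2) → Ω}
    (hf : ∀ ω, 0 < p ω → T (L ω) → θ ≤ nb (bdv M b th A0 (f (L ω))))
    (hT2 : Pb (tup p L (n + 1)) (fun v => θ ≤ nb (bdv M b th A0 v) ∧ T (L (v 0)) ∧
      RR ((2 : ℝ) ^ (-(κ₁ * X))) (bdv M b th A0 v) (bdv M b th A0 (f (L (v 0))))) ≤ δ / δ₁)
    (hT3 : ∀ ω, T (L ω) → δ₁ * p ω ≤ mg (fun w : Fin (n + 1 + 1 + 1) → Ω =>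
      tup p L (n + 1 + 1) w * ci (θ ≤ nb (bdv M b th A0 fun j => w j.succ))) (fun w => w 0) ω)
    {t : ℕ} (ht : t ≤ X) (hs : 10 * 2 ^ (X - t) * (2 : ℝ) ^ (-(κ₁ * X)) ≤ ε₃ * θ ^ 4) {m' : ℕ}
    (hm' : 1 ≤ m') {m : ℝ} (hm0 : 0 < m)
    (hmass : m + δ / δ₁ + (δ / δ₁ + δ + ε₃ + 1 / m') ≤ δ₁ * ε₂)
    {b₁ ϖ₁ R₂ : ℝ} (hb₁ : 0 ≤ b₁) (hϖ₁ : 0 ≤ ϖ₁)
    (hFI : FIh p L (fun ω => (Wd ω, S ω)) Z Bs t Sb b₁ (ϖ₁ * m)) (hC : 0 ≤ C)
    (hR₂ : 0 ≤ R₂)
    (hrow : ∀ G : Ω → Prop, ϖ₁ ≤ Pe p G → 0 < Pe p G →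
      CH (cond p G True) (fun ω i => Z ω i / 2 ^ t) (fun ω => (Wd ω, S ω)) ≤ R₂) {K : ℕ}
    (hK : 0 < K) (hnum : R₂ + (1 / m / K + 1 / m * ϖ₁) * (2 * Real.log (4 * (C * 2 ^ X) + 1)) +
      Real.log (K + 1) + (|e₀| + (2 * n + 5) * d + |Pool.POT64.Cch 2 Lm C| + Real.log 2 +
      |Cc 2 (4 * Lm)|) / m + Ca (4 * Lm) + Real.log 9 + Real.log (2 * (2 * (Kb + 1) + 1) + 1) +
      Real.log (2 * (Sb + 2) + 1) < (1 - ϖ₁ / m) * b₁ + ((X - t) * Real.log 2 +
        Real.log θ)) :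
    Pb p (fun ω => BS M b th A0 T f θ Sb (L ω)) ≤ ε₂ := by
  classical
  by_contra hcon
  push Not at hcon
  have hp := hH.law
  have hp0 := hp.nonneg
  obtain ⟨tq, htq⟩ : ∃ tq, tq = tup p L (n + 2) := ⟨_, rfl⟩
  have htl : IsLaw tq := by rw [htq]; exact tup_isLaw hp L (n + 2)
  have ht0 := htl.nonneg
  have him : Im tq p (fun w => w 0) := by rw [htq]; exact im_tup hp0 L _ 0
  have hd0 : 0 ≤ d := (MI_nonneg hp0 _ _ _).trans hH.h0
  have hn0 : (0 : ℝ) ≤ n := Nat.cast_nonneg n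
  obtain ⟨r, hr⟩ : ∃ r : ℝ, r = (2 : ℝ) ^ (-(κ₁ * X)) := ⟨_, rfl⟩
  have hr0 : 0 < r := by rw [hr]; positivity
  rw [← hr] at hT2 hs
  -- the sizes
  have hY1 : (1 : ℝ) ≤ 2 ^ (X - t) := one_le_pow₀ (by norm_num)
  have hY0 : (0 : ℝ) < 2 ^ (X - t) := by positivity
  have hs' : 2 ^ (X - t) * (10 * (r / θ ^ 4)) ≤ ε₃ := by
    have : 2 ^ (X - t) * (10 * (r / θ ^ 4)) = 10 * 2 ^ (X - t) * r / θ ^ 4 := by ring
    rw [this, div_le_iff₀ (by positivity)]
    exact hs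
  have hr4 : 10 * (r / θ ^ 4) ≤ 1 := by
    have h1 : 10 * (r / θ ^ 4) ≤ 2 ^ (X - t) * (10 * (r / θ ^ 4)) :=
      le_mul_of_one_le_left (by positivity) hY1
    linarith
  have hr4' : 0 ≤ r / θ ^ 4 := by positivity
  have hr2 : r / (θ * θ) ≤ θ / 8 := by
    have h1 : r / (θ * θ) = r / θ ^ 4 * (θ * θ) := by field_simp
    rw [h1]
    have h2 : r / θ ^ 4 * (θ * θ) ≤ 1 / 10 * (θ * θ) :=
      mul_le_mul_of_nonneg_right (by linarith) (by positivity)
    have h3 : θ * θ ≤ θ * 1 := mul_le_mul_of_nonneg_left hθ1 hθ.le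
    linarith
  -- the support
  have hsup : ∀ w, 0 < tq w → 0 < p (w 0) ∧ L (w (Fin.succ 0)) = L (w 0) ∧
      bdv M b th A0 (fun j => w j.succ) = bw M b th A0 w := fun w hw => by
    rw [htq] at hw
    have h1 := (tup_pos_iff hp0 L _ w).1 hw
    exact ⟨h1.1 0, h1.2 _, bw_eq hp0 hH.Lb hw⟩
  -- the mass of the bad tuples
  have mB : δ₁ * ε₂ ≤ Pe tq (fun w => θ ≤ nb (bw M b th A0 w) ∧ BS M b th A0 T f θ Sb (L (w 0))) := by
    have h1 : δ₁ * Pe p (fun ω => BS M b th A0 T f θ Sb (L ω)) ≤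
        Pe tq (fun w => θ ≤ nb (bw M b th A0 w) ∧ BS M b th A0 T f θ Sb (L (w 0))) := by
      refine mg_ci_T ht0 (fun w => w 0) _ fun ω hω => ?_
      refine (hT3 ω hω.1).trans (le_of_eq ?_)
      unfold mg
      refine Finset.sum_congr rfl fun w _ => ?_
      by_cases h2 : w 0 = ω
      · rw [if_pos h2, if_pos h2]
        rw [htq]
        show tup p L (n + 2) w * ci (θ ≤ nb (bdv M b th A0 fun j => w j.succ)) =
          tup p L (n + 2) w * ci (θ ≤ nb (bw M b th A0 w) ∧ BS M b th A0 T f θ Sb (L (w 0)))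
        rcases (tup_isLaw hp L (n + 2)).nonneg w |>.eq_or_lt with h3 | h3
        · rw [← h3, zero_mul, zero_mul]
        · rw [bw_eq hp0 hH.Lb h3]
          congr 1
          refine le_antisymm (ci_mono fun h => ⟨h, ?_⟩) (ci_mono fun h => h.1)
          rw [h2]
          exact hω
      · rw [if_neg h2, if_neg h2]
    refine le_trans (mul_le_mul_of_nonneg_left ?_ hδ₁.le) h1
    rw [← Pb_Pe]
    exact hcon.le
  -- the copies
  have hPB : δ₁ * ε₂ ≤ Pe tq (Bg M b th A0 θ) := by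
    refine mB.trans ?_
    rw [← Pb_Pe, ← Pb_Pe]
    exact Pb_mono ht0 fun w _ h => h.1
  have hPB0 : 0 < Pe tq (Bg M b th A0 θ) := lt_of_lt_of_le (by positivity) hPB
  have hlk := hH.lnk hm hX hF hL0.le hϖ hR hA hinv hbody (κ := θ) (by
    rw [← htq]
    refine le_trans ?_ hPB
    rw [div_le_iff₀ (by linarith)]
    linarith) (by
      refine le_trans (mul_le_mul_of_nonneg_left ?_ (by linarith)) he
      have h1 : (3 * (n : ℝ) + 8) * d ≤ (4 * n + 9) * d :=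
        mul_le_mul_of_nonneg_right (by linarith) hd0
      linarith)
  rw [← htq, ← hr] at hlk
  obtain ⟨q, hq⟩ : ∃ q, q = cond tq (Bg M b th A0 θ) True := ⟨_, rfl⟩
  rw [← hq] at hlk
  have hql : IsLaw q := by rw [hq]; exact cond_law ht0 hPB0
  have hqt : ∀ w, 0 < q w → 0 < tq w ∧ Bg M b th A0 θ w := fun w hw => by
    rw [hq] at hw
    have := (cond_pos_iff ht0 _ True w).1 hw
    exact ⟨this.1, of_eq_true this.2⟩
  obtain ⟨g, hg1, hg2⟩ := cpy_sel hql (fun w => Z (w 0)) (fun w => Bs (w 0))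
    (fun w w' => RR r (bw M b th A0 w) (bw M b th A0 w'))
  have hg3 := hg2.trans hlk
  -- the pairs (sample, copy)
  have mg' : Pb tq (fun w => Bg M b th A0 θ w ∧
      RR r (bw M b th A0 w) (bw M b th A0 (g (Z (w 0), Bs (w 0))))) ≤ δ := by
    have e1 : Pb tq (fun w => Bg M b th A0 θ w ∧
        RR r (bw M b th A0 w) (bw M b th A0 (g (Z (w 0), Bs (w 0))))) =
        Pe tq (Bg M b th A0 θ) * Pe q (fun w =>
          RR r (bw M b th A0 w) (bw M b th A0 (g (Z (w 0), Bs (w 0))))) := by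
      rw [Pb_Pe, Pe_cc hPB0, hq]
    rw [e1, ← Pb_Pe q]
    have h1 := Pe_le_one htl (Bg M b th A0 θ)
    have h2 := Pb_nonneg hql.nonneg (fun w =>
      RR r (bw M b th A0 w) (bw M b th A0 (g (Z (w 0), Bs (w 0)))))
    exact (mul_le_of_le_one_left h2 h1).trans hg3
  -- the pairs (sample, selected sample)
  have mf' : Pb tq (fun w => Bg M b th A0 θ w ∧ T (L (w 0)) ∧
      RR r (bw M b th A0 w) (bdv M b th A0 (f (L (w 0))))) ≤ δ / δ₁ := by
    have him2 : Im tq (tup p L (n + 1)) (fun w => w ∘ Fin.succ) := by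
      rw [htq]
      exact im_of_marg (tup_sub hp0 L (M := n + 1) (N := n + 2) Fin.succ
        (Fin.succ_injective _))
    rw [Pb_im him2] at hT2
    refine le_trans (Pb_mono ht0 fun w hw h => ?_) hT2
    obtain ⟨s1, s2, s3⟩ := hsup w hw
    have e1 : bdv M b th A0 (w ∘ Fin.succ) = bw M b th A0 w := s3
    have e2 : L ((w ∘ Fin.succ) 0) = L (w 0) := s2
    rw [e1, e2]
    exact h
  -- the slopes
  obtain ⟨rL, hrL⟩ : ∃ rL : Λ → ℝ, rL = fun z => dr M b th A0 (f z) 1 / dr M b th A0 (f z) 0 :=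
    ⟨_, rfl⟩
  obtain ⟨rP, hrP⟩ : ∃ rP : (Fin 2 → ℤ) × σ → ℝ, rP = fun y =>
      un (bw M b th A0 (g y)) 1 / un (bw M b th A0 (g y)) 0 := ⟨_, rfl⟩
  obtain ⟨rw', hrw⟩ : ∃ rw' : (Fin (n + 2 + 1) → Ω) → ℝ, rw' = fun w =>
      un (bw M b th A0 w) 1 / un (bw M b th A0 w) 0 := ⟨_, rfl⟩
  have sl1 : ∀ w, 0 < tq w → θ ≤ nb (bw M b th A0 w) → BS M b th A0 T f θ Sb (L (w 0)) →
      ¬ RR r (bw M b th A0 w) (bdv M b th A0 (f (L (w 0)))) →
      θ / 2 ≤ |un (bw M b th A0 w) 0| ∧ |rL (L (w 0)) - rw' w| ≤ 2 * (r / θ ^ 4) := by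
    intro w hw h1 h2 h3
    obtain ⟨s1, -, -⟩ := hsup w hw
    have n1 := hf (w 0) s1 h2.1
    have g1 := rr_un hr0.le h3 hθ h1 n1
    have u1 : Un (un (bw M b th A0 w)) := un_un (hθ.trans_le h1)
    have u2 : Un (dr M b th A0 (f (L (w 0)))) := un_un (hθ.trans_le n1)
    have g2 : |wg (dr M b th A0 (f (L (w 0)))) (un (bw M b th A0 w))| ≤ r / (θ * θ) := by
      rw [wg_swap, abs_neg]
      exact g1
    have g3 := first_big u2 u1 h2.2.1 g2
    have g4 : θ / 2 ≤ |un (bw M b th A0 w) 0| := by linarith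
    refine ⟨g4, ?_⟩
    have g5 := slope_near hθ (by positivity : 0 < θ / 2) h2.2.1 g4 g2
    rw [hrL, hrw]
    refine g5.trans (le_of_eq ?_)
    field_simp
  have sl2 : ∀ w, 0 < tq w → θ ≤ nb (bw M b th A0 w) → θ / 2 ≤ |un (bw M b th A0 w) 0| →
      ¬ RR r (bw M b th A0 w) (bw M b th A0 (g (Z (w 0), Bs (w 0)))) →
      |rw' w - rP (Z (w 0), Bs (w 0))| ≤ 8 * (r / θ ^ 4) := by
    intro w hw h1 h2 h3
    have hqw : 0 < q w := by
      rw [hq]
      exact (cond_pos_iff ht0 _ True w).2 ⟨hw, eq_true h1⟩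
    have n1 : θ ≤ nb (bw M b th A0 (g (Z (w 0), Bs (w 0)))) := (hqt _ (hg1 w hqw)).2
    have g1 := rr_un hr0.le h3 hθ h1 n1
    have u1 : Un (un (bw M b th A0 w)) := un_un (hθ.trans_le h1)
    have u2 : Un (un (bw M b th A0 (g (Z (w 0), Bs (w 0))))) := un_un (hθ.trans_le n1)
    have g3 := first_big u1 u2 h2 g1
    have g4 : θ / 4 ≤ |un (bw M b th A0 (g (Z (w 0), Bs (w 0)))) 0| := by linarith
    have g5 := slope_near (by positivity : 0 < θ / 2) (by positivity : 0 < θ / 4) h2 g4 g1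
    rw [hrw, hrP]
    refine g5.trans (le_of_eq ?_)
    field_simp
    norm_num
  -- the codes
  obtain ⟨Q, hQ⟩ : ∃ Q : (Fin (n + 2 + 1) → Ω) → Prop, Q = fun w =>
      θ ≤ nb (bw M b th A0 w) ∧ BS M b th A0 T f θ Sb (L (w 0)) := ⟨_, rfl⟩
  have hsh := Pool.PR46.shift_eq htl
    (fun w => if Q w then 2 ^ (X - t) * rL (L (w 0)) else 0)
    (fun w => if Q w then 2 ^ (X - t) * rP (Z (w 0), Bs (w 0)) else 0) (θ := ε₃)
    (η := δ / δ₁ + δ) hε₃ (by
      refine le_trans (Pb_mono ht0 fun w hw h => ?_) ((Pb_or ht0 _ _).trans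
        (add_le_add mf' mg'))
      by_cases hQw : Q w
      · simp only [if_pos hQw] at h
        rw [hQ] at hQw
        by_contra hn
        push Not at hn
        have h1 := hn.1 hQw.1 hQw.2.1
        have h2 := hn.2 hQw.1
        obtain ⟨a1, a2⟩ := sl1 w hw hQw.1 hQw.2 h1
        have a3 := sl2 w hw hQw.1 a1 h2
        have a4 : |rL (L (w 0)) - rP (Z (w 0), Bs (w 0))| ≤ 10 * (r / θ ^ 4) := by
          have := abs_sub_le (rL (L (w 0))) (rw' w) (rP (Z (w 0), Bs (w 0)))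
          linarith
        rw [← mul_sub, abs_mul, abs_of_pos hY0] at h
        have := mul_le_mul_of_nonneg_left a4 hY0.le
        linarith
      · simp only [if_neg hQw, sub_zero, abs_zero] at h
        linarith) m' hm'
  obtain ⟨i, -, hi⟩ := hsh
  obtain ⟨s, hsd⟩ : ∃ s : ℝ, s = (i : ℝ) / m' := ⟨_, rfl⟩
  rw [← hsd] at hi
  obtain ⟨kL, hkL⟩ : ∃ kL : Λ → ℤ, kL = fun z => ⌊2 ^ (X - t) * rL z + s⌋ := ⟨_, rfl⟩
  obtain ⟨kP, hkP⟩ : ∃ kP : (Fin 2 → ℤ) × σ → ℤ, kP = fun y => ⌊2 ^ (X - t) * rP y + s⌋ :=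
    ⟨_, rfl⟩
  obtain ⟨ka, hka⟩ : ∃ ka : ℤ → ℝ, ka = fun k : ℤ =>
      max (-Sb) (min Sb (((k : ℝ) - s) / 2 ^ (X - t))) := ⟨_, rfl⟩
  have kab : ∀ k, |ka k| ≤ Sb := fun k => by
    rw [hka, abs_le]
    exact ⟨le_max_left _ _, max_le (by linarith) (min_le_left _ _)⟩
  have kan : ∀ z, |rL z| ≤ Sb → |rL z - ka (kL z)| ≤ 1 / 2 ^ (X - t) := by
    intro z hz
    have h1 := Int.floor_le (2 ^ (X - t) * rL z + s)
    have h2 := Int.lt_floor_add_one (2 ^ (X - t) * rL z + s)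
    have h3 : |rL z - ((kL z : ℝ) - s) / 2 ^ (X - t)| ≤ 1 / 2 ^ (X - t) := by
      have e1 : rL z - ((kL z : ℝ) - s) / 2 ^ (X - t) =
          (2 ^ (X - t) * rL z + s - kL z) / 2 ^ (X - t) := by
        field_simp
        ring
      rw [e1, abs_div, abs_of_pos hY0]
      refine div_le_div_of_nonneg_right ?_ hY0.le
      rw [hkL, abs_le]
      simp only
      constructor <;> linarith
    have h4 : |rL z - ka (kL z)| ≤ |rL z - ((kL z : ℝ) - s) / 2 ^ (X - t)| := by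
      obtain ⟨x, hx⟩ : ∃ x : ℝ, x = ((kL z : ℝ) - s) / 2 ^ (X - t) := ⟨_, rfl⟩
      rw [hka]
      simp only
      rw [← hx]
      have hz' := abs_le.1 hz
      rcases le_total x Sb with c1 | c1
      · rw [min_eq_right c1]
        rcases le_total (-Sb) x with c2 | c2
        · rw [max_eq_right c2]
        · rw [max_eq_left c2, abs_of_nonneg (by linarith [hz'.1]),
            abs_of_nonneg (by linarith [hz'.1])]
          linarith
      · rw [min_eq_left c1, max_eq_right (by linarith), abs_of_nonpos (by linarith [hz'.2]),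
          abs_of_nonpos (by linarith [hz'.2])]
        linarith
    exact h4.trans h3
  -- the event
  obtain ⟨G, hG⟩ : ∃ G : (Fin (n + 2 + 1) → Ω) → Prop, G = fun w => 0 < tq w ∧ Q w ∧
      ¬ RR r (bw M b th A0 w) (bdv M b th A0 (f (L (w 0)))) ∧
      kL (L (w 0)) = kP (Z (w 0), Bs (w 0)) := ⟨_, rfl⟩
  obtain ⟨E, hE⟩ : ∃ E : Ω → Prop, E = fun ω => kL (L ω) = kP (Z ω, Bs ω) := ⟨_, rfl⟩
  have hGm : m ≤ Pe tq G := by
    have h1 := Pe_sub (G := G) (G1 := Q) ht0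
      (G2 := fun w => Bg M b th A0 θ w ∧ T (L (w 0)) ∧
        RR r (bw M b th A0 w) (bdv M b th A0 (f (L (w 0)))))
      (G3 := fun w => ⌊(if Q w then 2 ^ (X - t) * rL (L (w 0)) else 0) + s⌋ ≠
        ⌊(if Q w then 2 ^ (X - t) * rP (Z (w 0), Bs (w 0)) else 0) + s⌋) (fun w hw hQw => by
        by_cases c1 : RR r (bw M b th A0 w) (bdv M b th A0 (f (L (w 0))))
        · have hQw' := hQw
          rw [hQ] at hQw'
          exact Or.inr (Or.inl ⟨hQw'.1, hQw'.2.1, c1⟩)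
        · by_cases c2 : kL (L (w 0)) = kP (Z (w 0), Bs (w 0))
          · left
            rw [hG]
            exact ⟨hw, hQw, c1, c2⟩
          · right
            right
            simp only [if_pos hQw]
            rw [hkL, hkP] at c2
            exact c2)
    have mB' : δ₁ * ε₂ ≤ Pe tq Q := by
      rw [hQ]
      exact mB
    have h2 := mB'.trans h1
    linarith
  have hGt : ∀ w, G w → 0 < tq w ∧ Q w ∧
      ¬ RR r (bw M b th A0 w) (bdv M b th A0 (f (L (w 0)))) ∧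
      kL (L (w 0)) = kP (Z (w 0), Bs (w 0)) := fun w hw => by
    rw [hG] at hw
    exact hw
  have hGQ : ∀ w, G w → θ ≤ nb (bw M b th A0 w) ∧ BS M b th A0 T f θ Sb (L (w 0)) := fun w hw => by
    have := (hGt w hw).2.1
    rw [hQ] at this
    exact this
  -- the deficit
  have hdf : DF tq (fun _ => Tx 2 X) (bw M b th A0) (fun w => xv X (Z (w 0))) (Pool.DIR21.dat Wd b th) ≤
      |e₀| + (2 * n + 5) * d + |Pool.POT64.Cch 2 Lm C| := by
    have h1 := hH.df_tup hL0.le hinv hbody (n + 1) id Function.injective_id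
    have h9 : (2 * (((n + 1 : ℕ) : ℝ) + 1) + 1) * d = (2 * n + 5) * d := by
      push_cast
      ring
    rw [h9] at h1
    rw [htq]
    have h5 := le_abs_self e₀
    have h6 := le_abs_self (Pool.POT64.Cch 2 Lm C)
    have h8 : DF (tup p L (n + 2)) (fun _ => Tx 2 X) (bw M b th A0) (fun w => xv X (Z (w 0)))
      (Pool.DIR21.dat Wd b th) ≤ e₀ + (2 * n + 5) * d + Pool.POT64.Cch 2 Lm C := h1
    linarith
  have hrLb : ∀ w, G w → |rL (L (w 0))| ≤ Sb := fun w hw => by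
    have h1 := hGQ w hw
    have n1 := hf (w 0) (hsup w (hGt w hw).1).1 h1.2.1
    rw [hrL]
    have h3 : 0 < |dr M b th A0 (f (L (w 0))) 0| := hθ.trans_le h1.2.2.1
    simp only
    rw [abs_div, div_le_iff₀ h3]
    exact h1.2.2.2
  have hkey := key hp htl him (t := t) Z (fun ω => (Wd ω, S ω)) (fun ω => kL (L ω)) ka
    (A := bw M b th A0) (Pool.DIR21.dat Wd b th) (bod_dt _) (by
      intro w w' x y e
      simp only [Pool.DIR21.dat, Prod.mk.injEq] at e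
      refine Prod.ext e.1 (hH.SY _ _ (him.pos ht0 x) (him.pos ht0 y) ?_)
      simp only [Prod.mk.injEq]
      exact ⟨e.1, e.2.2.1, e.2.1⟩) (fun w => hH.bod_det hA _ _) (by positivity)
    (fun w => hH.bod_inc hinv _ _) (by positivity) hdf (G := G) (E := E) (fun w hw => by
      rw [hE]
      exact (hGt w hw).2.2.2) hm0 hGm hθ (fun w hw => (hGQ w hw).1) (c1 := Kb + 1)
    (by positivity) (fun w hw a => by
      obtain ⟨a1, a2, a3, a4⟩ := hGt w hw
      obtain ⟨b1, b2⟩ := hGQ w hw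
      have n1 := hf (w 0) (hsup w a1).1 b2.1
      have c1 := rr_col a3 (hθ.trans_le n1) a
      have c2 : |wg (co (bw M b th A0 w) a) (dr M b th A0 (f (L (w 0))))| ≤ r / θ :=
        c1.trans (div_le_div_of_nonneg_left hr0.le hθ n1)
      have c3 := col_big hθ b2.2.1 c2
      have c4 : |bw M b th A0 w 1 a - rL (L (w 0)) * bw M b th A0 w 0 a| ≤ r / θ / θ := by
        rw [hrL]
        exact c3
      have c5 := kan (L (w 0)) (hrLb w hw)
      have c6 : |bw M b th A0 w 1 a - ka (kL (L (w 0))) * bw M b th A0 w 0 a| ≤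
          r / θ / θ + 1 / 2 ^ (X - t) * Kb := by
        have e1 : bw M b th A0 w 1 a - ka (kL (L (w 0))) * bw M b th A0 w 0 a =
            (bw M b th A0 w 1 a - rL (L (w 0)) * bw M b th A0 w 0 a) +
            (rL (L (w 0)) - ka (kL (L (w 0)))) * bw M b th A0 w 0 a := by ring
        rw [e1]
        refine (abs_add_le _ _).trans (add_le_add c4 ?_)
        rw [abs_mul]
        exact mul_le_mul c5 (hKb w 0 a) (abs_nonneg _) (by positivity)
      have hXt : (2 : ℝ) ^ X = 2 ^ (X - t) * 2 ^ t := by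
        rw [← pow_add, Nat.sub_add_cancel ht]
      have h2t : (0 : ℝ) < 2 ^ t := by positivity
      have c7 : 2 ^ (X - t) * (r / θ / θ) ≤ 1 := by
        have e1 : r / θ / θ = r / θ ^ 4 * (θ * θ) := by field_simp
        have e2 : r / θ ^ 4 * (θ * θ) ≤ r / θ ^ 4 * 1 :=
          mul_le_mul_of_nonneg_left (by nlinarith) hr4'
        rw [e1]
        have e3 := mul_le_mul_of_nonneg_left e2 hY0.le
        have e4 : 0 ≤ 2 ^ (X - t) * (r / θ ^ 4) := by positivity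
        linarith
      calc |bw M b th A0 w 1 a - ka (kL (L (w 0))) * bw M b th A0 w 0 a| * 2 ^ X
          ≤ (r / θ / θ + 1 / 2 ^ (X - t) * Kb) * 2 ^ X :=
            mul_le_mul_of_nonneg_right c6 (by positivity)
        _ = (2 ^ (X - t) * (r / θ / θ) + Kb) * 2 ^ t := by
            rw [hXt]
            field_simp
        _ ≤ (Kb + 1) * 2 ^ t := mul_le_mul_of_nonneg_right (by linarith) h2t.le)
    (fun w w' _ _ hw hw' e => by
      obtain ⟨a1, a2, a3, a4⟩ := hGt w hw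
      obtain ⟨b1, b2⟩ := hGQ w hw
      obtain ⟨a1', a2', a3', a4'⟩ := hGt w' hw'
      obtain ⟨b1', b2'⟩ := hGQ w' hw'
      have e1 : bw M b th A0 w = bw M b th A0 w' := by
        have e0 := e
        simp only [Pool.DIR21.dat, Prod.mk.injEq] at e0
        have e5 : (fun j : Fin (n + 2) => th (w j.succ)) = fun j => th (w' j.succ) := e0.2.2.2
        unfold bw
        rw [e0.2.1, e5]
      have c1 := (sl1 w a1 b1 b2 a3).2
      have c2 := (sl1 w' a1' b1' b2' a3').2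
      have e2 : rw' w = rw' w' := by
        rw [hrw]
        simp only [e1]
      rw [← e2] at c2
      have c3 : |rL (L (w 0)) - rL (L (w' 0))| ≤ 4 * (r / θ ^ 4) := by
        have h1 := abs_sub_le (rL (L (w 0))) (rw' w) (rL (L (w' 0)))
        rw [abs_sub_comm (rw' w)] at h1
        linarith
      have c4 := mul_le_mul_of_nonneg_left c3 hY0.le
      have c5 : |2 ^ (X - t) * rL (L (w 0)) - 2 ^ (X - t) * rL (L (w' 0))| ≤ 1 := by
        rw [← mul_sub, abs_mul, abs_of_pos hY0]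
        have : 0 ≤ 2 ^ (X - t) * (r / θ ^ 4) := by positivity
        linarith
      have f1 := Int.floor_le (2 ^ (X - t) * rL (L (w 0)) + s)
      have f2 := Int.lt_floor_add_one (2 ^ (X - t) * rL (L (w 0)) + s)
      have f3 := Int.floor_le (2 ^ (X - t) * rL (L (w' 0)) + s)
      have f4 := Int.lt_floor_add_one (2 ^ (X - t) * rL (L (w' 0)) + s)
      rw [hkL]
      rw [abs_le] at c5 ⊢
      simp only
      constructor <;> linarith [c5.1, c5.2])
    (Kb := Sb) hSb kab hb₁ hϖ₁ (fun B' h1 h2 h3 =>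
      hFI kL kP ka B' kab (fun ω _ hω => by
        have := h1 ω hω
        rw [hE] at this
        exact this) h2 h3) hC hR₂ hH.Z_b hrow hK
  linarith

end Pool.DIR16
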