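import Pool.Agent.H21.DIR.Vec
import Pool.Agent.H71.AVG.Law

/-!
# DIR: the upper digits of an integer vector which is full in a long body

`cell_wg`: vectors of one cell of the body differ by a vector which is almost parallel to the long
column. `cnt_low`: an integer vector which is full in a body whose long column is at least `κ`: its
digits above `2 ^ t` given the cell.
-/

set_option autoImplicit false

namespace Pool.DIR16

open Finset Real Matrix
open Pool.Agent.H49.Ent Pool.Agent.H32.Dense Pool.STK Pool.POT Pool.FAD Pool.SLO Pool.TQ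
open Pool.K2S (Pe)
open Pool.DIR21
open Pool.AVG71 (CH_pair_int)

/-- The difference of two vectors of one cell. -/
theorem cell_dif {A : Matrix (Fin 2) (Fin 2) ℝ} (hA : A.det ≠ 0) {x y : Fin 2 → ℝ}
    (h : cl A x = cl A y) : ∃ u : Fin 2 → ℝ, (∀ j, |u j| ≤ 1) ∧
      ∀ i, x i - y i = u 0 * A i 0 + u 1 * A i 1 := by
  refine ⟨A⁻¹ *ᵥ (x - y), fun j => ?_, fun i => ?_⟩
  · have h1 : ⌊(A⁻¹ *ᵥ x) j⌋ = ⌊(A⁻¹ *ᵥ y) j⌋ := congrFun h j
    rw [Matrix.mulVec_sub, Pi.sub_apply]
    exact (Int.abs_sub_lt_one_of_floor_eq_floor h1).le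
  · have h1 : A *ᵥ (A⁻¹ *ᵥ (x - y)) = x - y := by
      rw [Matrix.mulVec_mulVec, Matrix.mul_nonsing_inv _ (isUnit_iff_ne_zero.2 hA),
        Matrix.one_mulVec]
    have h2 := congrFun h1 i
    rw [Pi.sub_apply] at h2
    rw [← h2]
    simp only [Matrix.mulVec, dotProduct, Fin.sum_univ_two]
    ring

/-- The difference is almost parallel to the long column. -/
theorem cell_wg {A : Matrix (Fin 2) (Fin 2) ℝ} (hA : A.det ≠ 0) {x y : Fin 2 → ℝ}
    (h : cl A x = cl A y) (a : Fin 2) : |wg (co A a) (fun i => x i - y i)| ≤ |A.det| := by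
  obtain ⟨u, hu, hd⟩ := cell_dif hA h
  have e : (fun i => x i - y i) = fun i => u 0 * A i 0 + u 1 * A i 1 := funext hd
  rw [e, Matrix.det_fin_two]
  unfold wg co
  fin_cases a
  · have e1 : A 0 0 * (u 0 * A 1 0 + u 1 * A 1 1) - A 1 0 * (u 0 * A 0 0 + u 1 * A 0 1) =
        u 1 * (A 0 0 * A 1 1 - A 0 1 * A 1 0) := by ring
    simp only [Fin.zero_eta]
    rw [e1, abs_mul]
    exact mul_le_of_le_one_left (abs_nonneg _) (hu 1)
  · have e1 : A 0 1 * (u 0 * A 1 0 + u 1 * A 1 1) - A 1 1 * (u 0 * A 0 0 + u 1 * A 0 1) =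
        -(u 0 * (A 0 0 * A 1 1 - A 0 1 * A 1 0)) := by ring
    simp only [Fin.mk_one]
    rw [e1, abs_neg, abs_mul]
    exact mul_le_of_le_one_left (abs_nonneg _) (hu 0)

/-- The other coordinate of a vector one of whose coordinates is zero. -/
theorem wg_one {A : Matrix (Fin 2) (Fin 2) ℝ} {v : Fin 2 → ℝ} (hn : 0 < nb A)
    (h0 : v (lc A).1 = 0) {s : ℝ} (h : |wg (co A (lc A).2) v| ≤ s) :
    |v (1 - (lc A).1)| ≤ s / nb A := by
  rw [le_div_iff₀ hn]
  have e : |v (1 - (lc A).1)| * nb A = |wg (co A (lc A).2) v| := by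
    unfold nb wg co
    obtain ⟨i, hi⟩ : ∃ i, i = (lc A).1 := ⟨_, rfl⟩
    rw [← hi] at h0 ⊢
    fin_cases i
    · simp only [Fin.zero_eta, Fin.isValue, sub_zero] at h0 ⊢
      rw [h0, mul_zero, sub_zero, abs_mul, mul_comm]
    · simp only [Fin.mk_one, Fin.isValue, sub_self] at h0 ⊢
      rw [h0, mul_zero, zero_sub, abs_neg, abs_mul, mul_comm]
  rw [e]
  exact h

/-- The size of the short side. -/
theorem short_ge {A : Matrix (Fin 2) (Fin 2) ℝ} (hA : A.det ≠ 0) {c₀ : ℝ} {X : ℕ}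
    (hT : Inc c₀ (Tx 2 X) A) : nb A ≤ c₀ * (2 ^ X * |A.det|) := by
  have hX : (0 : ℝ) < 2 ^ X := by positivity
  have hd : 0 < |A.det| := abs_pos.2 hA
  -- the entries of the inverse
  have h1 : ∀ i j, |A⁻¹ i j| ≤ c₀ * 2 ^ X := by
    intro i j
    have h2 := (Finset.single_le_sum (f := fun j => |(A⁻¹ * Tx 2 X) i j|)
      (fun _ _ => abs_nonneg _) (Finset.mem_univ j)).trans (hT i)
    have h3 : (A⁻¹ * Tx 2 X) i j = A⁻¹ i j * ((2 : ℝ) ^ X)⁻¹ := by
      rw [Tx, Matrix.mul_diagonal]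
    rw [h3, abs_mul, abs_of_pos (inv_pos.2 hX), ← div_eq_mul_inv, div_le_iff₀ hX] at h2
    exact h2
  have h2 : ∀ i j, |A i j| ≤ c₀ * (2 ^ X * |A.det|) := by
    have e : A⁻¹ = A.det⁻¹ • !![A 1 1, -A 0 1; -A 1 0, A 0 0] := by
      rw [Matrix.inv_def, Matrix.adjugate_fin_two, Ring.inverse_eq_inv']
    have k : ∀ (i j : Fin 2) (x : ℝ), |A⁻¹ i j| = |A.det|⁻¹ * |x| → |x| ≤ c₀ * (2 ^ X * |A.det|) := by
      intro i j x hx
      have h3 := h1 i j
      rw [hx, inv_mul_le_iff₀ hd] at h3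
      linarith
    intro i j
    fin_cases i <;> fin_cases j
    · exact k 1 1 _ (by rw [e]; simp [abs_mul])
    · exact k 0 1 _ (by rw [e]; simp [abs_mul])
    · exact k 1 0 _ (by rw [e]; simp [abs_mul])
    · exact k 0 0 _ (by rw [e]; simp [abs_mul])
  exact h2 _ _

theorem ediv_same {a b : ℤ} {t : ℕ} (h : a / 2 ^ t = b / 2 ^ t) : |(a : ℝ) - b| ≤ 2 ^ t := by
  have p : (0 : ℤ) < 2 ^ t := by positivity
  have h1 := Int.mul_ediv_add_emod a (2 ^ t)
  have h2 := Int.mul_ediv_add_emod b (2 ^ t)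
  have h3 := Int.emod_nonneg a p.ne'
  have h4 := Int.emod_lt_of_pos a p
  have h5 := Int.emod_nonneg b p.ne'
  have h6 := Int.emod_lt_of_pos b p
  rw [h] at h1
  have h7 : a - b ≤ 2 ^ t := by linarith
  have h8 : -(2 ^ t) ≤ a - b := by linarith
  have h9 : ((a - b : ℤ) : ℝ) ≤ 2 ^ t := by exact_mod_cast h7
  have h10 : -(2 : ℝ) ^ t ≤ ((a - b : ℤ) : ℝ) := by exact_mod_cast h8
  rw [Int.cast_sub] at h9 h10
  exact abs_le.2 ⟨h10, h9⟩

/-- The constant. -/
noncomputable def Ca (c₀ : ℝ) : ℝ := Real.log 3 + Real.log (2 + c₀)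

variable {Γ ζ : Type} [Fintype Γ] {q : Γ → ℝ}

/-- **The upper digits of a vector which is full in a long body**, given the cell. -/
theorem cnt_low (hq : IsLaw q) {X t : ℕ} {A : Γ → Matrix (Fin 2) (Fin 2) ℝ}
    (n : Γ → Fin 2 → ℤ) (Y : Γ → ζ) (hdA : Det q Y A) (hA : ∀ w, (A w).det ≠ 0) {c₀ : ℝ}
    (hc : 0 < c₀) (hT : ∀ w, Inc c₀ (Tx 2 X) (A w)) {e : ℝ}
    (h1 : DF q (fun _ => Tx 2 X) A (fun w => xv X (n w)) Y ≤ e) {κ : ℝ} (hκ : 0 < κ)
    (hb : ∀ w, 0 < q w → κ ≤ nb (A w)) :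
    (X - t) * Real.log 2 + Real.log κ - e - Ca c₀ ≤
      CH q (fun w i => n w i / 2 ^ t) (fun w => (cl (A w) (xv X (n w)), Y w)) := by
  classical
  have h0 := hq.nonneg
  have hX : (0 : ℝ) < 2 ^ X := by positivity
  have ht : (1 : ℝ) ≤ 2 ^ t := one_le_pow₀ (by norm_num)
  obtain ⟨N1, hN1⟩ : ∃ N1 : Γ → ℤ, N1 = fun w => n w (lc (A w)).1 := ⟨_, rfl⟩
  obtain ⟨N2, hN2⟩ : ∃ N2 : Γ → ℤ, N2 = fun w => n w (1 - (lc (A w)).1) := ⟨_, rfl⟩
  obtain ⟨nt, hnt⟩ : ∃ nt : Γ → Fin 2 → ℤ, nt = fun w i => n w i / 2 ^ t := ⟨_, rfl⟩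
  obtain ⟨c, hcl⟩ : ∃ c : Γ → Fin 2 → ℤ, c = fun w => cl (A w) (xv X (n w)) := ⟨_, rfl⟩
  rw [DF_xv] at h1
  -- the vector given the upper digits
  have k1 : CH q n (fun w => (c w, Y w)) ≤ CH q nt (fun w => (c w, Y w)) +
      CH q n (fun w => (nt w, (c w, Y w))) := CH_le_add h0 _ _ _
  have k2 : CH q n (fun w => (nt w, (c w, Y w))) ≤ CH q (fun w => (N2 w, N1 w))
      (fun w => (nt w, (c w, Y w))) := by
    refine CH_mono_left h0 fun w w' a b e => ?_
    simp only [Prod.mk.injEq] at e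
    have e1 : A w = A w' := hdA w w' a b e.2.2.2
    have e2 : N2 w = N2 w' := e.1.1
    have e3 : N1 w = N1 w' := e.1.2
    rw [hN1] at e3
    rw [hN2] at e2
    simp only [e1] at e2 e3
    funext i
    obtain ⟨j, hj⟩ : ∃ j, j = (lc (A w')).1 := ⟨_, rfl⟩
    rw [← hj] at e2 e3
    fin_cases j <;> fin_cases i
    · exact e3
    · simpa using e2
    · simpa using e2
    · exact e3
  have k3 := CH_chain h0 N2 N1 (fun w => (nt w, (c w, Y w)))
  -- the first coordinate
  have k4 : CH q N1 (fun w => (nt w, (c w, Y w))) ≤ Real.log (2 * 2 ^ t + 1) := by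
    refine CH_pair_int hq _ _ (by positivity) fun w w' a b e => ?_
    simp only [Prod.mk.injEq] at e
    have e1 : A w = A w' := hdA w w' a b e.2.2
    have e2 := congrFun e.1 (lc (A w')).1
    rw [hnt] at e2
    rw [hN1]
    simp only [e1]
    exact ediv_same e2
  -- the second coordinate
  obtain ⟨s, hs⟩ : ∃ s : Γ → ℝ, s = fun w => 2 ^ X * |(A w).det| / nb (A w) := ⟨_, rfl⟩
  have k5 : CH q N2 (fun w => (N1 w, (nt w, (c w, Y w)))) ≤
      Ex q (fun w => Real.log (2 * s w + 1)) := by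
    have h2 := CH_le_vec (d := 1) h0 hq.sum_one (fun w _ => N2 w)
      (fun w => (N1 w, (nt w, (c w, Y w)))) s (fun w w' a b e i => by
        simp only [Prod.mk.injEq] at e
        have e1 : A w = A w' := hdA w w' a b e.2.2.2
        have e2 : N1 w = N1 w' := e.1
        have e3 : c w = c w' := e.2.2.1
        rw [hcl] at e3
        rw [hN1] at e2
        have e3' : cl (A w) (xv X (n w)) = cl (A w) (xv X (n w')) := by
          have : cl (A w) (xv X (n w)) = cl (A w') (xv X (n w')) := e3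
          rwa [← e1] at this
        have e2' : n w (lc (A w)).1 = n w' (lc (A w)).1 := by
          have : n w (lc (A w)).1 = n w' (lc (A w')).1 := e2
          rwa [← e1] at this
        have g1 := cell_wg (hA w) e3' (lc (A w)).2
        have hn : 0 < nb (A w) := lt_of_lt_of_le hκ (hb w a)
        have g2 := wg_one (v := fun i => xv X (n w) i - xv X (n w') i) hn
          (by simp only [xv]; rw [e2', sub_self]) g1
        have g3 : ((N2 w - N2 w' : ℤ) : ℝ) = 2 ^ X *
            (xv X (n w) (1 - (lc (A w)).1) - xv X (n w') (1 - (lc (A w)).1)) := by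
          rw [hN2]
          simp only [← e1, xv]
          push_cast
          field_simp
        rw [g3, abs_mul, abs_of_pos hX, hs]
        have := mul_le_mul_of_nonneg_left g2 hX.le
        refine this.trans (le_of_eq ?_)
        simp only
        ring)
    rw [Nat.cast_one, one_mul] at h2
    refine le_trans (CH_mono_left h0 fun w w' a b e => ?_) h2
    exact congrFun (Prod.ext_iff.mp e).1 0
  -- the sizes
  have k6 : Ex q (fun w => Real.log (2 * s w + 1)) ≤ Ex q (fun w => lv (A w) - lv (Tx 2 X)) -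
      X * Real.log 2 - Real.log κ + Real.log (2 + c₀) := by
    have e1 : Ex q (fun w => lv (A w) - lv (Tx 2 X)) - X * Real.log 2 - Real.log κ +
        Real.log (2 + c₀) = Ex q (fun w => lv (A w) - lv (Tx 2 X) + (Real.log (2 + c₀) -
          X * Real.log 2 - Real.log κ)) := by
      rw [Ex_add, Ex_const hq.sum_one]
      ring
    rw [e1]
    refine Ex_mono h0 fun w hw => ?_
    have hn : 0 < nb (A w) := lt_of_lt_of_le hκ (hb w hw)
    have hd : 0 < |(A w).det| := abs_pos.2 (hA w)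
    have hs0 : 0 < s w := by rw [hs]; positivity
    have g1 : 1 ≤ c₀ * s w := by
      rw [hs]
      simp only
      rw [← mul_div_assoc, le_div_iff₀ hn, one_mul]
      exact short_ge (hA w) (hT w)
    have g2 : 2 * s w + 1 ≤ (2 + c₀) * s w := by linarith
    have g3 : Real.log (2 * s w + 1) ≤ Real.log (2 + c₀) + Real.log (s w) := by
      rw [← Real.log_mul (by positivity) hs0.ne']
      exact Real.log_le_log (by positivity) g2
    have g4 : Real.log (s w) = X * Real.log 2 + lv (A w) - Real.log (nb (A w)) := by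
      rw [hs]
      simp only
      rw [Real.log_div (by positivity) hn.ne', Real.log_mul hX.ne' hd.ne', Real.log_pow]
      rfl
    have g5 : Real.log κ ≤ Real.log (nb (A w)) := Real.log_le_log hκ (hb w hw)
    rw [lv_Tx]
    push_cast
    linarith
  have k7 : Real.log (2 * 2 ^ t + 1) ≤ t * Real.log 2 + Real.log 3 := by
    have h2 : Real.log (3 * 2 ^ t) = Real.log 3 + t * Real.log 2 := by
      rw [Real.log_mul (by norm_num) (by positivity), Real.log_pow]
    have h3 : Real.log (2 * 2 ^ t + 1) ≤ Real.log (3 * 2 ^ t) :=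
      Real.log_le_log (by positivity) (by linarith)
    linarith
  have e0 : CH q n (fun w => (c w, Y w)) = CH q n (fun w => (cl (A w) (xv X (n w)), Y w)) := by
    rw [hcl]
  have e9 : CH q nt (fun w => (c w, Y w)) =
      CH q (fun w i => n w i / 2 ^ t) (fun w => (cl (A w) (xv X (n w)), Y w)) := by
    rw [hcl, hnt]
  rw [e0, e9] at k1
  unfold Ca
  linarith

end Pool.DIR16
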