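import Pool.Agent.H16.DIR.Sel
import Pool.Agent.H16.DIR.Cnt

/-!
# DIR: fullness for the small slopes

`fih_small`: if the blocks of the digits of `Z 1` are full given the code and the upper digits of both
coordinates, the digits of `Z 1 - ka Z 0` are full for the closed slopes `ka` which are so small that
`ka Z 0` is known one block ahead.
-/

set_option autoImplicit false

namespace Pool.DIR16

open Finset Real
open Pool.Agent.H49.Ent Pool.Agent.H32.Dense Pool.STK
open Pool.K2S (Pe)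
open Pool.AVG71 (CH_pair_int)

theorem floor_near {x y D : ℝ} (h : |x - y| ≤ D) : |((⌊x⌋ : ℤ) : ℝ) - ⌊y⌋| ≤ D + 1 := by
  have a1 := Int.floor_le x
  have a2 := Int.lt_floor_add_one x
  have a3 := Int.floor_le y
  have a4 := Int.lt_floor_add_one y
  rw [abs_le] at h ⊢
  constructor <;> linarith [h.1, h.2]

theorem floor_div_pow (x : ℝ) {n n' : ℕ} (h : n' ≤ n) :
    ⌊x / 2 ^ n⌋ = ⌊x / 2 ^ n'⌋ / 2 ^ (n - n') := by
  have e1 : x / 2 ^ n = x / 2 ^ n' / ((2 ^ (n - n') : ℕ) : ℝ) := by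
    rw [div_div]
    congr 1
    push_cast
    rw [← pow_add]
    congr 1
    omega
  rw [e1, Int.floor_div_natCast]
  push_cast
  rfl

/-- **Fullness for the small slopes.** -/
theorem fih_small {Ω Λ α σ' : Type} [Fintype Ω] {p : Ω → ℝ} (hp : IsLaw p) {L : Ω → Λ}
    {WS : Ω → α} {Z : Ω → Fin 2 → ℤ} {Bs : Ω → σ'} {X t ks N : ℕ} {Kb b₀ ϖ₂ : ℝ}
    (hN : t + N * ks ≤ X) (hKb0 : 0 ≤ Kb) (hKb : Kb * 2 ^ ks ≤ 1)
    (hFU : ∀ (kL : Λ → ℤ) (kP : (Fin 2 → ℤ) × σ' → ℤ) (B : Ω → Prop),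
      (∀ ω, 0 < p ω → B ω → kL (L ω) = kP (Z ω, Bs ω)) → ϖ₂ ≤ Pe p B → 0 < Pe p B →
      ∀ i < N, b₀ ≤ CH (cond p B True) (fun ω => Z ω 1 / 2 ^ (X - (i + 1) * ks))
        (fun ω => (kL (L ω), (WS ω, fun l => Z ω l / 2 ^ (X - i * ks))))) :
    FIh p L WS Z Bs t Kb (N * (b₀ - Real.log 49)) ϖ₂ := by
  intro kL kP ka B hka hkk hB hB0
  have hql : IsLaw (cond p B True) := Pool.TQ.cond_law hp.nonneg hB0
  have h0 := hql.nonneg
  obtain ⟨q, hq⟩ : ∃ q, q = cond p B True := ⟨_, rfl⟩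
  have hfu := hFU kL kP B hkk hB hB0
  rw [← hq] at hql h0 hfu ⊢
  have hks1 : (1 : ℝ) ≤ 2 ^ ks := one_le_pow₀ (by norm_num)
  have hKb1 : Kb ≤ 1 := by
    have := mul_le_mul_of_nonneg_left hks1 hKb0
    linarith
  obtain ⟨W, hW⟩ : ∃ W : Ω → ℤ × α, W = fun ω => (kL (L ω), WS ω) := ⟨_, rfl⟩
  obtain ⟨A, hA⟩ : ∃ A : ℕ → Ω → ℤ, A = fun i ω =>
    ⌊((Z ω 1 : ℝ) - ka (kL (L ω)) * Z ω 0) / 2 ^ (X - i * ks)⌋ := ⟨_, rfl⟩
  obtain ⟨U, hU⟩ : ∃ U : ℕ → Ω → Fin 2 → ℤ, U = fun i ω l => Z ω l / 2 ^ (X - i * ks) :=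
    ⟨_, rfl⟩
  have hcut : ∀ i, i < N → X - i * ks = X - (i + 1) * ks + ks := by
    intro i hi
    have h1 : (i + 1) * ks ≤ N * ks := Nat.mul_le_mul_right _ hi
    have h2 : (i + 1) * ks = i * ks + ks := by ring
    omega
  have hnear : ∀ i, ∀ ω ω', U i ω = U i ω' → ∀ l, |(Z ω l : ℝ) - Z ω' l| ≤
      2 ^ (X - i * ks) := by
    intro i ω ω' e l
    rw [hU] at e
    exact ediv_same (congrFun e l)
  have hdet : ∀ i, i < N → ∀ ω, A i ω =
      A (i + 1) ω / 2 ^ (X - i * ks - (X - (i + 1) * ks)) := by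
    intro i hi ω
    have hc := hcut i hi
    rw [hA]
    exact floor_div_pow _ (by omega)
  have hdetN : ∀ ω, A N ω = ⌊((Z ω 1 : ℝ) - ka (kL (L ω)) * Z ω 0) / 2 ^ t⌋ /
      2 ^ (X - N * ks - t) := by
    intro ω
    rw [hA]
    exact floor_div_pow _ (by omega)
  -- the steps
  have step : ∀ i, i < N → CH q (A i) W + (b₀ - Real.log 49) ≤ CH q (A (i + 1)) W := by
    intro i hi
    have hc := hcut i hi
    -- the chain
    have h1 : CH q (fun ω => (A (i + 1) ω, A i ω)) W ≤ CH q (A (i + 1)) W := by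
      refine CH_mono_left h0 fun ω ω' _ _ e => ?_
      obtain ⟨e1, -⟩ := Prod.ext_iff.mp e
      have e3 : A (i + 1) ω = A (i + 1) ω' := e1
      refine Prod.ext e3 ?_
      show A i ω = A i ω'
      rw [hdet i hi ω, hdet i hi ω', e3]
    have h2 := CH_chain h0 (A (i + 1)) (A i) W
    have h3 : CH q (A (i + 1)) (fun ω => (A i ω, (U i ω, W ω))) ≤
        CH q (A (i + 1)) (fun ω => (A i ω, W ω)) := by
      refine CH_mono_cond h0 fun ω ω' _ _ e => ?_
      obtain ⟨e1, e2⟩ := Prod.ext_iff.mp e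
      exact Prod.ext e1 (Prod.ext_iff.mp e2).2
    -- the digits of the coordinate
    have h4 : b₀ ≤ CH q (fun ω => U (i + 1) ω 1) (fun ω => (U i ω, W ω)) := by
      refine (hfu i hi).trans (CH_congr h0 ?_ ?_ ?_ ?_).le
      · intro ω ω' _ _ e
        have := (Prod.ext_iff.mp e).1
        rw [hU]
        exact this
      · intro ω ω' _ _ e
        have := (Prod.ext_iff.mp e).1
        rw [hU] at this
        exact this
      · intro ω ω' _ _ e
        obtain ⟨e1, e2⟩ := Prod.ext_iff.mp e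
        obtain ⟨e3, e4⟩ := Prod.ext_iff.mp e2
        rw [hU, hW]
        exact Prod.ext e4 (Prod.ext e1 e3)
      · intro ω ω' _ _ e
        obtain ⟨e1, e2⟩ := Prod.ext_iff.mp e
        rw [hU] at e1
        rw [hW] at e2
        obtain ⟨e3, e4⟩ := Prod.ext_iff.mp e2
        exact Prod.ext e3 (Prod.ext e4 e1)
    have h5 := CH_le_add h0 (fun ω => U (i + 1) ω 1) (A i) (fun ω => (U i ω, W ω))
    have h6 := CH_le_add h0 (fun ω => U (i + 1) ω 1) (A (i + 1))
      (fun ω => (A i ω, (U i ω, W ω)))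
    have h7 : CH q (A i) (fun ω => (U i ω, W ω)) ≤ Real.log 7 := by
      have k := CH_pair_int hql (A i) (fun ω => (U i ω, W ω)) (D := 3) (by norm_num)
        (fun ω ω' _ _ e => by
          obtain ⟨e1, e2⟩ := Prod.ext_iff.mp e
          rw [hW] at e2
          have e3 : kL (L ω) = kL (L ω') := (Prod.ext_iff.mp e2).1
          have g0 := hnear i ω ω' e1 0
          have g1 := hnear i ω ω' e1 1
          have hn0 : (0 : ℝ) < 2 ^ (X - i * ks) := by positivity
          have g2 : |((Z ω 1 : ℝ) - ka (kL (L ω)) * Z ω 0) / 2 ^ (X - i * ks) -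
              ((Z ω' 1 : ℝ) - ka (kL (L ω')) * Z ω' 0) / 2 ^ (X - i * ks)| ≤ 2 := by
            rw [← sub_div, abs_div, abs_of_pos hn0, div_le_iff₀ hn0, ← e3]
            have e4 : (Z ω 1 : ℝ) - ka (kL (L ω)) * Z ω 0 -
                ((Z ω' 1 : ℝ) - ka (kL (L ω)) * Z ω' 0) =
                ((Z ω 1 : ℝ) - Z ω' 1) - ka (kL (L ω)) * ((Z ω 0 : ℝ) - Z ω' 0) := by ring
            rw [e4]
            refine (abs_sub _ _).trans ?_
            rw [abs_mul]
            have g3 := mul_le_mul ((hka (kL (L ω))).trans hKb1) g0 (abs_nonneg _) zero_le_one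
            linarith
          have g4 := floor_near g2
          rw [hA]
          simp only
          linarith)
      refine k.trans (le_of_eq ?_)
      norm_num
    have h8 : CH q (fun ω => U (i + 1) ω 1) (fun ω => (A (i + 1) ω, (A i ω, (U i ω, W ω)))) ≤
        Real.log 7 := by
      have k := CH_pair_int hql (fun ω => U (i + 1) ω 1)
        (fun ω => (A (i + 1) ω, (A i ω, (U i ω, W ω)))) (D := 3) (by norm_num)
        (fun ω ω' _ _ e => by
          obtain ⟨e0, e'⟩ := Prod.ext_iff.mp e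
          obtain ⟨-, e''⟩ := Prod.ext_iff.mp e'
          obtain ⟨e1, e2⟩ := Prod.ext_iff.mp e''
          rw [hW] at e2
          have e3 : kL (L ω) = kL (L ω') := (Prod.ext_iff.mp e2).1
          have g0 := hnear i ω ω' e1 0
          have hn0 : (0 : ℝ) < 2 ^ (X - (i + 1) * ks) := by positivity
          have g2 : |((Z ω 1 : ℝ) - ka (kL (L ω)) * Z ω 0) / 2 ^ (X - (i + 1) * ks) -
              ((Z ω' 1 : ℝ) - ka (kL (L ω')) * Z ω' 0) / 2 ^ (X - (i + 1) * ks)| ≤ 1 := by
            rw [hA] at e0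
            exact (Int.abs_sub_lt_one_of_floor_eq_floor e0).le
          have g5 : |(Z ω 1 : ℝ) / 2 ^ (X - (i + 1) * ks) -
              (Z ω' 1 : ℝ) / 2 ^ (X - (i + 1) * ks)| ≤ 2 := by
            rw [← e3] at g2
            have e4 : (Z ω 1 : ℝ) / 2 ^ (X - (i + 1) * ks) -
                (Z ω' 1 : ℝ) / 2 ^ (X - (i + 1) * ks) =
                (((Z ω 1 : ℝ) - ka (kL (L ω)) * Z ω 0) / 2 ^ (X - (i + 1) * ks) -
                ((Z ω' 1 : ℝ) - ka (kL (L ω)) * Z ω' 0) / 2 ^ (X - (i + 1) * ks)) +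
                ka (kL (L ω)) * ((Z ω 0 : ℝ) - Z ω' 0) / 2 ^ (X - (i + 1) * ks) := by ring
            rw [e4]
            refine (abs_add_le _ _).trans ?_
            have g6 : |ka (kL (L ω)) * ((Z ω 0 : ℝ) - Z ω' 0) / 2 ^ (X - (i + 1) * ks)| ≤ 1 := by
              rw [abs_div, abs_of_pos hn0, div_le_iff₀ hn0, abs_mul, one_mul]
              rw [hc, pow_add] at g0
              have g7 := mul_le_mul (hka (kL (L ω))) g0 (abs_nonneg _) hKb0
              have g8 := mul_le_mul_of_nonneg_right hKb hn0.le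
              linarith
            linarith
          have g9 := floor_near g5
          have g10 : ∀ ν, U (i + 1) ν 1 = ⌊(Z ν 1 : ℝ) / 2 ^ (X - (i + 1) * ks)⌋ := by
            intro ν
            rw [hU]
            have := Int.floor_div_natCast (Z ν 1 : ℝ) (2 ^ (X - (i + 1) * ks))
            push_cast at this
            rw [this, Int.floor_intCast]
          show |((U (i + 1) ω 1 : ℤ) : ℝ) - U (i + 1) ω' 1| ≤ 3
          rw [g10, g10]
          linarith)
      refine k.trans (le_of_eq ?_)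
      norm_num
    have h9 : Real.log 49 = Real.log 7 + Real.log 7 := by
      rw [← Real.log_mul (by norm_num) (by norm_num)]
      norm_num
    linarith
  have hind : ∀ i, i ≤ N → i * (b₀ - Real.log 49) ≤ CH q (A i) W := by
    intro i
    induction i with
    | zero =>
      intro _
      rw [Nat.cast_zero, zero_mul]
      exact CH_nonneg h0 _ _
    | succ i ih =>
      intro hi
      have h1 := ih (by omega)
      have h2 := step i (by omega)
      push_cast
      linarith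
  have h2 := hind N le_rfl
  obtain ⟨A', hA'⟩ : ∃ A' : Ω → ℤ, A' = fun ω =>
    ⌊((Z ω 1 : ℝ) - ka (kL (L ω)) * Z ω 0) / 2 ^ t⌋ := ⟨_, rfl⟩
  have h1 : CH q (A N) W ≤ CH q A' W := by
    refine CH_mono_left h0 fun ω ω' _ _ e => ?_
    have e1 : A' ω = A' ω' := (Prod.ext_iff.mp e).1
    rw [hA'] at e1
    simp only at e1
    rw [hdetN ω, hdetN ω', e1]
  rw [hA', hW] at h1
  rw [hW] at h2
  exact h2.trans h1

end Pool.DIR16
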