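import Pool.Agent.H16.DIR.Cnt
import Pool.Agent.H21.DIR.Cor

/-!
# DIR: the inequality on one event

`low_ev`: lower bounds of conditional entropies on the events in `E` pass to the laws of bounded
density on `E`. `key`: if the digits of `Z 1 - ka Z 0` are full and the vector is full in long bodies
which are almost orthogonal to `(- ka, 1)`, then the vector itself is almost full; against a row.
-/

set_option autoImplicit false

namespace Pool.DIR16

open Finset Real Matrix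
open Pool.Agent.H49.Ent Pool.Agent.H32.Dense Pool.STK Pool.POT Pool.FAD Pool.SLO Pool.TQ
open Pool.K2S (Pe)
open Pool.DIR21
open Pool.AVG71 (CH_pair_int)

section cc

variable {Ω S T : Type} [Fintype Ω] {p r : Ω → ℝ}

theorem ci_and (P Q : Prop) : ci (P ∧ Q) = ci P * ci Q := by
  by_cases hP : P
  · by_cases hQ : Q
    · rw [ci1 hP, ci1 hQ, ci1 ⟨hP, hQ⟩, one_mul]
    · rw [ci0 hQ, ci0 (fun h => hQ h.2), mul_zero]
  · rw [ci0 hP, ci0 (fun h => hP h.1), zero_mul]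

theorem Pe_cc {E B : Ω → Prop} (hE : 0 < Pe p E) :
    Pe p (fun ω => E ω ∧ B ω) = Pe p E * Pe (cond p E True) B := by
  rw [Pe_ci (cond p E True) B, Pe_ci p (fun ω => E ω ∧ B ω), Finset.mul_sum]
  refine Finset.sum_congr rfl fun ω _ => ?_
  rw [cond_ci, ci_and]
  field_simp

theorem cond_cc {E B : Ω → Prop} (hE : 0 < Pe p E) :
    cond (cond p E True) B True = cond p (fun ω => E ω ∧ B ω) True := by
  funext ω
  rw [cond_ci, cond_ci, cond_ci, Pe_cc hE, ci_and]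
  rw [div_mul_eq_mul_div, div_div, mul_assoc]

theorem Pe_le_one (hp : IsLaw p) (E : Ω → Prop) : Pe p E ≤ 1 := by
  have h1 := law_ev hp E
  have h2 := law_nonneg hp.nonneg E False
  have h3 : Pe p E = law p E True := rfl
  linarith

/-- **Lower bounds on the events in `E`.** -/
theorem low_ev (hp : IsLaw p) (hr : IsLaw r) {E : Ω → Prop} {F m₀ b : ℝ} (hF0 : 0 < F)
    (hF : ∀ ω, r ω ≤ F * p ω) (hE : ∀ ω, 0 < r ω → E ω) (hm : 0 ≤ m₀) (hb : 0 ≤ b) (X : Ω → S)
    (W : Ω → T)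
    (h : ∀ B : Ω → Prop, (∀ ω, B ω → E ω) → m₀ * (1 / F) ≤ Pe p B → 0 < Pe p B →
      b ≤ CH (cond p B True) X W) :
    (1 - F * m₀) * b ≤ CH r X W := by
  have hPE : 1 / F ≤ Pe p E := by
    rw [div_le_iff₀ hF0, Pe_ci, Finset.sum_mul, ← hr.sum_one]
    refine Finset.sum_le_sum fun ω _ => ?_
    rcases (hr.nonneg ω).eq_or_lt with h1 | h1
    · rw [← h1]
      exact mul_nonneg (mul_nonneg (hp.nonneg ω) (ci_nonneg _)) hF0.le
    · rw [ci1 (hE ω h1), mul_one, mul_comm]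
      exact hF ω
  have hPE0 : 0 < Pe p E := lt_of_lt_of_le (by positivity) hPE
  have hc := cond_law hp.nonneg hPE0
  refine dens_low hc hr hF0 (fun ω => ?_) hm hb X W fun B h1 h2 => ?_
  · rcases (hr.nonneg ω).eq_or_lt with h1 | h1
    · rw [← h1]
      exact mul_nonneg hF0.le (hc.nonneg ω)
    · refine (hF ω).trans (mul_le_mul_of_nonneg_left ?_ hF0.le)
      rw [cond_ci, ci1 (hE ω h1), mul_one, le_div_iff₀ hPE0]
      exact mul_le_of_le_one_right (hp.nonneg ω) (Pe_le_one hp E)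
  · rw [cond_cc hPE0]
    have e := Pe_cc (p := p) (B := B) hPE0
    refine h (fun ω => E ω ∧ B ω) (fun ω h => h.1) ?_ ?_
    · rw [e, mul_comm m₀]
      exact mul_le_mul hPE h1 hm hPE0.le
    · rw [e]
      exact mul_pos hPE0 h2

end cc

variable {Ω Γ ζ σ : Type} [Fintype Ω] [Fintype Γ] {p : Ω → ℝ} {τ : Γ → ℝ} {f : Γ → Ω}

/-- **The inequality on one event.** -/
theorem key (hp : IsLaw p) (hτ : IsLaw τ) (him : Im τ p f) {X t : ℕ} (Z : Ω → Fin 2 → ℤ)
    (WS : Ω → σ) (kL : Ω → ℤ) (ka : ℤ → ℝ) {A : Γ → Matrix (Fin 2) (Fin 2) ℝ} (Y : Γ → ζ)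
    (hdA : Det τ Y A) (hdS : Det τ Y (fun w => WS (f w))) (hA : ∀ w, (A w).det ≠ 0) {c₀ : ℝ}
    (hc : 0 < c₀) (hT : ∀ w, Inc c₀ (Tx 2 X) (A w)) {e : ℝ} (he : 0 ≤ e)
    (h1 : DF τ (fun _ => Tx 2 X) A (fun w => xv X (Z (f w))) Y ≤ e)
    {G : Γ → Prop} {E : Ω → Prop} (hGE : ∀ w, G w → E (f w)) {m : ℝ} (hm : 0 < m)
    (hG : m ≤ Pe τ G) {κ : ℝ} (hκ : 0 < κ) (hb : ∀ w, G w → κ ≤ nb (A w)) {c1 : ℝ} (hc1 : 0 ≤ c1)
    (hcol : ∀ w, G w → ∀ a, |A w 1 a - ka (kL (f w)) * A w 0 a| * 2 ^ X ≤ c1 * 2 ^ t)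
    (hk : ∀ w w', 0 < τ w → 0 < τ w' → G w → G w' → Y w = Y w' →
      |(kL (f w) : ℝ) - kL (f w')| ≤ 4) {Kb : ℝ} (hKb : 0 ≤ Kb) (hka : ∀ k, |ka k| ≤ Kb)
    {b₁ ϖ₁ : ℝ} (hb₁ : 0 ≤ b₁) (hϖ₁ : 0 ≤ ϖ₁)
    (hFI : ∀ B : Ω → Prop, (∀ ω, B ω → E ω) → ϖ₁ * m ≤ Pe p B → 0 < Pe p B →
      b₁ ≤ CH (cond p B True) (fun ω => ⌊((Z ω 1 : ℝ) - ka (kL ω) * Z ω 0) / 2 ^ t⌋)
        (fun ω => (kL ω, WS ω)))
    {C R : ℝ} (hC : 0 ≤ C) (hR : 0 ≤ R) (hZ : ∀ ω i, |(Z ω i : ℝ)| ≤ C * 2 ^ X)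
    (hrow : ∀ B : Ω → Prop, ϖ₁ ≤ Pe p B → 0 < Pe p B →
      CH (cond p B True) (fun ω i => Z ω i / 2 ^ t) WS ≤ R) {K : ℕ} (hK : 0 < K) :
    (1 - ϖ₁ / m) * b₁ + ((X - t) * Real.log 2 + Real.log κ) ≤
      R + (1 / m / K + 1 / m * ϖ₁) * (2 * Real.log (4 * (C * 2 ^ X) + 1)) + Real.log (K + 1) +
      (e + Real.log 2 + |Cc 2 c₀|) / m + Ca c₀ + Real.log 9 + Real.log (2 * (2 * c1 + 1) + 1) +
      Real.log (2 * (Kb + 2) + 1) := by
  classical
  have hG0 : 0 < Pe τ G := hm.trans_le hG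
  have ht0 := hτ.nonneg
  obtain ⟨q, hq⟩ : ∃ q, q = cond τ G True := ⟨_, rfl⟩
  have hql : IsLaw q := by rw [hq]; exact cond_law ht0 hG0
  have h0 := hql.nonneg
  have hqt : ∀ w, 0 < q w → 0 < τ w ∧ G w := fun w hw => by
    rw [hq] at hw
    have := (cond_pos_iff ht0 G True w).1 hw
    exact ⟨this.1, of_eq_true this.2⟩
  have hden : ∀ w, q w ≤ 1 / m * τ w := fun w => by
    rw [hq]
    exact (cond_le ht0 w).trans (mul_le_mul_of_nonneg_right
      (one_div_le_one_div_of_le hm hG) (ht0 w))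
  have hF0 : 0 < 1 / m := by positivity
  obtain ⟨Zt, hZt⟩ : ∃ Zt : Ω → Fin 2 → ℤ, Zt = fun ω i => Z ω i / 2 ^ t := ⟨_, rfl⟩
  obtain ⟨Wp, hWp⟩ : ∃ Wp : Ω → ℤ, Wp = fun ω => ⌊((Z ω 1 : ℝ) - ka (kL ω) * Z ω 0) / 2 ^ t⌋ :=
    ⟨_, rfl⟩
  have h2t : (0 : ℝ) < 2 ^ t := by positivity
  have h2X : (0 : ℝ) < 2 ^ X := by positivity
  -- the row
  have r1 : CH q (fun w => Zt (f w)) (fun w => WS (f w)) ≤
      R + (1 / m / K + 1 / m * ϖ₁) * (2 * Real.log (4 * (C * 2 ^ X) + 1)) + Real.log (K + 1) := by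
    have hGn : 0 ≤ 2 * Real.log (4 * (C * 2 ^ X) + 1) := by
      have : 0 ≤ Real.log (4 * (C * 2 ^ X) + 1) := Real.log_nonneg (by
        have : (0 : ℝ) ≤ C * 2 ^ X := by positivity
        linarith)
      positivity
    refine up_up him hp hql hF0 hden hϖ₁ hR hGn Zt WS (fun B h2 h3 => ?_) (fun q' hq' _ => ?_) hK
    · rw [hZt]
      exact hrow B h2 h3
    · have k1 := CH_cnt hq' Z WS (fun ω _ i => hZ ω i)
      push_cast at k1
      refine le_trans (CH_mono_left hq'.nonneg fun ω ω' _ _ h => ?_) k1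
      have e1 : Z ω = Z ω' := (Prod.ext_iff.mp h).1
      rw [hZt]
      simp only [e1]
  -- the first digit
  have r2 : (1 - ϖ₁ / m) * b₁ ≤ CH q (fun w => Wp (f w)) (fun w => (kL (f w), WS (f w))) := by
    have e1 := (im_mg q f).CH Wp (fun ω => (kL ω, WS ω))
    rw [e1]
    have k1 := low_ev hp (mg_law hql f) (E := E) (F := 1 / m) (m₀ := ϖ₁) (b := b₁) hF0
      (mg_le him hden) (fun ω hω => by
        unfold mg at hω
        obtain ⟨w, -, hw⟩ : ∃ w ∈ (Finset.univ : Finset Γ), 0 < (if f w = ω then q w else 0) := by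
          by_contra hcon
          push Not at hcon
          exact absurd (Finset.sum_nonpos hcon) (not_le.2 hω)
        split_ifs at hw with h3
        · rw [← h3]
          exact hGE w (hqt w hw).2
        · exact absurd hw (lt_irrefl _)) hϖ₁ hb₁ Wp (fun ω => (kL ω, WS ω)) (fun B h2 h3 h4 => by
        rw [hWp]
        refine hFI B h2 ?_ h4
        rwa [one_div_one_div] at h3)
    have e2 : 1 / m * ϖ₁ = ϖ₁ / m := by ring
    rwa [e2] at k1
  -- the body
  obtain ⟨Y', hY'⟩ : ∃ Y' : Γ → Prop × ζ, Y' = fun w => (G w, Y w) := ⟨_, rfl⟩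
  have d1 : DF q (fun _ => Tx 2 X) A (fun w => xv X (Z (f w))) Y' ≤
      (e + Real.log 2 + |Cc 2 c₀|) / m := by
    have k1 := DF_more ht0 X (A := A) (n := fun w => Z (f w)) (Z := Y) G hdA
    have k2 : MI τ (fun w => Z (f w)) G Y ≤ Real.log 2 := by
      rw [MI_symm ht0]
      exact (MI_le_CH ht0 _ _ _).trans (CH_evl hτ G Y)
    have k3 := DF_ev hτ (G := G) (T := fun _ => Tx 2 X) (V := A) (fun w => xv X (Z (f w)))
      (fun w => (G w, Y w)) (fun _ _ _ _ h => (Prod.ext_iff.mp h).1) (fun _ _ _ _ _ => rfl)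
      (fun w w' a b h => hdA w w' a b (Prod.ext_iff.mp h).2) (fun _ => Tx_det 2 X) hA hc.le hT hG0
    rw [hq, hY']
    refine k3.trans ?_
    have k4 : 0 ≤ e + Real.log 2 + |Cc 2 c₀| := by
      have := Real.log_nonneg (show (1 : ℝ) ≤ 2 by norm_num)
      positivity
    calc _ ≤ (e + Real.log 2 + |Cc 2 c₀|) / Pe τ G := div_le_div_of_nonneg_right
          (by linarith) hG0.le
      _ ≤ _ := div_le_div_of_nonneg_left k4 hm hG
  have hdA' : Det q Y' A := fun w w' a b h => by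
    rw [hY'] at h
    exact hdA w w' (hqt w a).1 (hqt w' b).1 (Prod.ext_iff.mp h).2
  have r3 := cnt_low hql (t := t) (fun w => Z (f w)) Y' hdA' hA hc hT d1 hκ
    (fun w hw => hb w (hqt w hw).2)
  obtain ⟨c, hcl⟩ : ∃ c : Γ → Fin 2 → ℤ, c = fun w => cl (A w) (xv X (Z (f w))) := ⟨_, rfl⟩
  have e3 : CH q (fun w i => Z (f w) i / 2 ^ t) (fun w => (cl (A w) (xv X (Z (f w))), Y' w)) =
      CH q (fun w => Zt (f w)) (fun w => (c w, Y' w)) := by
    rw [hcl, hZt]
  rw [e3] at r3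
  -- the code of the line
  have r4 : CH q (fun w => kL (f w)) (fun w => (c w, Y' w)) ≤ Real.log 9 := by
    have k1 := CH_pair_int hql (fun w => kL (f w)) (fun w => (c w, Y' w)) (D := 4) (by norm_num)
      (fun w w' a b h => by
        have h2 := (Prod.ext_iff.mp h).2
        rw [hY'] at h2
        exact hk w w' (hqt w a).1 (hqt w' b).1 (hqt w a).2 (hqt w' b).2 (Prod.ext_iff.mp h2).2)
    refine k1.trans (le_of_eq ?_)
    norm_num
  -- the combination given the cell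
  have r5 : CH q (fun w => Wp (f w)) (fun w => (kL (f w), (c w, Y' w))) ≤
      Real.log (2 * (2 * c1 + 1) + 1) := by
    refine CH_pair_int hql _ _ (by positivity) fun w w' a b h => ?_
    simp only [Prod.mk.injEq] at h
    have e1 : A w = A w' := hdA' w w' a b h.2.2
    have e2 : c w = c w' := h.2.1
    rw [hcl] at e2
    have e2' : cl (A w) (xv X (Z (f w))) = cl (A w) (xv X (Z (f w'))) := by
      have : cl (A w) (xv X (Z (f w))) = cl (A w') (xv X (Z (f w'))) := e2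
      rwa [← e1] at this
    obtain ⟨u, hu, hd⟩ := cell_dif (hA w) e2'
    have g0 : ∀ i, (Z (f w) i : ℝ) - Z (f w') i = 2 ^ X * (u 0 * A w i 0 + u 1 * A w i 1) := by
      intro i
      rw [← hd i]
      simp only [xv]
      field_simp
    have g1 : |((Z (f w) 1 : ℝ) - ka (kL (f w)) * Z (f w) 0) / 2 ^ t -
        ((Z (f w') 1 : ℝ) - ka (kL (f w')) * Z (f w') 0) / 2 ^ t| ≤ 2 * c1 := by
      rw [← h.1, ← sub_div, abs_div, abs_of_pos h2t, div_le_iff₀ h2t]
      have e4 : (Z (f w) 1 : ℝ) - ka (kL (f w)) * Z (f w) 0 -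
          (Z (f w') 1 - ka (kL (f w)) * Z (f w') 0) =
          u 0 * ((A w 1 0 - ka (kL (f w)) * A w 0 0) * 2 ^ X) +
          u 1 * ((A w 1 1 - ka (kL (f w)) * A w 0 1) * 2 ^ X) := by
        have a1 := g0 1
        have a0 := g0 0
        have : (Z (f w) 1 : ℝ) - ka (kL (f w)) * Z (f w) 0 -
          (Z (f w') 1 - ka (kL (f w)) * Z (f w') 0) = ((Z (f w) 1 : ℝ) - Z (f w') 1) -
          ka (kL (f w)) * ((Z (f w) 0 : ℝ) - Z (f w') 0) := by ring
        rw [this, a1, a0]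
        ring
      rw [e4]
      refine (abs_add_le _ _).trans ?_
      have g2 : ∀ j, |u j * ((A w 1 j - ka (kL (f w)) * A w 0 j) * 2 ^ X)| ≤ c1 * 2 ^ t := by
        intro j
        rw [abs_mul, abs_mul (A w 1 j - ka (kL (f w)) * A w 0 j), abs_of_pos h2X]
        calc |u j| * (|A w 1 j - ka (kL (f w)) * A w 0 j| * 2 ^ X) ≤
              1 * (|A w 1 j - ka (kL (f w)) * A w 0 j| * 2 ^ X) :=
              mul_le_mul_of_nonneg_right (hu j) (by positivity)
          _ ≤ _ := by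
              rw [one_mul]
              exact hcol w (hqt w a).2 j
      have := g2 0
      have := g2 1
      linarith
    have g3 : ∀ x y : ℝ, |x - y| ≤ 2 * c1 → |((⌊x⌋ : ℤ) : ℝ) - ⌊y⌋| ≤ 2 * c1 + 1 := by
      intro x y hxy
      have a1 := Int.floor_le x
      have a2 := Int.lt_floor_add_one x
      have a3 := Int.floor_le y
      have a4 := Int.lt_floor_add_one y
      rw [abs_le] at hxy ⊢
      constructor <;> linarith [hxy.1, hxy.2]
    rw [hWp]
    exact g3 _ _ g1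
  -- the combination given the digits
  have r6 : CH q (fun w => Wp (f w)) (fun w => (Zt (f w), (kL (f w), WS (f w)))) ≤
      Real.log (2 * (Kb + 2) + 1) := by
    refine CH_pair_int hql _ _ (by positivity) fun w w' a b h => ?_
    simp only [Prod.mk.injEq] at h
    have e1 : Zt (f w) = Zt (f w') := h.1
    have g1 : ∀ i, |(Z (f w) i : ℝ) - Z (f w') i| ≤ 2 ^ t := fun i => by
      have := congrFun e1 i
      rw [hZt] at this
      exact ediv_same this
    have g2 : |((Z (f w) 1 : ℝ) - ka (kL (f w)) * Z (f w) 0) / 2 ^ t -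
        ((Z (f w') 1 : ℝ) - ka (kL (f w')) * Z (f w') 0) / 2 ^ t| ≤ Kb + 1 := by
      rw [← h.2.1, ← sub_div, abs_div, abs_of_pos h2t, div_le_iff₀ h2t]
      have e4 : (Z (f w) 1 : ℝ) - ka (kL (f w)) * Z (f w) 0 -
          (Z (f w') 1 - ka (kL (f w)) * Z (f w') 0) = ((Z (f w) 1 : ℝ) - Z (f w') 1) -
          ka (kL (f w)) * ((Z (f w) 0 : ℝ) - Z (f w') 0) := by ring
      rw [e4]
      refine (abs_sub _ _).trans ?_
      rw [abs_mul]
      have := mul_le_mul (hka (kL (f w))) (g1 0) (abs_nonneg _) hKb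
      have := g1 1
      linarith
    have g3 : ∀ x y : ℝ, |x - y| ≤ Kb + 1 → |((⌊x⌋ : ℤ) : ℝ) - ⌊y⌋| ≤ Kb + 2 := by
      intro x y hxy
      have a1 := Int.floor_le x
      have a2 := Int.lt_floor_add_one x
      have a3 := Int.floor_le y
      have a4 := Int.lt_floor_add_one y
      rw [abs_le] at hxy ⊢
      constructor <;> linarith [hxy.1, hxy.2]
    rw [hWp]
    exact g3 _ _ g2
  -- the chain rules
  have hWS : Det q (fun w => Y' w) (fun w => WS (f w)) := fun w w' a b h => by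
    rw [hY'] at h
    exact hdS w w' (hqt w a).1 (hqt w' b).1 (Prod.ext_iff.mp h).2
  have s1 : CH q (fun w => Zt (f w)) (fun w => (kL (f w), WS (f w))) ≤
      CH q (fun w => Zt (f w)) (fun w => WS (f w)) :=
    CH_mono_cond h0 fun _ _ _ _ h => (Prod.ext_iff.mp h).2
  have s2 : CH q (fun w => Wp (f w)) (fun w => (kL (f w), WS (f w))) +
      CH q (fun w => Zt (f w)) (fun w => (Wp (f w), (kL (f w), WS (f w)))) ≤
      CH q (fun w => Zt (f w)) (fun w => (kL (f w), WS (f w))) +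
      CH q (fun w => Wp (f w)) (fun w => (Zt (f w), (kL (f w), WS (f w)))) := by
    have a1 := CH_chain h0 (fun w => Zt (f w)) (fun w => Wp (f w))
      (fun w => (kL (f w), WS (f w)))
    have a2 := CH_chain h0 (fun w => Wp (f w)) (fun w => Zt (f w))
      (fun w => (kL (f w), WS (f w)))
    have a3 : CH q (fun w => (Zt (f w), Wp (f w))) (fun w => (kL (f w), WS (f w))) =
        CH q (fun w => (Wp (f w), Zt (f w))) (fun w => (kL (f w), WS (f w))) := by
      refine CH_congr h0 ?_ ?_ (fun _ _ _ _ h => h) (fun _ _ _ _ h => h) <;>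
      · intro w w' _ _ h
        simp only [Prod.mk.injEq] at h ⊢
        exact ⟨h.1.2, h.1.1⟩
    linarith
  have s3 : CH q (fun w => Zt (f w)) (fun w => (Wp (f w), (kL (f w), (c w, Y' w)))) ≤
      CH q (fun w => Zt (f w)) (fun w => (Wp (f w), (kL (f w), WS (f w)))) :=
    CH_mono_cond h0 fun w w' a b h => by
      simp only [Prod.mk.injEq] at h ⊢
      exact ⟨h.1, h.2.1, hWS w w' a b h.2.2.2⟩
  have s4 : CH q (fun w => Zt (f w)) (fun w => (kL (f w), (c w, Y' w))) ≤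
      CH q (fun w => Wp (f w)) (fun w => (kL (f w), (c w, Y' w))) +
      CH q (fun w => Zt (f w)) (fun w => (Wp (f w), (kL (f w), (c w, Y' w)))) :=
    CH_le_add h0 _ _ _
  have s5 : CH q (fun w => Zt (f w)) (fun w => (c w, Y' w)) ≤
      CH q (fun w => kL (f w)) (fun w => (c w, Y' w)) +
      CH q (fun w => Zt (f w)) (fun w => (kL (f w), (c w, Y' w))) :=
    CH_le_add h0 _ _ _
  linarith

end Pool.DIR16
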