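import Pool.Agent.H16.DIR.Bas

/-!
# DIR: the closed slopes of the long bodies

`par_codes`: on the lines with a long body whose second coordinate is not small, the slope (first over
second coordinate) is, up to rounding, a function of the line and a function of `(Z, Bs)`.
-/

set_option autoImplicit false

namespace Pool.DIR16

open Finset Real Matrix
open Pool.Agent.H49.Ent Pool.Agent.H32.Dense Pool.STK Pool.POT Pool.FAD Pool.SLO Pool.TQ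
open Pool.K2S (Pe)
open Pool.DIR21
open Pool.BFL (Pb)

section sw

/-- The vector with the coordinates exchanged. -/
def sw (e : Fin 2 → ℝ) : Fin 2 → ℝ := ![e 1, e 0]

theorem sw_un {e : Fin 2 → ℝ} (h : Un e) : Un (sw e) := by
  refine ⟨fun i => ?_, ?_⟩
  · fin_cases i
    · exact h.1 1
    · exact h.1 0
  · obtain ⟨i, hi⟩ := h.2
    fin_cases i
    · exact ⟨1, hi⟩
    · exact ⟨0, hi⟩

theorem wg_sw (e e' : Fin 2 → ℝ) : wg (sw e) (sw e') = -wg e e' := by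
  unfold wg sw
  simp only [Matrix.cons_val_zero, Matrix.cons_val_one, Matrix.cons_val_fin_one]
  ring

theorem slope_near1 {e e' : Fin 2 → ℝ} {θ θ' ρ : ℝ} (hθ : 0 < θ) (hθ' : 0 < θ')
    (h0 : θ ≤ |e 1|) (h0' : θ' ≤ |e' 1|) (h : |wg e e'| ≤ ρ) :
    |e 0 / e 1 - e' 0 / e' 1| ≤ ρ / (θ * θ') := by
  have h1 := slope_near (e := sw e) (e' := sw e') hθ hθ' h0 h0' (ρ := ρ) (by
    rw [wg_sw, abs_neg]
    exact h)
  exact h1

theorem first_big1 {e e' : Fin 2 → ℝ} (he : Un e) (he' : Un e') {θ ρ : ℝ} (h0 : θ ≤ |e 1|)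
    (h : |wg e e'| ≤ ρ) : θ - 2 * ρ ≤ |e' 1| := by
  have h1 := first_big (e := sw e) (e' := sw e') (sw_un he) (sw_un he') (θ := θ) (ρ := ρ) h0 (by
    rw [wg_sw, abs_neg]
    exact h)
  exact h1

/-- A vector almost parallel to a direction whose second coordinate is not small. -/
theorem col_big1 {v e : Fin 2 → ℝ} {θ ρ : ℝ} (hθ : 0 < θ) (h0 : θ ≤ |e 1|) (h : |wg v e| ≤ ρ) :
    |v 0 - e 0 / e 1 * v 1| ≤ ρ / θ := by
  have h1 := col_big (v := sw v) (e := sw e) hθ (ρ := ρ) h0 (by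
    rw [wg_sw, abs_neg]
    exact h)
  exact h1

theorem slope_le1 {e : Fin 2 → ℝ} (he : Un e) {θ : ℝ} (hθ : 0 < θ) (h0 : θ ≤ |e 1|) :
    |e 0 / e 1| ≤ 1 / θ := slope_le (e := sw e) (sw_un he) hθ h0

end sw

variable {Ω Λ τ B β ρ σ : Type} [Fintype Ω] {p : Ω → ℝ} {L : Ω → Λ} {th : Ω → τ}
  {b : Ω → B} {hgt : Ω → Fin 2 → ℤ} {S : Ω → ρ} {Wd : Ω → β} {Z : Ω → Fin 2 → ℤ} {Bs : Ω → σ}
  {M : B → Matrix (Fin 2) (Fin 2) ℝ} {X : ℕ} {C Lm d R ϖ : ℝ}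

/-- The line has a long body whose second coordinate is not small. -/
def QL (M : B → Matrix (Fin 2) (Fin 2) ℝ) (b : Ω → B) (th : Ω → τ) {n : ℕ}
    (A0 : (Fin (n + 2) → τ) → Matrix (Fin 2) (Fin 2) ℝ) (T : Λ → Prop) (f : Λ → Fin (n + 2) → Ω)
    (θ : ℝ) (z : Λ) : Prop := T z ∧ θ ≤ |dr M b th A0 (f z) 1|

/-- The code of the slope of the line. -/
noncomputable def kq (M : B → Matrix (Fin 2) (Fin 2) ℝ) (b : Ω → B) (th : Ω → τ) {n : ℕ}
    (A0 : (Fin (n + 2) → τ) → Matrix (Fin 2) (Fin 2) ℝ) (f : Λ → Fin (n + 2) → Ω) (Y : ℕ) (s : ℝ)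
    (z : Λ) : ℤ := ⌊2 ^ Y * (dr M b th A0 (f z) 0 / dr M b th A0 (f z) 1) + s⌋

/-- **The closed slopes of the long bodies.** -/
theorem par_codes (hH : DrOk p L th b hgt S Wd Z Bs M X C Lm d R ϖ) {h κ₁ δ F₀ η : ℝ} {X0 : ℕ}
    (hm : MN h κ₁ δ F₀ η ϖ C (4 * Lm) X0) (hX : X0 ≤ X) (hF : 1 ≤ F₀) (hL0 : 0 < Lm)
    (hϖ : 0 < ϖ)
    (hR : R + (d + Real.log 2) / ϖ ≤ (2 - h) * X * Real.log 2 + η * X) {n : ℕ}
    {A0 : (Fin (n + 2) → τ) → Matrix (Fin 2) (Fin 2) ℝ} (hA : ∀ t, (A0 t).det ≠ 0)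
    (hinv : ∀ t i j, |(A0 t)⁻¹ i j| ≤ 2 ^ X) {e₀ : ℝ}
    (hbody : DF (tup p L (n + 2)) (fun _ => Tx 2 X) (fun w => A0 fun j => th (w j.succ))
      (fun w => xv X (hgt (w 0)))
      (fun w => (b (w 0), (th (w 0), fun j : Fin (n + 2) => th (w j.succ)))) ≤ e₀)
    (he : F₀ * (|e₀| + (4 * n + 9) * d + |Pool.POT64.Cch 2 Lm C| + |Cc 2 (4 * Lm)|) ≤ η * X)
    {θ δ₁ ε₂ ε₃ : ℝ} (hθ : 0 < θ) (hθ1 : θ ≤ 1) (hδ₁ : 0 < δ₁) (hε₂ : 0 < ε₂)
    (hε₃ : 0 ≤ ε₃) (hε₃1 : ε₃ ≤ 1) (hF₂ : 1 ≤ F₀ * (δ₁ * ε₂)) {T : Λ → Prop}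
    {f : Λ → Fin (n + 2) → Ω}
    (hf : ∀ ω, 0 < p ω → T (L ω) → θ ≤ nb (bdv M b th A0 (f (L ω))))
    (hT2 : Pb (tup p L (n + 1)) (fun v => θ ≤ nb (bdv M b th A0 v) ∧ T (L (v 0)) ∧
      RR ((2 : ℝ) ^ (-(κ₁ * X))) (bdv M b th A0 v) (bdv M b th A0 (f (L (v 0))))) ≤ δ / δ₁)
    (hT3 : ∀ ω, T (L ω) → δ₁ * p ω ≤ mg (fun w : Fin (n + 1 + 1 + 1) → Ω =>
      tup p L (n + 1 + 1) w * ci (θ ≤ nb (bdv M b th A0 fun j => w j.succ))) (fun w => w 0) ω)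
    {Y : ℕ} (hs : 10 * 2 ^ Y * (2 : ℝ) ^ (-(κ₁ * X)) ≤ ε₃ * θ ^ 4) {m' : ℕ}
    (hm' : 1 ≤ m') (hcon : ε₂ ≤ Pb p (fun ω => QL M b th A0 T f θ (L ω))) :
    ∃ (s : ℝ) (kP : (Fin 2 → ℤ) × σ → ℤ),
      δ₁ * Pe p (fun ω => QL M b th A0 T f θ (L ω) ∧
        kq M b th A0 f Y s (L ω) ≠ kP (Z ω, Bs ω)) ≤ δ / δ₁ + δ + ε₃ + 1 / m' := by
  classical
  have hp := hH.law
  have hp0 := hp.nonneg
  obtain ⟨tq, htq⟩ : ∃ tq, tq = tup p L (n + 2) := ⟨_, rfl⟩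
  have htl : IsLaw tq := by rw [htq]; exact tup_isLaw hp L (n + 2)
  have ht0 := htl.nonneg
  have him : Im tq p (fun w => w 0) := by rw [htq]; exact im_tup hp0 L _ 0
  have hd0 : 0 ≤ d := (MI_nonneg hp0 _ _ _).trans hH.h0
  obtain ⟨r, hr⟩ : ∃ r : ℝ, r = (2 : ℝ) ^ (-(κ₁ * X)) := ⟨_, rfl⟩
  have hr0 : 0 < r := by rw [hr]; positivity
  rw [← hr] at hT2 hs
  -- the sizes
  have hY1 : (1 : ℝ) ≤ 2 ^ Y := one_le_pow₀ (by norm_num)
  have hY0 : (0 : ℝ) < 2 ^ Y := by positivity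
  have hs' : 2 ^ Y * (10 * (r / θ ^ 4)) ≤ ε₃ := by
    have : 2 ^ Y * (10 * (r / θ ^ 4)) = 10 * 2 ^ Y * r / θ ^ 4 := by ring
    rw [this, div_le_iff₀ (by positivity)]
    exact hs
  have hr4 : 10 * (r / θ ^ 4) ≤ 1 := by
    have h1 : 10 * (r / θ ^ 4) ≤ 2 ^ Y * (10 * (r / θ ^ 4)) :=
      le_mul_of_one_le_left (by positivity) hY1
    linarith
  have hr4' : 0 ≤ r / θ ^ 4 := by positivity
  have hr2 : r / (θ * θ) ≤ θ / 8 := by
    have h1 : r / (θ * θ) = r / θ ^ 4 * (θ * θ) := by field_simp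
    rw [h1]
    have h2 : r / θ ^ 4 * (θ * θ) ≤ 1 / 10 * (θ * θ) :=
      mul_le_mul_of_nonneg_right (by linarith) (by positivity)
    have h3 : θ * θ ≤ θ * 1 := mul_le_mul_of_nonneg_left hθ1 hθ.le
    linarith
  -- the support
  have hsup : ∀ w, 0 < tq w → 0 < p (w 0) ∧ L (w (Fin.succ 0)) = L (w 0) ∧
      bdv M b th A0 (fun j => w j.succ) = bw M b th A0 w := fun w hw => by
    rw [htq] at hw
    have h1 := (tup_pos_iff hp0 L _ w).1 hw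
    exact ⟨h1.1 0, h1.2 _, bw_eq hp0 hH.Lb hw⟩
  -- the mass of tuples with a property of the first sample
  have mT : ∀ E : Ω → Prop, (∀ ω, E ω → T (L ω)) →
      δ₁ * Pe p E ≤ Pe tq (fun w => θ ≤ nb (bw M b th A0 w) ∧ E (w 0)) := by
    intro E hE
    refine mg_ci_T ht0 (fun w => w 0) _ fun ω hω => ?_
    refine (hT3 ω (hE ω hω)).trans (le_of_eq ?_)
    unfold mg
    refine Finset.sum_congr rfl fun w _ => ?_
    by_cases h2 : w 0 = ω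
    · rw [if_pos h2, if_pos h2]
      rw [htq]
      show tup p L (n + 2) w * ci (θ ≤ nb (bdv M b th A0 fun j => w j.succ)) =
        tup p L (n + 2) w * ci (θ ≤ nb (bw M b th A0 w) ∧ E (w 0))
      rcases (tup_isLaw hp L (n + 2)).nonneg w |>.eq_or_lt with h3 | h3
      · rw [← h3, zero_mul, zero_mul]
      · rw [bw_eq hp0 hH.Lb h3]
        congr 1
        refine le_antisymm (ci_mono fun h => ⟨h, ?_⟩) (ci_mono fun h => h.1)
        rw [h2]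
        exact hω
    · rw [if_neg h2, if_neg h2]
  have mB : δ₁ * ε₂ ≤ Pe tq (fun w => θ ≤ nb (bw M b th A0 w) ∧ QL M b th A0 T f θ (L (w 0))) := by
    refine le_trans (mul_le_mul_of_nonneg_left ?_ hδ₁.le) (mT (fun ω => QL M b th A0 T f θ (L ω))
      fun ω h => h.1)
    rw [← Pb_Pe]
    exact hcon
  -- the copies
  have hPB : δ₁ * ε₂ ≤ Pe tq (Bg M b th A0 θ) := by
    refine mB.trans ?_
    rw [← Pb_Pe, ← Pb_Pe]
    exact Pb_mono ht0 fun w _ h => h.1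
  have hPB0 : 0 < Pe tq (Bg M b th A0 θ) := lt_of_lt_of_le (by positivity) hPB
  have hlk := hH.lnk hm hX hF hL0.le hϖ hR hA hinv hbody (κ := θ) (by
    rw [← htq]
    refine le_trans ?_ hPB
    rw [div_le_iff₀ (by linarith)]
    linarith) (by
      refine le_trans (mul_le_mul_of_nonneg_left ?_ (by linarith)) he
      have h1 : (3 * (n : ℝ) + 8) * d ≤ (4 * n + 9) * d :=
        mul_le_mul_of_nonneg_right (by linarith [(Nat.cast_nonneg n : (0 : ℝ) ≤ n)]) hd0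
      linarith)
  rw [← htq, ← hr] at hlk
  obtain ⟨q, hq⟩ : ∃ q, q = cond tq (Bg M b th A0 θ) True := ⟨_, rfl⟩
  rw [← hq] at hlk
  have hql : IsLaw q := by rw [hq]; exact cond_law ht0 hPB0
  have hqt : ∀ w, 0 < q w → 0 < tq w ∧ Bg M b th A0 θ w := fun w hw => by
    rw [hq] at hw
    have := (cond_pos_iff ht0 _ True w).1 hw
    exact ⟨this.1, of_eq_true this.2⟩
  obtain ⟨g, hg1, hg2⟩ := cpy_sel hql (fun w => Z (w 0)) (fun w => Bs (w 0))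
    (fun w w' => RR r (bw M b th A0 w) (bw M b th A0 w'))
  have hg3 := hg2.trans hlk
  -- the pairs (sample, copy)
  have mg' : Pb tq (fun w => Bg M b th A0 θ w ∧
      RR r (bw M b th A0 w) (bw M b th A0 (g (Z (w 0), Bs (w 0))))) ≤ δ := by
    have e1 : Pb tq (fun w => Bg M b th A0 θ w ∧
        RR r (bw M b th A0 w) (bw M b th A0 (g (Z (w 0), Bs (w 0))))) =
        Pe tq (Bg M b th A0 θ) * Pe q (fun w =>
          RR r (bw M b th A0 w) (bw M b th A0 (g (Z (w 0), Bs (w 0))))) := by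
      rw [Pb_Pe, Pe_cc hPB0, hq]
    rw [e1, ← Pb_Pe q]
    have h1 := Pe_le_one htl (Bg M b th A0 θ)
    have h2 := Pb_nonneg hql.nonneg (fun w =>
      RR r (bw M b th A0 w) (bw M b th A0 (g (Z (w 0), Bs (w 0)))))
    exact (mul_le_of_le_one_left h2 h1).trans hg3
  -- the pairs (sample, selected sample)
  have mf' : Pb tq (fun w => Bg M b th A0 θ w ∧ T (L (w 0)) ∧
      RR r (bw M b th A0 w) (bdv M b th A0 (f (L (w 0))))) ≤ δ / δ₁ := by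
    have him2 : Im tq (tup p L (n + 1)) (fun w => w ∘ Fin.succ) := by
      rw [htq]
      exact im_of_marg (tup_sub hp0 L (M := n + 1) (N := n + 2) Fin.succ
        (Fin.succ_injective _))
    rw [Pb_im him2] at hT2
    refine le_trans (Pb_mono ht0 fun w hw h => ?_) hT2
    obtain ⟨s1, s2, s3⟩ := hsup w hw
    have e1 : bdv M b th A0 (w ∘ Fin.succ) = bw M b th A0 w := s3
    have e2 : L ((w ∘ Fin.succ) 0) = L (w 0) := s2
    rw [e1, e2]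
    exact h
  -- the slopes
  obtain ⟨rL, hrL⟩ : ∃ rL : Λ → ℝ, rL = fun z => dr M b th A0 (f z) 0 / dr M b th A0 (f z) 1 :=
    ⟨_, rfl⟩
  obtain ⟨rP, hrP⟩ : ∃ rP : (Fin 2 → ℤ) × σ → ℝ, rP = fun y =>
      un (bw M b th A0 (g y)) 0 / un (bw M b th A0 (g y)) 1 := ⟨_, rfl⟩
  obtain ⟨rw', hrw⟩ : ∃ rw' : (Fin (n + 2 + 1) → Ω) → ℝ, rw' = fun w =>
      un (bw M b th A0 w) 0 / un (bw M b th A0 w) 1 := ⟨_, rfl⟩
  have sl1 : ∀ w, 0 < tq w → θ ≤ nb (bw M b th A0 w) → QL M b th A0 T f θ (L (w 0)) →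
      ¬ RR r (bw M b th A0 w) (bdv M b th A0 (f (L (w 0)))) →
      θ / 2 ≤ |un (bw M b th A0 w) 1| ∧ |rL (L (w 0)) - rw' w| ≤ 2 * (r / θ ^ 4) := by
    intro w hw h1 h2 h3
    obtain ⟨s1, -, -⟩ := hsup w hw
    have n1 := hf (w 0) s1 h2.1
    have g1 := rr_un hr0.le h3 hθ h1 n1
    have u1 : Un (un (bw M b th A0 w)) := un_un (hθ.trans_le h1)
    have u2 : Un (dr M b th A0 (f (L (w 0)))) := un_un (hθ.trans_le n1)
    have g2 : |wg (dr M b th A0 (f (L (w 0)))) (un (bw M b th A0 w))| ≤ r / (θ * θ) := by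
      rw [wg_swap, abs_neg]
      exact g1
    have g3 := first_big1 u2 u1 h2.2 g2
    have g4 : θ / 2 ≤ |un (bw M b th A0 w) 1| := by linarith
    refine ⟨g4, ?_⟩
    have g5 := slope_near1 hθ (by positivity : 0 < θ / 2) h2.2 g4 g2
    rw [hrL, hrw]
    refine g5.trans (le_of_eq ?_)
    field_simp
  have sl2 : ∀ w, 0 < tq w → θ ≤ nb (bw M b th A0 w) → θ / 2 ≤ |un (bw M b th A0 w) 1| →
      ¬ RR r (bw M b th A0 w) (bw M b th A0 (g (Z (w 0), Bs (w 0)))) →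
      |rw' w - rP (Z (w 0), Bs (w 0))| ≤ 8 * (r / θ ^ 4) := by
    intro w hw h1 h2 h3
    have hqw : 0 < q w := by
      rw [hq]
      exact (cond_pos_iff ht0 _ True w).2 ⟨hw, eq_true h1⟩
    have n1 : θ ≤ nb (bw M b th A0 (g (Z (w 0), Bs (w 0)))) := (hqt _ (hg1 w hqw)).2
    have g1 := rr_un hr0.le h3 hθ h1 n1
    have u1 : Un (un (bw M b th A0 w)) := un_un (hθ.trans_le h1)
    have u2 : Un (un (bw M b th A0 (g (Z (w 0), Bs (w 0))))) := un_un (hθ.trans_le n1)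
    have g3 := first_big1 u1 u2 h2 g1
    have g4 : θ / 4 ≤ |un (bw M b th A0 (g (Z (w 0), Bs (w 0)))) 1| := by linarith
    have g5 := slope_near1 (by positivity : 0 < θ / 2) (by positivity : 0 < θ / 4) h2 g4 g1
    rw [hrw, hrP]
    refine g5.trans (le_of_eq ?_)
    field_simp
    norm_num
  -- the codes
  obtain ⟨Q, hQ⟩ : ∃ Q : (Fin (n + 2 + 1) → Ω) → Prop, Q = fun w =>
      θ ≤ nb (bw M b th A0 w) ∧ QL M b th A0 T f θ (L (w 0)) := ⟨_, rfl⟩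
  have hsh := Pool.PR46.shift_eq htl
    (fun w => if Q w then 2 ^ Y * rL (L (w 0)) else 0)
    (fun w => if Q w then 2 ^ Y * rP (Z (w 0), Bs (w 0)) else 0) (θ := ε₃)
    (η := δ / δ₁ + δ) hε₃ (by
      refine le_trans (Pb_mono ht0 fun w hw h => ?_) ((Pb_or ht0 _ _).trans
        (add_le_add mf' mg'))
      by_cases hQw : Q w
      · simp only [if_pos hQw] at h
        rw [hQ] at hQw
        by_contra hn
        push Not at hn
        have h1 := hn.1 hQw.1 hQw.2.1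
        have h2 := hn.2 hQw.1
        obtain ⟨a1, a2⟩ := sl1 w hw hQw.1 hQw.2 h1
        have a3 := sl2 w hw hQw.1 a1 h2
        have a4 : |rL (L (w 0)) - rP (Z (w 0), Bs (w 0))| ≤ 10 * (r / θ ^ 4) := by
          have := abs_sub_le (rL (L (w 0))) (rw' w) (rP (Z (w 0), Bs (w 0)))
          linarith
        rw [← mul_sub, abs_mul, abs_of_pos hY0] at h
        have := mul_le_mul_of_nonneg_left a4 hY0.le
        linarith
      · simp only [if_neg hQw, sub_zero, abs_zero] at h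
        linarith) m' hm'
  obtain ⟨i, -, hi⟩ := hsh
  refine ⟨(i : ℝ) / m', fun y => ⌊2 ^ Y * rP y + (i : ℝ) / m'⌋, ?_⟩
  refine (mT (fun ω => QL M b th A0 T f θ (L ω) ∧ kq M b th A0 f Y ((i : ℝ) / m') (L ω) ≠
    ⌊2 ^ Y * rP (Z ω, Bs ω) + (i : ℝ) / m'⌋) fun ω h => h.1.1).trans ?_
  refine le_trans ?_ hi
  rw [← Pb_Pe]
  refine Pb_mono ht0 fun w hw h => ?_
  have hQw : Q w := by
    rw [hQ]
    exact ⟨h.1, h.2.1⟩
  simp only [if_pos hQw]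
  have h3 := h.2.2
  unfold kq at h3
  rw [hrL]
  exact h3

end Pool.DIR16
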