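import Pool.Agent.H16.DIR.Vd
import Pool.Agent.H64.LV.Evd

/-!
# DIR: the gradients of one of two places, on one event

`pv_u`: from the inputs `PrV` for two places, the rows of both places on the whole block and on the
block of the upper digits, and fullness of the digits of `M 1 - ka M 0` for all closed slopes `ka`: the
gradient of the place `0` in the directions of the moved places is closed.
-/

set_option autoImplicit false

namespace Pool.DIR16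

open Finset Real MvPolynomial
open Pool.Agent.H49.Ent Pool.Agent.H32.Dense Pool.STK Pool.KA Pool.KSAT Pool.K2S Pool.PB Pool.S6C
open Pool.GEN Pool.CHT Pool.CHX Pool.ISO Pool.LA91 Pool.AVG71 Pool.AVG5 Pool.D2F2 Pool.AVG57
open Pool.PB.Trl (rt rt_mem t_rt)
open Pool.D2R (hgt)
open Pool.KVA (MI)
open Pool.KAF (rs Pr)
open Pool.BFL (Pb)
open Pool.LV64

variable {m J : ℕ}

/-- Fullness for a function of the line. -/
theorem fih_det {Ω Λ Λ' α σ' : Type} [Fintype Ω] {p : Ω → ℝ} (hp : IsLaw p) {L : Ω → Λ}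
    {L' : Ω → Λ'} (hL : Det p L L') {WS : Ω → α} {Z : Ω → Fin 2 → ℤ} {Bs : Ω → σ'} {t : ℕ}
    {Kb b₁ ϖ₂ : ℝ} (h : FIh p L WS Z Bs t Kb b₁ ϖ₂) : FIh p L' WS Z Bs t Kb b₁ ϖ₂ := by
  classical
  intro kL kP ka B hka hkk hB hB0
  obtain ⟨f, hf⟩ : ∃ f : Λ → ℤ, ∀ ω, 0 < p ω → f (L ω) = kL (L' ω) := by
    refine ⟨fun s => if hs : ∃ ω, 0 < p ω ∧ L ω = s then kL (L' hs.choose) else 0,
      fun ω hω => ?_⟩
    have hs : ∃ ω', 0 < p ω' ∧ L ω' = L ω := ⟨ω, hω, rfl⟩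
    show (if hs : ∃ ω', 0 < p ω' ∧ L ω' = L ω then kL (L' hs.choose) else 0) = _
    rw [dif_pos hs, hL _ ω hs.choose_spec.1 hω hs.choose_spec.2]
  have h1 := h f kP ka B hka (fun ω hω hBω => by rw [hf ω hω]; exact hkk ω hω hBω) hB hB0
  have hql : IsLaw (cond p B True) := Pool.TQ.cond_law hp.nonneg hB0
  have h0 := hql.nonneg
  have hqp : ∀ ω, 0 < cond p B True ω → 0 < p ω := fun ω hω =>
    ((cond_pos_iff hp.nonneg B True ω).mp hω).1
  refine h1.trans (le_of_eq (CH_congr h0 ?_ ?_ ?_ ?_))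
  · intro ω ω' a b e
    have e1 := (Prod.ext_iff.mp e).1
    have e2 := (Prod.ext_iff.mp (Prod.ext_iff.mp e).2)
    simp only at e1 ⊢
    rw [← hf ω (hqp ω a), ← hf ω' (hqp ω' b)]
    exact e1
  · intro ω ω' a b e
    have e1 := (Prod.ext_iff.mp e).1
    simp only at e1 ⊢
    rw [← hf ω (hqp ω a), ← hf ω' (hqp ω' b)] at e1
    exact e1
  · intro ω ω' a b e
    obtain ⟨e1, e2⟩ := Prod.ext_iff.mp e
    simp only at e1 e2
    refine Prod.ext ?_ e2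
    show kL (L' ω) = kL (L' ω')
    rw [← hf ω (hqp ω a), ← hf ω' (hqp ω' b)]
    exact e1
  · intro ω ω' a b e
    obtain ⟨e1, e2⟩ := Prod.ext_iff.mp e
    simp only at e1 e2
    refine Prod.ext ?_ e2
    show f (L ω) = f (L ω')
    rw [hf ω (hqp ω a), hf ω' (hqp ω' b)]
    exact e1

/-- **The gradients of one of two places**, on one event. -/
theorem pv_u (k K : ℕ) (hK : 1 ≤ K) {h x₀ σ ε : ℝ} (hh : 0 < h) (hh1 : h ≤ 1) (hx : 0 < x₀)
    (hxh : x₀ < h ^ 2 / 16) (hσ : 0 < σ) (hε : 0 < ε) :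
    ∃ ι π₀ : ℝ, 0 < ι ∧ 0 < π₀ ∧ ∃ X₀ : ℕ,
      ∀ {m J : ℕ} {F : Fam m J} {c : ℕ → Fin m} {mv : Fin k → ℕ} {tg qt Xt : Fin 2 → ℕ}
        {q w W X mm D : ℕ} {γ : ℕ → ℕ} {B : F.Ω → Prop}
        {G₀ : PtT F → ℕ → MvPolynomial (Option (Fin m)) ℝ}
        {H : LnT F → ℕ → MvPolynomial (Option (Fin m)) ℝ} {gg : F.Ω → Fin 2 → Fin k → ℝ}
        {ζ ζ' υ' χ₁ χ₂ ρ₁ ρ₂ σ' : Type} {z : F.Ω → ζ} {zw : F.Ω → ζ'} {Yc : F.Ω → υ'}
        {Cj : F.Ω → χ₁} {Cx : F.Ω → χ₂} {Rj : F.Ω → ρ₁} {Rx : F.Ω → ρ₂} {Bs : F.Ω → σ'}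
        {Nb : Fin k → ℝ} {p : F.Ω → ℝ} {Nf Nn Nx Nu Nv : Fin k → ℕ → ℝ}
        {Mf Mn : Fin 2 → ℕ → ℝ} {U e : ℝ}
        (_ : PrV F c mv tg qt Xt q w W X mm D K γ B G₀ H gg z zw Yc Cj Cx Rj Rx
          (Vm F c mv w H Nb) p Nf Nn Nx Nu Nv Mf Mn U (k * (X * Real.log 2)) e)
        {Ur Ur' b₁ ψ ε₀ : ℝ} {j₀ t : ℕ}, (∀ j, ((γ (mv j) + q + X : ℕ) : ℝ) ≤ Nb j) →
        (∀ j, Nb j ≤ (γ (mv j) + q + (X + mm) : ℕ)) → (∀ u, Xt u = X) →
        Det p (fun ω => ((Vm F c mv w H Nb ω, Mu F c tg qt w γ H ω),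
          ((adV F c mv tg qt Xt q w W X mm γ gg H z).T ω,
            (adV F c mv tg qt Xt q w W X mm γ gg H z).g K ω))) Bs →
        MI p (Mm F c tg w H (fun u => γ (tg u) + qt u + Xt u)) (fun ω => (Vm F c mv w H Nb ω,
          ((adV F c mv tg qt Xt q w W X mm γ gg H z).T ω,
            (adV F c mv tg qt Xt q w W X mm γ gg H z).g K ω))) Bs ≤ ι * X →
        (∀ E : Set F.Ω, π₀ ≤ Pr p E → CH (rs p E)
          (Mm F c tg w H (fun u => γ (tg u) + qt u + Xt u))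
          (fun ω => ((Vm F c mv w H Nb ω, Mu F c tg qt w γ H ω), (rt F W ω, z ω))) ≤ Ur) →
        (∀ E : Set F.Ω, π₀ ≤ Pr p E → CH (rs p E)
          (fun ω u => Mm F c tg w H (fun u => γ (tg u) + qt u + Xt u) ω u / 2 ^ (mm + t))
          (fun ω => ((Vm F c mv w H Nb ω, Mu F c tg qt w γ H ω), (rt F W ω, z ω))) ≤ Ur') →
        FIh p (slam F W)
          (fun ω => ((Vm F c mv w H Nb ω, Mu F c tg qt w γ H ω), (rt F W ω, z ω)))
          (Mm F c tg w H (fun u => γ (tg u) + qt u + Xt u)) Bs (mm + t)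
          ((2 : ℝ) ^ (h ^ 2 / 16 * X)) b₁ π₀ →
        TimW F p W j₀ ε₀ ψ → Det p (slam F W) z → X₀ ≤ X → W + X ≤ J → ψ * J ≤ ι * X →
        (mm : ℝ) ≤ ι * X → Evn 2 k K U e ≤ ι * X → t ≤ X →
        (X : ℝ) - t ≤ la h * X → la h * X ≤ (X : ℝ) - t + h / 16 * X →
        Ur ≤ (2 - h) * X * Real.log 2 + ι * X →
        Ur' ≤ (2 - h) * ((X : ℝ) - t) * Real.log 2 + ι * X →
        ((X : ℝ) - t) * Real.log 2 - ι * X ≤ b₁ →
        ∃ mu : LnT F → Fin k → Polynomial ℝ,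
          (∀ s j, (mu s j).natDegree ≤ K) ∧
          (∀ s j (u : ℝ), |(mu s j).eval u| ≤ (K + 1) * (|u| + 1) ^ K * (2 : ℝ) ^ (σ * X)) ∧
          Pb p (fun ω => ∃ j, (2 : ℝ) ^ (-(x₀ * X)) <
            |gg ω 0 j - (mu (slam F W ω) j).eval (rt F W ω)|) ≤ ε ∧
          ∀ Y : ℕ, (Y : ℝ) ≤ x₀ * X → CH p (fun ω (v : Fin (K + 1) × Fin k) =>
              ⌊(2 : ℝ) ^ Y * (mu (slam F W ω) v.2).coeff v.1⌋)
            ((adV F c mv tg qt Xt q w W X mm γ gg H z).g K) ≤ ε * X := by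
  classical
  have hk0 : (0 : ℝ) ≤ k := Nat.cast_nonneg k
  have hh2 : h ^ 2 ≤ 1 := pow_le_one₀ hh.le hh1
  obtain ⟨δ, hδ⟩ : ∃ δ : ℝ, δ = (h ^ 2 / 16 - x₀) / 2 := ⟨_, rfl⟩
  have hδ0 : 0 < δ := by rw [hδ]; linarith
  obtain ⟨x₁, hx₁⟩ : ∃ x₁ : ℝ, x₁ = x₀ + δ := ⟨_, rfl⟩
  obtain ⟨ι₀, π₀, hι₀, hπ₀, X1, hX1⟩ := vd_u k K hK (x₀ := x₁) (CB := k + 1) hh hh1
    (by rw [hx₁]; linarith) (by rw [hx₁, hδ]; linarith) hσ hε (by positivity)
  obtain ⟨ι, hι⟩ : ∃ ι : ℝ, ι = ι₀ / 2 := ⟨_, rfl⟩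
  have hιp : 0 < ι := by rw [hι]; linarith
  obtain ⟨X3, hX3⟩ := exists_nat_ge (2 / δ)
  refine ⟨ι, π₀, hιp, hπ₀, max X1 X3, ?_⟩
  intro m J F c mv tg qt Xt q w W X mm D γ B G₀ H gg ζ ζ' υ' χ₁ χ₂ ρ₁ ρ₂ σ' z zw Yc Cj Cx Rj Rx Bs
    Nb p Nf Nn Nx Nu Nv Mf Mn U e P Ur Ur' b₁ ψ ε₀ j₀ t hN1 hN2 hXt hBs hfew hrow hrow' hfi hT hz
    hX hJ hψ hmm hEv htX t1 t2 hUr hUr' hb₁
  have hp := P.law
  have h0 := hp.nonneg
  have hXR : (0 : ℝ) ≤ X := Nat.cast_nonneg _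
  have hXa : X1 ≤ X := (le_max_left _ _).trans hX
  have n3 : 2 ≤ δ * X := by
    have h1 : (X3 : ℝ) ≤ X := by exact_mod_cast (le_max_right _ _).trans hX
    have h2 := hX3.trans h1
    rw [div_le_iff₀ hδ0] at h2
    linarith
  have hιX : ι * X + ι * X = ι₀ * X := by rw [hι]; ring
  have hιX0 : 0 ≤ ι * X := by positivity
  have hyp := P.hypm hN1 hN2
  have hLs := adV_L (c := c) (mv := mv) (tg := tg) (qt := qt) (Xt := Xt) (q := q) (w := w)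
    (X := X) (mm := mm) (γ := γ) (gg := gg) (H := H) p hz K
  have hbbr := fun (ω : F.Ω) (u : Fin 2) (j : Fin k) => adV_bbr (c := c) (mv := mv) (tg := tg)
    (qt := qt) (Xt := Xt) (q := q) (w := w) (W := W) (X := X) (mm := mm) (γ := γ) (gg := gg)
    (H := H) (z := z) ω u j
  have hup : ∀ ω, (fun u => Mm F c tg w H (fun u => γ (tg u) + qt u + Xt u) ω u / 2 ^ X) =
      Mu F c tg qt w γ H ω := by
    intro ω
    funext u
    show Mh F c (tg u) w H (γ (tg u) + qt u + Xt u) ω / 2 ^ X = _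
    rw [hXt u, mh_up]
    rfl
  have hWn : ∀ ω, Wn X (Vm F c mv w H Nb)
      (Mm F c tg w H (fun u => γ (tg u) + qt u + Xt u)) ω =
      (Vm F c mv w H Nb ω, Mu F c tg qt w γ H ω) := fun ω => Prod.ext rfl (hup ω)
  have hth : (adV F c mv tg qt Xt q w W X mm γ gg H z).th = rt F W := rfl
  have hWS : (fun ω => (Wn X (Vm F c mv w H Nb)
        (Mm F c tg w H (fun u => γ (tg u) + qt u + Xt u)) ω,
          ((adV F c mv tg qt Xt q w W X mm γ gg H z).th ω,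
          (adV F c mv tg qt Xt q w W X mm γ gg H z).z ω))) =
      fun ω => ((Vm F c mv w H Nb ω, Mu F c tg qt w γ H ω), (rt F W ω, z ω)) := by
    funext ω
    rw [hWn]
    rfl
  have hBs' : Det p (fun ω => (Wn X (Vm F c mv w H Nb)
        (Mm F c tg w H (fun u => γ (tg u) + qt u + Xt u)) ω,
          ((adV F c mv tg qt Xt q w W X mm γ gg H z).T ω,
          (adV F c mv tg qt Xt q w W X mm γ gg H z).g K ω))) Bs := by
    intro ω ν hω hν e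
    obtain ⟨e1, e2⟩ := Prod.ext_iff.mp e
    have e5 : Wn X (Vm F c mv w H Nb) (Mm F c tg w H (fun u => γ (tg u) + qt u + Xt u)) ω =
      Wn X (Vm F c mv w H Nb) (Mm F c tg w H (fun u => γ (tg u) + qt u + Xt u)) ν := e1
    rw [hWn, hWn] at e5
    exact hBs ω ν hω hν (Prod.ext e5 e2)
  have htime : X * Real.log 2 - ι₀ * X ≤
      CH p (fun ω => ⌊(2 : ℝ) ^ X * (adV F c mv tg qt Xt q w W X mm γ gg H z).th ω⌋)
        ((adV F c mv tg qt Xt q w W X mm γ gg H z).L K) := by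
    have h1 := hT.f X hJ
    have h2 : CH p (fun ω => ⌊(2 : ℝ) ^ X * F.tw W ω⌋) (slam F W) ≤
        CH p (fun ω => ⌊(2 : ℝ) ^ X * F.tw W ω⌋)
          ((adV F c mv tg qt Xt q w W X mm γ gg H z).L K) := CH_mono_cond h0 hLs
    have hth : (adV F c mv tg qt Xt q w W X mm γ gg H z).th = F.tw W := by
      funext ω
      exact (tw_rt F P.WJ ω).symm
    rw [hth]
    linarith
  have hU1 := P.mU
  have hB : (k : ℝ) * (U + 1) + 1 ≤ (k + 1) * 2 ^ mm := by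
    have h1 : (k : ℝ) * (U + 1) ≤ k * 2 ^ mm := mul_le_mul_of_nonneg_left hU1 hk0
    have h2 : (1 : ℝ) ≤ 2 ^ mm := one_le_pow₀ (by norm_num)
    linarith
  have he2 : Evn 2 k K U e ≤ ι₀ * X := by linarith
  have hyp2 : (adV F c mv tg qt Xt q w W X mm γ gg H z).Hyp K p Rj Rx
      (fun ω => (jetm F c mv w H Nn ω, fun u => pr2 F c w H (tg u) (Mn u) ω))
      (jetm F c mv w H Nx)
      (fun ω => (jetm F c mv w H Nf ω, fun u => pr2 F c w H (tg u) (Mf u) ω))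
      (jetm F c mv w H Nf) (Vm F c mv w H Nb)
      (Mm F c tg w H (fun u => γ (tg u) + qt u + Xt u))
      (k * (X * Real.log 2) + k * cV K) (ι₀ * X) (k * (U + 1) + 1) := hyp.mono he2
  have hfi2 : FIh p ((adV F c mv tg qt Xt q w W X mm γ gg H z).L K)
      (fun ω => (Wn X (Vm F c mv w H Nb)
        (Mm F c tg w H (fun u => γ (tg u) + qt u + Xt u)) ω,
          ((adV F c mv tg qt Xt q w W X mm γ gg H z).th ω,
          (adV F c mv tg qt Xt q w W X mm γ gg H z).z ω)))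
      (Mm F c tg w H (fun u => γ (tg u) + qt u + Xt u)) Bs (mm + t)
      ((2 : ℝ) ^ (h ^ 2 / 16 * X)) b₁ π₀ := by
    rw [hWS]
    exact fih_det hp hLs hfi
  obtain ⟨mu, m1, m2, m3, m6⟩ := hX1 p
    (adV F c mv tg qt Xt q w W X mm γ gg H z) Rj Rx _ _ _ _ (Vm F c mv w H Nb) _ Bs _ (ι₀ * X)
    (k * (U + 1) + 1) Ur Ur' b₁ t hXa hyp2 htime hBs' (hfew.trans (by linarith))
    (fun G hG => by
      have h1 := hrow {ω | G ω} hG
      rw [← hWS] at h1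
      exact h1)
    (fun G hG => by
      have h1 := hrow' {ω | G ω} hG
      rw [← hWS] at h1
      exact h1) hfi2 le_rfl
    (hmm.trans (by
      show ι * X ≤ ι₀ * X
      linarith)) hB htX t1 t2 (by
      show Ur ≤ (2 - h) * X * Real.log 2 + ι₀ * X
      linarith) (by
      show Ur' ≤ (2 - h) * ((X : ℝ) - t) * Real.log 2 + ι₀ * X
      linarith) (by
      show ((X : ℝ) - t) * Real.log 2 - ι₀ * X ≤ b₁
      linarith)
  obtain ⟨f, hf1, hf2⟩ := lift_line hLs mu (fun _ => 0)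
  refine ⟨f, fun s j => ?_, fun s j u => ?_, le_trans (Pb_le_Pb h0 ?_) m3, fun Y hY => ?_⟩
  · rcases hf1 s with h1 | ⟨a, h1⟩
    · rw [h1]
      simp
    · rw [h1]
      exact m1 a j
  · rcases hf1 s with h1 | ⟨a, h1⟩
    · rw [h1]
      simp only [Polynomial.eval_zero, abs_zero]
      positivity
    · rw [h1]
      exact m2 a j u
  · rintro ω hω ⟨j, hj⟩
    refine ⟨j, ?_⟩
    rw [hf2 ω hω] at hj
    obtain ⟨a, ha⟩ : ∃ a, a = (adV F c mv tg qt Xt q w W X mm γ gg H z).L K ω := ⟨_, rfl⟩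
    rw [← ha] at hj
    show (2 : ℝ) ^ (-(x₁ * X)) <
      |(adV F c mv tg qt Xt q w W X mm γ gg H z).bb ω 0 j -
      (mu ((adV F c mv tg qt Xt q w W X mm γ gg H z).L K ω) j).eval (rt F W ω)|
    rw [← ha]
    have e5 : (1 : ℝ) / 2 ^ X ≤ 2 ^ (-(x₁ * X)) := by
      rw [one_div, ← Real.rpow_natCast, ← Real.rpow_neg two_pos.le]
      refine Real.rpow_le_rpow_of_exponent_le one_le_two ?_
      have h1 : x₁ ≤ 1 := by
        rw [hx₁, hδ]
        linarith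
      have h2 : x₁ * X ≤ 1 * X := mul_le_mul_of_nonneg_right h1 hXR
      linarith
    have e7 : 4 * (2 : ℝ) ^ (-(x₁ * X)) ≤ 2 ^ (-(x₀ * X)) := by
      have h1 : 4 * (2 : ℝ) ^ (-(x₁ * X)) = 2 ^ (2 + -(x₁ * X)) := by
        rw [Real.rpow_add two_pos]
        norm_num
      rw [h1]
      refine Real.rpow_le_rpow_of_exponent_le one_le_two ?_
      rw [hx₁]
      linarith
    have e9 := abs_sub_le (gg ω 0 j) ((adV F c mv tg qt Xt q w W X mm γ gg H z).bb ω 0 j)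
      ((mu a j).eval (rt F W ω))
    have e8 := hbbr ω 0 j
    have e6 : 0 < (2 : ℝ) ^ (-(x₁ * X)) := Real.rpow_pos_of_pos two_pos _
    linarith
  · have hY1 : (Y : ℝ) ≤ x₁ * X := by
      refine hY.trans (mul_le_mul_of_nonneg_right ?_ hXR)
      rw [hx₁]
      linarith
    refine le_trans (CH_mono_left h0 fun ω ν a b e => ?_) (m6 Y hY1)
    have e1 := (Prod.ext_iff.mp e).1
    show (fun v : Fin (K + 1) × Fin k => ⌊(2 : ℝ) ^ Y * (f (slam F W ω) v.2).coeff v.1⌋) =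
      fun v => ⌊(2 : ℝ) ^ Y * (f (slam F W ν) v.2).coeff v.1⌋
    rw [hf2 ω a, hf2 ν b]
    exact e1

end Pool.DIR16
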