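import Pool.Agent.H16.DIR.Vda
import Pool.Agent.H16.DIR.Pv

/-!
# DIR: a closed combination of the gradients of two places, on one event

`pv_alt`: from the inputs `PrV` for two places, the rows of both places on the whole block and on the
block of the upper digits, and fullness of the digits of `M 1 - ka M 0` for all closed slopes `ka` of
size at most `2 ^ (-del X)`: on an event of mass at least `1 / 16` the gradient of the place `0` minus
`ka` times the gradient of the place `1` in the directions of the moved places is closed, for a closed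
slope `ka` of size at most `2 ^ (del X)`.
-/

set_option autoImplicit false

namespace Pool.DIR16

open Finset Real MvPolynomial
open Pool.Agent.H49.Ent Pool.Agent.H32.Dense Pool.STK Pool.KA Pool.KSAT Pool.K2S Pool.PB Pool.S6C
open Pool.GEN Pool.CHT Pool.CHX Pool.ISO Pool.LA91 Pool.AVG71 Pool.AVG5 Pool.D2F2 Pool.AVG57
open Pool.PB.Trl (rt rt_mem t_rt)
open Pool.D2R (hgt)
open Pool.KVA (MI)
open Pool.KAF (rs Pr)
open Pool.BFL (Pb)
open Pool.LV64

variable {m J : ℕ}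

/-- **A closed combination of the gradients of two places**, on one event. -/
theorem pv_alt (k K : ℕ) (hK : 1 ≤ K) {h del x₀ σ : ℝ} (hh : 0 < h) (hh1 : h ≤ 1)
    (hd : 0 < del) (hx : 0 < x₀) (hxh : x₀ + del < h ^ 2 / 16) (hσ : 0 < σ) :
    ∃ ι π₀ : ℝ, 0 < ι ∧ 0 < π₀ ∧ ∃ X₀ : ℕ,
      ∀ {m J : ℕ} {F : Fam m J} {c : ℕ → Fin m} {mv : Fin k → ℕ} {tg qt Xt : Fin 2 → ℕ}
        {q w W X mm D : ℕ} {γ : ℕ → ℕ} {B : F.Ω → Prop}
        {G₀ : PtT F → ℕ → MvPolynomial (Option (Fin m)) ℝ}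
        {H : LnT F → ℕ → MvPolynomial (Option (Fin m)) ℝ} {gg : F.Ω → Fin 2 → Fin k → ℝ}
        {ζ ζ' υ' χ₁ χ₂ ρ₁ ρ₂ σ' : Type} {z : F.Ω → ζ} {zw : F.Ω → ζ'} {Yc : F.Ω → υ'}
        {Cj : F.Ω → χ₁} {Cx : F.Ω → χ₂} {Rj : F.Ω → ρ₁} {Rx : F.Ω → ρ₂} {Bs : F.Ω → σ'}
        {Nb : Fin k → ℝ} {p : F.Ω → ℝ} {Nf Nn Nx Nu Nv : Fin k → ℕ → ℝ}
        {Mf Mn : Fin 2 → ℕ → ℝ} {U e : ℝ}
        (_ : PrV F c mv tg qt Xt q w W X mm D K γ B G₀ H gg z zw Yc Cj Cx Rj Rx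
          (Vm F c mv w H Nb) p Nf Nn Nx Nu Nv Mf Mn U (k * (X * Real.log 2)) e)
        {Ur Ur' b₁ ψ ε₀ : ℝ} {j₀ t : ℕ}, (∀ j, ((γ (mv j) + q + X : ℕ) : ℝ) ≤ Nb j) →
        (∀ j, Nb j ≤ (γ (mv j) + q + (X + mm) : ℕ)) → (∀ u, Xt u = X) →
        Det p (fun ω => ((Vm F c mv w H Nb ω, Mu F c tg qt w γ H ω),
          ((adV F c mv tg qt Xt q w W X mm γ gg H z).T ω,
            (adV F c mv tg qt Xt q w W X mm γ gg H z).g K ω))) Bs →
        MI p (Mm F c tg w H (fun u => γ (tg u) + qt u + Xt u)) (fun ω => (Vm F c mv w H Nb ω,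
          ((adV F c mv tg qt Xt q w W X mm γ gg H z).T ω,
            (adV F c mv tg qt Xt q w W X mm γ gg H z).g K ω))) Bs ≤ ι * X →
        (∀ E : Set F.Ω, π₀ ≤ Pr p E → CH (rs p E)
          (Mm F c tg w H (fun u => γ (tg u) + qt u + Xt u))
          (fun ω => ((Vm F c mv w H Nb ω, Mu F c tg qt w γ H ω), (rt F W ω, z ω))) ≤ Ur) →
        (∀ E : Set F.Ω, π₀ ≤ Pr p E → CH (rs p E)
          (fun ω u => Mm F c tg w H (fun u => γ (tg u) + qt u + Xt u) ω u / 2 ^ (mm + t))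
          (fun ω => ((Vm F c mv w H Nb ω, Mu F c tg qt w γ H ω), (rt F W ω, z ω))) ≤ Ur') →
        FIh p (slam F W)
          (fun ω => ((Vm F c mv w H Nb ω, Mu F c tg qt w γ H ω), (rt F W ω, z ω)))
          (Mm F c tg w H (fun u => γ (tg u) + qt u + Xt u)) Bs (mm + t)
          ((2 : ℝ) ^ (-(del * X))) b₁ π₀ →
        TimW F p W j₀ ε₀ ψ → Det p (slam F W) z → X₀ ≤ X → W + X ≤ J → ψ * J ≤ ι * X →
        (mm : ℝ) ≤ ι * X → Evn 2 k K U e ≤ ι * X → t ≤ X →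
        (X : ℝ) - t ≤ la h * X → la h * X ≤ (X : ℝ) - t + h / 16 * X →
        Ur ≤ (2 - h) * X * Real.log 2 + ι * X →
        Ur' ≤ (2 - h) * ((X : ℝ) - t) * Real.log 2 + ι * X →
        ((X : ℝ) - t) * Real.log 2 - ι * X ≤ b₁ →
        ∃ (kL : LnT F → ℤ) (kP : (Fin 2 → ℤ) × σ' → ℤ) (ka : ℤ → ℝ)
          (mu : LnT F → Fin k → Polynomial ℝ) (G : F.Ω → Prop),
          (∀ l, |ka l| ≤ (2 : ℝ) ^ (del * X)) ∧ 1 / 16 ≤ Pe p G ∧
          (∀ s j, (mu s j).natDegree ≤ K) ∧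
          (∀ s j (u : ℝ), |(mu s j).eval u| ≤
            (K + 1) * (|u| + 1) ^ K * (2 : ℝ) ^ ((σ + del) * X)) ∧
          ∀ ω, 0 < p ω → G ω →
            kL (slam F W ω) = kP (Mm F c tg w H (fun u => γ (tg u) + qt u + Xt u) ω, Bs ω) ∧
            ∀ j, |gg ω 0 j - ka (kL (slam F W ω)) * gg ω 1 j -
              (mu (slam F W ω) j).eval (rt F W ω)| ≤ (2 : ℝ) ^ (-(x₀ * X)) := by
  classical
  have hk0 : (0 : ℝ) ≤ k := Nat.cast_nonneg k
  have hh2 : h ^ 2 ≤ 1 := pow_le_one₀ hh.le hh1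
  obtain ⟨δ, hδ⟩ : ∃ δ : ℝ, δ = (h ^ 2 / 16 - del - x₀) / 2 := ⟨_, rfl⟩
  have hδ0 : 0 < δ := by rw [hδ]; linarith
  obtain ⟨x₁, hx₁⟩ : ∃ x₁ : ℝ, x₁ = x₀ + δ := ⟨_, rfl⟩
  obtain ⟨ι₀, π₀, hι₀, hπ₀, X1, hX1⟩ := vd_alt k K hK (x₀ := x₁) (CB := k + 1) hh hh1 hd
    (by rw [hx₁]; linarith) (by rw [hx₁, hδ]; linarith) hσ (by positivity)
  obtain ⟨ι, hι⟩ : ∃ ι : ℝ, ι = ι₀ / 2 := ⟨_, rfl⟩
  have hιp : 0 < ι := by rw [hι]; linarith
  obtain ⟨X3, hX3⟩ := exists_nat_ge (2 / δ)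
  refine ⟨ι, π₀, hιp, hπ₀, max X1 X3, ?_⟩
  intro m J F c mv tg qt Xt q w W X mm D γ B G₀ H gg ζ ζ' υ' χ₁ χ₂ ρ₁ ρ₂ σ' z zw Yc Cj Cx Rj Rx Bs
    Nb p Nf Nn Nx Nu Nv Mf Mn U e P Ur Ur' b₁ ψ ε₀ j₀ t hN1 hN2 hXt hBs hfew hrow hrow' hfi hT hz
    hX hJ hψ hmm hEv htX t1 t2 hUr hUr' hb₁
  have hp := P.law
  have h0 := hp.nonneg
  have hXR : (0 : ℝ) ≤ X := Nat.cast_nonneg _
  have hXa : X1 ≤ X := (le_max_left _ _).trans hX
  have n3 : 2 ≤ δ * X := by
    have h1 : (X3 : ℝ) ≤ X := by exact_mod_cast (le_max_right _ _).trans hX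
    have h2 := hX3.trans h1
    rw [div_le_iff₀ hδ0] at h2
    linarith
  have hιX : ι * X + ι * X = ι₀ * X := by rw [hι]; ring
  have hιX0 : 0 ≤ ι * X := by positivity
  have hyp := P.hypm hN1 hN2
  have hLs := adV_L (c := c) (mv := mv) (tg := tg) (qt := qt) (Xt := Xt) (q := q) (w := w)
    (X := X) (mm := mm) (γ := γ) (gg := gg) (H := H) p hz K
  have hbbr := fun (ω : F.Ω) (u : Fin 2) (j : Fin k) => adV_bbr (c := c) (mv := mv) (tg := tg)
    (qt := qt) (Xt := Xt) (q := q) (w := w) (W := W) (X := X) (mm := mm) (γ := γ) (gg := gg)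
    (H := H) (z := z) ω u j
  have hup : ∀ ω, (fun u => Mm F c tg w H (fun u => γ (tg u) + qt u + Xt u) ω u / 2 ^ X) =
      Mu F c tg qt w γ H ω := by
    intro ω
    funext u
    show Mh F c (tg u) w H (γ (tg u) + qt u + Xt u) ω / 2 ^ X = _
    rw [hXt u, mh_up]
    rfl
  have hWn : ∀ ω, Wn X (Vm F c mv w H Nb)
      (Mm F c tg w H (fun u => γ (tg u) + qt u + Xt u)) ω =
      (Vm F c mv w H Nb ω, Mu F c tg qt w γ H ω) := fun ω => Prod.ext rfl (hup ω)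
  have hth : (adV F c mv tg qt Xt q w W X mm γ gg H z).th = rt F W := rfl
  have hWS : (fun ω => (Wn X (Vm F c mv w H Nb)
        (Mm F c tg w H (fun u => γ (tg u) + qt u + Xt u)) ω,
          ((adV F c mv tg qt Xt q w W X mm γ gg H z).th ω,
          (adV F c mv tg qt Xt q w W X mm γ gg H z).z ω))) =
      fun ω => ((Vm F c mv w H Nb ω, Mu F c tg qt w γ H ω), (rt F W ω, z ω)) := by
    funext ω
    rw [hWn]
    rfl
  have hBs' : Det p (fun ω => (Wn X (Vm F c mv w H Nb)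
        (Mm F c tg w H (fun u => γ (tg u) + qt u + Xt u)) ω,
          ((adV F c mv tg qt Xt q w W X mm γ gg H z).T ω,
          (adV F c mv tg qt Xt q w W X mm γ gg H z).g K ω))) Bs := by
    intro ω ν hω hν e
    obtain ⟨e1, e2⟩ := Prod.ext_iff.mp e
    have e5 : Wn X (Vm F c mv w H Nb) (Mm F c tg w H (fun u => γ (tg u) + qt u + Xt u)) ω =
      Wn X (Vm F c mv w H Nb) (Mm F c tg w H (fun u => γ (tg u) + qt u + Xt u)) ν := e1
    rw [hWn, hWn] at e5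
    exact hBs ω ν hω hν (Prod.ext e5 e2)
  have htime : X * Real.log 2 - ι₀ * X ≤
      CH p (fun ω => ⌊(2 : ℝ) ^ X * (adV F c mv tg qt Xt q w W X mm γ gg H z).th ω⌋)
        ((adV F c mv tg qt Xt q w W X mm γ gg H z).L K) := by
    have h1 := hT.f X hJ
    have h2 : CH p (fun ω => ⌊(2 : ℝ) ^ X * F.tw W ω⌋) (slam F W) ≤
        CH p (fun ω => ⌊(2 : ℝ) ^ X * F.tw W ω⌋)
          ((adV F c mv tg qt Xt q w W X mm γ gg H z).L K) := CH_mono_cond h0 hLs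
    have hth : (adV F c mv tg qt Xt q w W X mm γ gg H z).th = F.tw W := by
      funext ω
      exact (tw_rt F P.WJ ω).symm
    rw [hth]
    linarith
  have hU1 := P.mU
  have hB : (k : ℝ) * (U + 1) + 1 ≤ (k + 1) * 2 ^ mm := by
    have h1 : (k : ℝ) * (U + 1) ≤ k * 2 ^ mm := mul_le_mul_of_nonneg_left hU1 hk0
    have h2 : (1 : ℝ) ≤ 2 ^ mm := one_le_pow₀ (by norm_num)
    linarith
  have he2 : Evn 2 k K U e ≤ ι₀ * X := by linarith
  have hyp2 : (adV F c mv tg qt Xt q w W X mm γ gg H z).Hyp K p Rj Rx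
      (fun ω => (jetm F c mv w H Nn ω, fun u => pr2 F c w H (tg u) (Mn u) ω))
      (jetm F c mv w H Nx)
      (fun ω => (jetm F c mv w H Nf ω, fun u => pr2 F c w H (tg u) (Mf u) ω))
      (jetm F c mv w H Nf) (Vm F c mv w H Nb)
      (Mm F c tg w H (fun u => γ (tg u) + qt u + Xt u))
      (k * (X * Real.log 2) + k * cV K) (ι₀ * X) (k * (U + 1) + 1) := hyp.mono he2
  have hfi2 : FIh p ((adV F c mv tg qt Xt q w W X mm γ gg H z).L K)
      (fun ω => (Wn X (Vm F c mv w H Nb)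
        (Mm F c tg w H (fun u => γ (tg u) + qt u + Xt u)) ω,
          ((adV F c mv tg qt Xt q w W X mm γ gg H z).th ω,
          (adV F c mv tg qt Xt q w W X mm γ gg H z).z ω)))
      (Mm F c tg w H (fun u => γ (tg u) + qt u + Xt u)) Bs (mm + t)
      ((2 : ℝ) ^ (-(del * X))) b₁ π₀ := by
    rw [hWS]
    exact fih_det hp hLs hfi
  obtain ⟨kL, kP, ka, mu, m0, m1, m2, m3⟩ := hX1 p
    (adV F c mv tg qt Xt q w W X mm γ gg H z) Rj Rx _ _ _ _ (Vm F c mv w H Nb) _ Bs _ (ι₀ * X)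
    (k * (U + 1) + 1) Ur Ur' b₁ t hXa hyp2 htime hBs' (hfew.trans (by linarith))
    (fun G hG => by
      have h1 := hrow {ω | G ω} hG
      rw [← hWS] at h1
      exact h1)
    (fun G hG => by
      have h1 := hrow' {ω | G ω} hG
      rw [← hWS] at h1
      exact h1) hfi2 le_rfl
    (hmm.trans (by
      show ι * X ≤ ι₀ * X
      linarith)) hB htX t1 t2 (by
      show Ur ≤ (2 - h) * X * Real.log 2 + ι₀ * X
      linarith) (by
      show Ur' ≤ (2 - h) * ((X : ℝ) - t) * Real.log 2 + ι₀ * X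
      linarith) (by
      show ((X : ℝ) - t) * Real.log 2 - ι₀ * X ≤ b₁
      linarith)
  obtain ⟨f, hf1, hf2⟩ := lift_line hLs mu (fun _ => 0)
  obtain ⟨fk, -, hfk⟩ := lift_line hLs kL 0
  refine ⟨fk, kP, ka, f, fun ω => kL ((adV F c mv tg qt Xt q w W X mm γ gg H z).L K ω) =
      kP (Mm F c tg w H (fun u => γ (tg u) + qt u + Xt u) ω, Bs ω) ∧
    ∀ j, |(adV F c mv tg qt Xt q w W X mm γ gg H z).bb ω 0 j -
      ka (kL ((adV F c mv tg qt Xt q w W X mm γ gg H z).L K ω)) *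
        (adV F c mv tg qt Xt q w W X mm γ gg H z).bb ω 1 j -
      (mu ((adV F c mv tg qt Xt q w W X mm γ gg H z).L K ω) j).eval (rt F W ω)| ≤
        (2 : ℝ) ^ (-(x₁ * X)), m0, m3, fun s j => ?_, fun s j u => ?_, ?_⟩
  · rcases hf1 s with h1 | ⟨a, h1⟩
    · rw [h1]
      simp
    · rw [h1]
      exact m1 a j
  · rcases hf1 s with h1 | ⟨a, h1⟩
    · rw [h1]
      simp only [Polynomial.eval_zero, abs_zero]
      positivity
    · rw [h1]
      exact m2 a j u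
  · rintro ω hω ⟨g1, g2⟩
    rw [hf2 ω hω, hfk ω hω]
    refine ⟨g1, fun j => ?_⟩
    have hj := g2 j
    obtain ⟨a, ha⟩ : ∃ a, a = (adV F c mv tg qt Xt q w W X mm γ gg H z).L K ω := ⟨_, rfl⟩
    rw [← ha] at hj ⊢
    have hka := m0 (kL a)
    obtain ⟨x, hx'⟩ : ∃ x, x = ka (kL a) := ⟨_, rfl⟩
    rw [← hx'] at hj hka ⊢
    have e5 : (2 : ℝ) ^ (del * X) / 2 ^ X ≤ 2 ^ (-(x₁ * X)) := by
      rw [← Real.rpow_natCast, ← Real.rpow_sub two_pos]
      refine Real.rpow_le_rpow_of_exponent_le one_le_two ?_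
      have h1 : x₁ + del ≤ 1 := by
        rw [hx₁, hδ]
        linarith
      have h2 := mul_le_mul_of_nonneg_right h1 hXR
      linarith
    have e6 : (1 : ℝ) ≤ (2 : ℝ) ^ (del * X) := Real.one_le_rpow one_le_two (by positivity)
    have e7 : 4 * (2 : ℝ) ^ (-(x₁ * X)) ≤ 2 ^ (-(x₀ * X)) := by
      have h1 : 4 * (2 : ℝ) ^ (-(x₁ * X)) = 2 ^ (2 + -(x₁ * X)) := by
        rw [Real.rpow_add two_pos]
        norm_num
      rw [h1]
      refine Real.rpow_le_rpow_of_exponent_le one_le_two ?_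
      rw [hx₁]
      linarith
    have e8 := hbbr ω 0 j
    have e9 := hbbr ω 1 j
    have hX2 : (0 : ℝ) < 2 ^ X := by positivity
    have e10 : 1 / (2 : ℝ) ^ X ≤ 2 ^ (-(x₁ * X)) :=
      (div_le_div_of_nonneg_right e6 hX2.le).trans e5
    have e11 : |x * (gg ω 1 j - (adV F c mv tg qt Xt q w W X mm γ gg H z).bb ω 1 j)| ≤
        2 ^ (-(x₁ * X)) := by
      rw [abs_mul]
      refine (mul_le_mul hka e9 (abs_nonneg _) (by positivity)).trans ?_
      rw [mul_one_div]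
      exact e5
    have e12 : gg ω 0 j - x * gg ω 1 j - (mu a j).eval (rt F W ω) =
        ((adV F c mv tg qt Xt q w W X mm γ gg H z).bb ω 0 j -
          x * (adV F c mv tg qt Xt q w W X mm γ gg H z).bb ω 1 j -
          (mu a j).eval (rt F W ω)) +
        (gg ω 0 j - (adV F c mv tg qt Xt q w W X mm γ gg H z).bb ω 0 j) -
        x * (gg ω 1 j - (adV F c mv tg qt Xt q w W X mm γ gg H z).bb ω 1 j) := by ring
    rw [e12]
    refine (abs_sub _ _).trans ?_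
    have e13 := abs_add_le ((adV F c mv tg qt Xt q w W X mm γ gg H z).bb ω 0 j -
          x * (adV F c mv tg qt Xt q w W X mm γ gg H z).bb ω 1 j -
          (mu a j).eval (rt F W ω))
        (gg ω 0 j - (adV F c mv tg qt Xt q w W X mm γ gg H z).bb ω 0 j)
    have e14 : 0 < (2 : ℝ) ^ (-(x₁ * X)) := Real.rpow_pos_of_pos two_pos _
    linarith

end Pool.DIR16
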