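import Pool.Agent.H16.DIR.Qu
import Pool.Agent.H16.DIR.Par

/-!
# DIR: a closed combination of the vectors of `n + 2` times

`SDir`: the hypotheses of DIR with a row of the upper digits and fullness of the digits of
`Z 1 - ka Z 0` for the closed slopes `ka` of size at most `2 ^ (-del X)`. `qh_aad`: on many lines there
is a closed slope `ka` of size at most `2 ^ (del X)` such that the first coordinate minus `ka` times
the second coordinate of the vector of `n + 2` times is small.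
-/

set_option autoImplicit false

namespace Pool.DIR16

open Finset Real Matrix
open Pool.Agent.H49.Ent Pool.Agent.H32.Dense Pool.STK Pool.POT Pool.FAD Pool.SLO Pool.TQ
open Pool.K2S (Pe)
open Pool.DIR21
open Pool.BFL (Pb)
open Pool.BD64 (QHd body_dcs)
open Pool.TT37 (dd)
open Pool.FS21 (okd_mi line_det okd_mono)

variable {k n : ℕ}

/-- **The hypotheses.** -/
structure SDir (H : QHd 2 k n) {ρ β σ : Type} (S : H.Ω → ρ) (Wd : H.Ω → β) (Z : H.Ω → Fin 2 → ℤ)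
    (Bs : H.Ω → σ) (X t : ℕ) (C d h del ϖ : ℝ) : Prop where
  dir : DirH H S Wd Z Bs X C d h ϖ
  tX : t ≤ X
  t1 : (X : ℝ) - t ≤ la h * X
  t2 : la h * X ≤ (X : ℝ) - t + h / 16 * X
  row : ∀ G : H.Ω → Prop, ϖ ≤ Pe H.p G → 0 < Pe H.p G →
    CH (cond H.p G True) (fun ω i => Z ω i / 2 ^ t) (fun ω => (Wd ω, S ω)) ≤
      (2 - h) * ((X : ℝ) - t) * Real.log 2 + d
  fi : FIh H.p H.line (fun ω => (Wd ω, S ω)) Z Bs t ((2 : ℝ) ^ (-(del * X)))
    (((X : ℝ) - t) * Real.log 2 - d) ϖ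

theorem SDir.mono {H : QHd 2 k n} {ρ β σ : Type} {S : H.Ω → ρ} {Wd : H.Ω → β}
    {Z : H.Ω → Fin 2 → ℤ} {Bs : H.Ω → σ} {X t : ℕ} {C d d' h del ϖ : ℝ}
    (hH : SDir H S Wd Z Bs X t C d h del ϖ) (hd : d ≤ d') :
    SDir H S Wd Z Bs X t C d' h del ϖ where
  dir := hH.dir.mono hd
  tX := hH.tX
  t1 := hH.t1
  t2 := hH.t2
  row := fun G h1 h2 => (hH.row G h1 h2).trans (by linarith)
  fi := fun kL kP ka B h1 h2 h3 h4 => le_trans (by linarith) (hH.fi kL kP ka B h1 h2 h3 h4)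

/-- The truncated slope of a code. -/
noncomputable def kc (Y : ℕ) (s B : ℝ) (j : ℤ) : ℝ := max (-B) (min B (((j : ℝ) - s) / 2 ^ Y))

theorem kc_le {Y : ℕ} {s B : ℝ} (hB : 0 ≤ B) (j : ℤ) : |kc Y s B j| ≤ B := by
  unfold kc
  rw [abs_le]
  exact ⟨le_max_left _ _, max_le (by linarith) (min_le_left _ _)⟩

theorem kc_near {Y : ℕ} {s B x : ℝ} (hx : |x| ≤ B) :
    |x - kc Y s B ⌊2 ^ Y * x + s⌋| ≤ 1 / 2 ^ Y := by
  have hY0 : (0 : ℝ) < 2 ^ Y := by positivity
  have h1 := Int.floor_le (2 ^ Y * x + s)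
  have h2 := Int.lt_floor_add_one (2 ^ Y * x + s)
  obtain ⟨y, hy⟩ : ∃ y : ℝ, y = ((⌊2 ^ Y * x + s⌋ : ℤ) - s) / 2 ^ Y := ⟨_, rfl⟩
  have h3 : |x - y| ≤ 1 / 2 ^ Y := by
    have e1 : x - y = (2 ^ Y * x + s - (⌊2 ^ Y * x + s⌋ : ℤ)) / 2 ^ Y := by
      rw [hy]
      field_simp
      ring
    rw [e1, abs_div, abs_of_pos hY0]
    refine div_le_div_of_nonneg_right ?_ hY0.le
    rw [abs_le]
    constructor <;> linarith
  refine le_trans ?_ h3
  unfold kc
  rw [← hy]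
  have hz' := abs_le.1 hx
  rcases le_total y B with c1 | c1
  · rw [min_eq_right c1]
    rcases le_total (-B) y with c2 | c2
    · rw [max_eq_right c2]
    · rw [max_eq_left c2, abs_of_nonneg (by linarith [hz'.1]),
        abs_of_nonneg (by linarith [hz'.1])]
      linarith
  · rw [min_eq_left c1, max_eq_right (by linarith), abs_of_nonpos (by linarith [hz'.2]),
      abs_of_nonpos (by linarith [hz'.2])]
    linarith

/-- A combination of the coordinates of a vector in the body. -/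
theorem cmb_dd {A : Matrix (Fin 2) (Fin 2) ℝ} (hA : A.det ≠ 0) {v : Fin 2 → ℝ} {K e x : ℝ}
    (hv : ∀ b, |(A⁻¹ *ᵥ v) b| ≤ K) (h : ∀ a, |A 0 a - x * A 1 a| ≤ e) :
    |v 0 - x * v 1| ≤ 2 * K * e := by
  have h1 := ell_dd hA (l := ![1, -x]) hv (e := e) (fun a => by
    simp only [Fin.sum_univ_two, Matrix.cons_val_zero, Matrix.cons_val_one,
      Matrix.cons_val_fin_one, one_mul, neg_mul, ← sub_eq_add_neg]
    exact h a)
  simpa [Fin.sum_univ_two, ← sub_eq_add_neg] using h1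

/-- **A closed combination of the vectors of `n + 2` times.** -/
theorem qh_aad (k n : ℕ) (hn : 1 ≤ n) {h del ε : ℝ} (hh : 0 < h) (hh1 : h ≤ 1) (hd : 0 < del)
    (hdh : del ≤ h ^ 2 / 16) (hε : 0 < ε) (hε1 : ε ≤ 1) :
    ∃ io ϖ : ℝ, 0 < io ∧ 0 < ϖ ∧ ∀ C : ℝ, 1 ≤ C → ∃ (K : ℝ) (X0 : ℕ), 0 < K ∧
    ∀ (H : QHd 2 k n) (ρ β σ' : Type) (S : H.Ω → ρ) (Wd : H.Ω → β) (Z : H.Ω → Fin 2 → ℤ)
      (Bs : H.Ω → σ') (X t : ℕ), X0 ≤ X → SDir H S Wd Z Bs X t C (io * X) h del ϖ →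
      ∃ (kL : (Fin 2 → ℤ) × (H.Vt × H.B) → ℤ) (kP : (Fin 2 → ℤ) × σ' → ℤ) (ka : ℤ → ℝ)
        (Q : (Fin 2 → ℤ) × (H.Vt × H.B) → Prop),
        (∀ j, |ka j| ≤ (2 : ℝ) ^ (del * X)) ∧ 1 / 8 ≤ Pe H.p (fun ω => Q (H.line ω)) ∧
        Pe H.p (fun ω => Q (H.line ω) ∧ kL (H.line ω) ≠ kP (Z ω, Bs ω)) ≤ ε ∧
        Pb (tup H.p H.line (n + 1)) (fun v => Q (H.line (v 0)) ∧
          ∃ u, K * (2 : ℝ) ^ (-((h ^ 2 / 16 - del) * X)) <
            |dd n H.tau H.E u (fun j => H.th (v j)) 0 - ka (kL (H.line (v 0))) *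
              dd n H.tau H.E u (fun j => H.th (v j)) 1|) ≤ ε := by
  classical
  have hL2 : 0 < Real.log 2 := Real.log_pos (by norm_num)
  have hL1 : Real.log 2 ≤ 1 := by
    have := Real.log_two_lt_d9
    linarith
  have hn0 : (0 : ℝ) ≤ n := Nat.cast_nonneg n
  obtain ⟨κ, hκ⟩ : ∃ κ : ℝ, κ = h ^ 2 / 16 := ⟨_, rfl⟩
  have hκ0 : 0 < κ := by rw [hκ]; positivity
  rw [← hκ] at hdh
  have hh2 : h ^ 2 ≤ h := by nlinarith
  have hκh : 16 * κ ≤ h := by rw [hκ]; linarith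
  obtain ⟨κ₁, hκ₁⟩ : ∃ κ₁ : ℝ, κ₁ = 3 / 4 * h := ⟨_, rfl⟩
  obtain ⟨g, hg⟩ : ∃ g : ℝ, g = κ * Real.log 2 := ⟨_, rfl⟩
  have hg0 : 0 < g := by rw [hg]; positivity
  have hg1 : g ≤ 1 := by
    rw [hg]
    calc κ * Real.log 2 ≤ 1 * 1 := mul_le_mul (by linarith) hL1 hL2.le zero_le_one
      _ = 1 := one_mul 1
  obtain ⟨δ₁, hδ₁⟩ : ∃ δ₁ : ℝ, δ₁ = ε / 4 := ⟨_, rfl⟩
  have hδ₁0 : 0 < δ₁ := by rw [hδ₁]; positivity
  have hδ₁1 : δ₁ ≤ 1 := by rw [hδ₁]; linarith
  obtain ⟨ε₂, hε₂⟩ : ∃ ε₂ : ℝ, ε₂ = 1 / 8 := ⟨_, rfl⟩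
  have hε₂0 : 0 < ε₂ := by rw [hε₂]; norm_num
  obtain ⟨ε₃, hε₃⟩ : ∃ ε₃ : ℝ, ε₃ = ε ^ 2 / 1024 := ⟨_, rfl⟩
  have hε₃0 : 0 < ε₃ := by rw [hε₃]; positivity
  have hεε : ε ^ 2 ≤ 1 := pow_le_one₀ hε.le hε1
  have hεe : ε ^ 2 ≤ ε := by nlinarith
  have hε₃1 : ε₃ ≤ 1 := by rw [hε₃]; linarith
  obtain ⟨δ, hδ⟩ : ∃ δ : ℝ, δ = δ₁ * ε₃ := ⟨_, rfl⟩
  have hδ0 : 0 < δ := by rw [hδ]; positivity
  have hδd : δ / δ₁ = ε₃ := by rw [hδ]; field_simp
  have hδ3 : δ ≤ ε₃ := by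
    rw [hδ]
    exact mul_le_of_le_one_left hε₃0.le hδ₁1
  obtain ⟨m, hm⟩ : ∃ m : ℝ, m = ε ^ 2 / 64 := ⟨_, rfl⟩
  have hm0 : 0 < m := by rw [hm]; positivity
  have hm1 : m ≤ 1 := by rw [hm]; linarith
  obtain ⟨m', hm'⟩ := exists_nat_gt (1 / ε₃)
  have hm'R : (0 : ℝ) < m' := lt_of_le_of_lt (by positivity) hm'
  have hm'1 : 1 ≤ m' := by
    have : 0 < m' := by exact_mod_cast hm'R
    omega
  have hm'i : (1 : ℝ) / m' ≤ ε₃ := by
    rw [div_le_iff₀ hm'R]
    rw [div_lt_iff₀ hε₃0] at hm'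
    linarith
  obtain ⟨F₀, hF₀⟩ : ∃ F₀ : ℝ, F₀ = 32 / ε := ⟨_, rfl⟩
  have hF1 : 1 ≤ F₀ := by
    rw [hF₀, le_div_iff₀ hε]
    linarith
  have hF0 : 0 < F₀ := by linarith
  have hF₂ : 1 ≤ F₀ * (δ₁ * ε₂) := by
    rw [hF₀, hδ₁, hε₂]
    refine le_of_eq ?_
    field_simp
    norm_num
  obtain ⟨η, ϖ', hη0, hϖ'0, hMN⟩ := mass_mn (h := h) (κ₁ := κ₁) (δ := δ) (F₀ := F₀)
    (by rw [hκ₁]; linarith) hh1 (by rw [hκ₁]; positivity) hδ0 (hδ3.trans hε₃1) hF1
  -- the constants of the inequality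
  obtain ⟨ϖ₁, hϖ₁⟩ : ∃ ϖ₁ : ℝ, ϖ₁ = m * g / 32 := ⟨_, rfl⟩
  have hϖ₁0 : 0 < ϖ₁ := by rw [hϖ₁]; positivity
  obtain ⟨K, hK⟩ := exists_nat_gt (32 / (m * g))
  have hKR : (0 : ℝ) < K := lt_of_le_of_lt (by positivity) hK
  have hK0 : 0 < K := by exact_mod_cast hKR
  obtain ⟨e1, he1⟩ : ∃ e1 : ℝ, e1 = min (η / (4 * F₀)) (m * g / 8) := ⟨_, rfl⟩
  have he10 : 0 < e1 := by
    rw [he1]
    exact lt_min (by positivity) (by positivity)
  have he11 : e1 ≤ η / (4 * F₀) := by rw [he1]; exact min_le_left _ _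
  have he12 : e1 ≤ m * g / 8 := by rw [he1]; exact min_le_right _ _
  obtain ⟨io1, hio1, hB⟩ := body_dcs 2 k n hn e1 he10
  obtain ⟨io, hio⟩ : ∃ io : ℝ, io = min (min io1 (g / 8)) (min (min (m * g / (8 * (2 * n + 5)))
    (η / (4 * F₀ * (4 * n + 9)))) (min (η / 4) (η * ϖ' / 4))) := ⟨_, rfl⟩
  have hio0 : 0 < io := by
    rw [hio]
    exact lt_min (lt_min hio1 (by positivity)) (lt_min (lt_min (by positivity) (by positivity))
      (lt_min (by positivity) (by positivity)))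
  have hi1 : io ≤ io1 := by rw [hio]; exact (min_le_left _ _).trans (min_le_left _ _)
  have hi6 : io ≤ g / 8 := by rw [hio]; exact (min_le_left _ _).trans (min_le_right _ _)
  have hi2 : io ≤ m * g / (8 * (2 * n + 5)) := by
    rw [hio]
    exact (min_le_right _ _).trans ((min_le_left _ _).trans (min_le_left _ _))
  have hi3 : io ≤ η / (4 * F₀ * (4 * n + 9)) := by
    rw [hio]
    exact (min_le_right _ _).trans ((min_le_left _ _).trans (min_le_right _ _))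
  have hi4 : io ≤ η / 4 := by
    rw [hio]
    exact (min_le_right _ _).trans ((min_le_right _ _).trans (min_le_left _ _))
  have hi5 : io ≤ η * ϖ' / 4 := by
    rw [hio]
    exact (min_le_right _ _).trans ((min_le_right _ _).trans (min_le_right _ _))
  obtain ⟨ϖ, hϖ⟩ : ∃ ϖ : ℝ, ϖ = min ϖ' (ϖ₁ * m) := ⟨_, rfl⟩
  have hϖ0 : 0 < ϖ := by rw [hϖ]; exact lt_min hϖ'0 (by positivity)
  have hϖa : ϖ ≤ ϖ' := by rw [hϖ]; exact min_le_left _ _
  have hϖb : ϖ ≤ ϖ₁ * m := by rw [hϖ]; exact min_le_right _ _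
  have hϖc : ϖ ≤ ϖ₁ := hϖb.trans (mul_le_of_le_one_right hϖ₁0.le hm1)
  refine ⟨io, ϖ, hio0, hϖ0, fun C hC => ?_⟩
  obtain ⟨K1, r, X1, hB⟩ := hB C hC
  obtain ⟨X2, hMN⟩ := hMN C (4 * 1) hC (by norm_num)
  obtain ⟨K2, hK2⟩ : ∃ K2 : ℝ, K2 = max K1 1 := ⟨_, rfl⟩
  have hK21 : 1 ≤ K2 := by rw [hK2]; exact le_max_right _ _
  have hK12 : K1 ≤ K2 := by rw [hK2]; exact le_max_left _ _
  obtain ⟨X3, hX3⟩ := ex_lin (a := η / 4) (b := F₀ * (|Pool.POT64.Cch 2 1 C| +
    |Cc 2 (4 * 1)|)) (by positivity)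
  obtain ⟨X4, hX4⟩ := ex_lin (a := η / 4) (b := Real.log 2 / ϖ') (by positivity)
  obtain ⟨X5, hX5⟩ := ex_lin (a := g / 4) (b := Real.log (9 * C) + Real.log (K + 1) +
    (|Pool.POT64.Cch 2 1 C| + Real.log 2 + |Cc 2 (4 * 1)|) / m + Ca (4 * 1) + Real.log 9 +
    Real.log (2 * (2 * (K2 + 1) + 1) + 1) + Real.log 7 + 1) (by positivity)
  obtain ⟨X6, hX6⟩ := ex_lin (a := κ) (b := Real.log (10 / ε₃) / Real.log 2) hκ0
  refine ⟨2 * K2 * (2 + K2), max (max X1 (max X2 X3)) (max (max X4 X5) (max X6 1)),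
    by positivity, fun H ρ β σ' S Wd Z Bs X t hX hH => ?_⟩
  obtain ⟨b1, b2⟩ := max_le_iff.1 hX
  obtain ⟨b1, b3⟩ := max_le_iff.1 b1
  obtain ⟨b3, b4⟩ := max_le_iff.1 b3
  obtain ⟨b5, b6⟩ := max_le_iff.1 b2
  obtain ⟨b7, b8⟩ := max_le_iff.1 b5
  obtain ⟨b9, b10⟩ := max_le_iff.1 b6
  have hX1' : (1 : ℝ) ≤ X := by exact_mod_cast b10
  have hX0 : (0 : ℝ) < X := by linarith
  replace hX3 := hX3 X b4
  replace hX4 := hX4 X b7
  replace hX5 := hX5 X b8
  replace hX6 := hX6 X b9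
  have hok := hH.dir
  obtain ⟨A0, hA, hA2, -, hbody⟩ := hB H X b1
    (okd_mono hok.ok (mul_le_mul_of_nonneg_right hi1 hX0.le))
  have hbod : ∀ v : Fin (n + 2) → H.Ω, bdv (fun _ => 1) H.b H.th A0 v =
      A0 fun j => H.th (v j) := fun v => by
    unfold bdv bod
    rw [one_mul]
  have hbw : ∀ w : Fin (n + 2 + 1) → H.Ω, bw (fun _ => 1) H.b H.th A0 w =
      A0 fun j => H.th (w j.succ) := fun w => by
    unfold bw bod
    rw [one_mul]
  have hd0 : 0 ≤ io * X := by positivity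
  have hl := hok.ok.law
  have hp0 := hl.nonneg
  obtain ⟨θ, hθ⟩ : ∃ θ : ℝ, θ = (2 : ℝ) ^ (-(κ * X)) := ⟨_, rfl⟩
  have hθ0 : 0 < θ := by rw [hθ]; positivity
  have hκX : 0 ≤ κ * X := by positivity
  have hθ1 : θ ≤ 1 := by
    rw [hθ]
    exact Real.rpow_le_one_of_one_le_of_nonpos (by norm_num) (by linarith)
  obtain ⟨θ₂, hθ₂⟩ : ∃ θ₂ : ℝ, θ₂ = (2 : ℝ) ^ (-(del * X)) := ⟨_, rfl⟩
  have hθ₂0 : 0 < θ₂ := by rw [hθ₂]; positivity
  have hdX : 0 ≤ del * X := by positivity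
  have hθ₂1 : θ₂ ≤ 1 := by
    rw [hθ₂]
    exact Real.rpow_le_one_of_one_le_of_nonpos (by norm_num) (by linarith)
  have hθθ : θ ≤ θ₂ := by
    rw [hθ, hθ₂]
    refine Real.rpow_le_rpow_of_exponent_le (by norm_num) ?_
    have := mul_le_mul_of_nonneg_right hdh hX0.le
    linarith
  have hθ₂i : 1 / θ₂ = (2 : ℝ) ^ (del * X) := by
    rw [hθ₂, Real.rpow_neg (by norm_num), one_div, inv_inv]
  have hθr : θ / θ₂ = (2 : ℝ) ^ (-((κ - del) * X)) := by
    rw [hθ, hθ₂, ← Real.rpow_sub two_pos]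
    congr 1
    ring
  -- the row given the base
  have hR : (2 - h) * X * Real.log 2 + io * X + (io * X + Real.log 2) / ϖ' ≤
      (2 - h) * X * Real.log 2 + η * X := by
    exact num_hR hϖ'0 hη0 hX0 hi4 hi5 hX4
  have he : F₀ * (|e1 * (X : ℝ)| + (4 * n + 9) * (io * X) + |Pool.POT64.Cch 2 1 C| +
      |Cc 2 (4 * 1)|) ≤ η * X := by
    exact num_he hη0 hF0 he10 hn0 he11 hX0 hi3 hX3
  have hDr0 := hok.dr
  have hDr : DrOk H.p H.line H.th H.b H.hgt S Wd Z Bs (fun _ => 1) X C 1 (io * X)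
      ((2 - h) * X * Real.log 2 + io * X) ϖ' :=
    { hDr0 with nf := fun G h1 h2 => hDr0.nf G (hϖa.trans h1) h2 }
  -- the same line
  have hs := hDr.same hMN b3 hF1 zero_le_one hϖ'0 hR (fun t => (hA t).1) (fun t => (hA t).2.2)
    hbody (by
      refine le_trans ?_ he
      refine le_trans ?_ (mul_le_mul_of_nonneg_right hF1 (by positivity))
      have h1 := le_abs_self (e1 * (X : ℝ))
      have h2 := le_abs_self (Pool.POT64.Cch 2 1 C)
      have h3 := abs_nonneg (Cc 2 (4 * 1))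
      have h4 : (2 * (2 * (n : ℝ) + 4) + 1) * (io * X) = (4 * n + 9) * (io * X) := by ring
      rw [h4]
      linarith)
  obtain ⟨T, f, hf, hT1, hT2, hT3⟩ := sel hl H.line (n + 1)
    (fun v => θ ≤ nb (bdv (fun _ => 1) H.b H.th A0 v))
    (fun v u => RR ((2 : ℝ) ^ (-(κ₁ * X))) (bdv (fun _ => 1) H.b H.th A0 v)
      (bdv (fun _ => 1) H.b H.th A0 u)) hδ₁0
  have hT2' : Pb (tup H.p H.line (n + 1)) (fun v => θ ≤ nb (bdv (fun _ => 1) H.b H.th A0 v) ∧
      T (H.line (v 0)) ∧ RR ((2 : ℝ) ^ (-(κ₁ * X))) (bdv (fun _ => 1) H.b H.th A0 v)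
        (bdv (fun _ => 1) H.b H.th A0 (f (H.line (v 0))))) ≤ δ / δ₁ := by
    rw [le_div_iff₀ hδ₁0, mul_comm]
    exact hT2.trans hs
  -- the sizes
  have hla : la h = κ₁ - 5 * κ := by
    unfold la
    rw [hκ₁, hκ]
    ring
  have hsz : 10 * 2 ^ (X - t) * (2 : ℝ) ^ (-(κ₁ * X)) ≤ ε₃ * θ ^ 4 := by
    refine num_sz hε₃0 hH.tX hθ ?_ hX6
    rw [← hla]
    exact hH.t1
  have hr1 : (2 : ℝ) ^ (-(κ₁ * X)) ≤ θ * θ := by
    rw [hθ, ← Real.rpow_add (by norm_num)]
    refine Real.rpow_le_rpow_of_exponent_le (by norm_num) ?_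
    have h3 : 2 * κ ≤ κ₁ := by rw [hκ₁]; linarith
    have := mul_le_mul_of_nonneg_right h3 hX0.le
    linarith
  have hblk := num_t2 (a := 5 / 16) hh hh1 (by norm_num) hX0 hH.t2
  have hqv := tup_isLaw hl H.line (n + 1)
  have him : Im (tup H.p H.line (n + 1)) H.p (fun v => v 0) := im_tup hp0 H.line _ 0
  have hA0b : ∀ v i a, |bdv (fun _ => (1 : Matrix (Fin 2) (Fin 2) ℝ)) H.b H.th A0 v i a| ≤ K2 :=
    fun v i a => by
      rw [hbod]
      exact ((hA _).2.1 i a).trans hK12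
  rw [← hκ, ← hθr, ← hθ₂i]
  by_cases hTm : Pb H.p (fun ω => T (H.line ω)) ≤ 1 / 4
  · -- most bodies are short
    refine ⟨fun _ => 0, fun _ => 0, fun _ => 0, fun z => ¬ T z, fun _ => ?_, ?_, ?_, ?_⟩
    · rw [abs_zero]
      positivity
    · rw [← Pb_Pe]
      have h1 := Pb_or hp0 (fun ω => T (H.line ω)) (fun ω => ¬ T (H.line ω))
      have h2 : Pb H.p (fun ω => T (H.line ω) ∨ ¬ T (H.line ω)) = 1 := by
        unfold Pb
        rw [← hl.sum_one]
        exact Finset.sum_congr rfl fun ω _ => if_pos (em _)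
      rw [h2] at h1
      linarith
    · refine le_trans (le_of_eq ?_) hε.le
      rw [← Pb_Pe]
      unfold Pb
      refine Finset.sum_eq_zero fun ω _ => if_neg ?_
      rintro ⟨-, h2⟩
      exact h2 rfl
    · refine le_trans (Pb_mono hqv.nonneg fun v hv hbig => ?_) (hT1.trans ?_)
      · obtain ⟨hQ, u, hu⟩ := hbig
        refine ⟨?_, hQ⟩
        by_contra hns
        refine absurd hu (not_lt.2 ?_)
        have hcol : ∀ a, |(A0 fun j => H.th (v j)) 0 a - 0 * (A0 fun j => H.th (v j)) 1 a| ≤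
            θ := by
          intro a
          rw [zero_mul, sub_zero]
          have c1 := nb_le (bdv (fun _ => 1) H.b H.th A0 v) 0 a
          rw [hbod] at c1 hns
          exact c1.trans (not_le.1 hns).le
        have h1 := cmb_dd (hA fun j => H.th (v j)).1 (v := dd n H.tau H.E u fun j => H.th (v j))
          (K := K2) (fun b => (hA2 v u b).trans hK12) hcol
        refine h1.trans ?_
        have h2 : θ ≤ θ / θ₂ := by
          rw [le_div_iff₀ hθ₂0]
          exact mul_le_of_le_one_right hθ0.le hθ₂1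
        have h3 : 1 * (θ / θ₂) ≤ (2 + K2) * (θ / θ₂) :=
          mul_le_mul_of_nonneg_right (by linarith) (by positivity)
        calc 2 * K2 * θ ≤ 2 * K2 * ((2 + K2) * (θ / θ₂)) :=
              mul_le_mul_of_nonneg_left (by linarith) (by positivity)
          _ = _ := by ring
      · rw [hδ₁]
        linarith
  · -- the long bodies
    rw [not_le] at hTm
    -- the bad lines
    have hbad : Pb H.p (fun ω => BS (fun _ => 1) H.b H.th A0 T f θ θ₂ (H.line ω)) ≤ ε₂ := by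
      refine bad_linesS hDr hMN b3 hF1 zero_lt_one hϖ'0 hR (fun t => (hA t).1)
        (fun t => (hA t).2.2) (Kb := K2) (by linarith) (fun w i a => by
          rw [hbw]
          exact ((hA _).2.1 i a).trans hK12) hθ₂0.le hbody he hθ0 hθ1 hδ₁0 hδ0.le hε₂0 hε₃0.le
        hε₃1 hF₂ (fun ω hω hT => (hf ω hω hT).1) hT2' hT3 hH.tX hsz hm'1 hm0 ?_
        (b₁ := ((X : ℝ) - t) * Real.log 2 - io * X) (ϖ₁ := ϖ₁)
        (R₂ := (2 - h) * ((X : ℝ) - t) * Real.log 2 + io * X) ?_ hϖ₁0.le ?_ (by linarith) ?_ ?_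
        hK0 ?_
      · -- the masses
        rw [hδd, hm, hδ₁, hε₂]
        rw [hε₃] at hm'i hδ3 ⊢
        linarith
      · -- the block is not short
        have h5 := mul_le_mul_of_nonneg_right hblk hL2.le
        have h6 := mul_le_mul_of_nonneg_right hi6 hX0.le
        have h7 : g / 8 * X ≤ 5 / 16 * h * X * Real.log 2 := by
          rw [hg]
          have h8 : κ / 8 ≤ 5 / 16 * h := by linarith
          have h9 := mul_le_mul_of_nonneg_right (mul_le_mul_of_nonneg_right h8 hX0.le) hL2.le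
          linarith
        linarith
      · -- fullness
        intro kL kP ka B' c1 c2 c3 c4
        rw [hθ₂] at c1
        exact hH.fi kL kP ka B' c1 c2 (hϖb.trans c3) c4
      · have h1 : 0 ≤ (X : ℝ) - t := by
          have : (t : ℝ) ≤ X := by exact_mod_cast hH.tX
          linarith
        have h2 : 0 ≤ 2 - h := by linarith
        positivity
      · exact fun G h1 h2 => hH.row G (hϖc.trans h1) h2
      · -- the numbers
        have h1 := num_fin hh hh1 hκ hg hg0 hg1 hm0 hϖ₁ hK hC hn0 he10 he12 hi2 hio0 hi6 hX0 hθ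
          hH.t2 hX5
        have h2 : Real.log (2 * (θ₂ + 2) + 1) ≤ Real.log (2 * (1 / θ + 2) + 1) := by
          refine Real.log_le_log (by positivity) ?_
          have h3 : 1 ≤ 1 / θ := by rwa [le_div_iff₀ hθ0, one_mul]
          linarith
        linarith
    -- the lines with a long second coordinate
    have hsplit : Pb H.p (fun ω => T (H.line ω)) ≤
        Pb H.p (fun ω => BS (fun _ => 1) H.b H.th A0 T f θ θ₂ (H.line ω)) +
          Pb H.p (fun ω => QL (fun _ => 1) H.b H.th A0 T f θ₂ (H.line ω)) := by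
      refine le_trans (Pb_mono hp0 fun ω hω hT => ?_) (Pb_or hp0 _ _)
      by_cases hq : θ₂ ≤ |dr (fun _ => 1) H.b H.th A0 (f (H.line ω)) 1|
      · exact Or.inr ⟨hT, hq⟩
      · left
        have u2 : Un (dr (fun _ => 1) H.b H.th A0 (f (H.line ω))) :=
          un_un (hθ0.trans_le (hf ω hω hT).1)
        have h1 : |dr (fun _ => 1) H.b H.th A0 (f (H.line ω)) 0| = 1 := by
          obtain ⟨i, hi⟩ := u2.2
          fin_cases i
          · exact hi
          · have : |dr (fun _ => 1) H.b H.th A0 (f (H.line ω)) 1| = 1 := hi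
            rw [not_le] at hq
            linarith
        refine ⟨hT, by rw [h1]; exact hθ1, ?_⟩
        rw [h1, mul_one]
        exact (not_le.1 hq).le
    have hQm : ε₂ ≤ Pb H.p (fun ω => QL (fun _ => 1) H.b H.th A0 T f θ₂ (H.line ω)) := by
      rw [hε₂] at hbad ⊢
      linarith
    have hQm' : ε₂ ≤ Pb H.p (fun ω => QL (fun _ => 1) H.b H.th A0 T f θ (H.line ω)) :=
      hQm.trans (Pb_mono hp0 fun ω _ h => ⟨h.1, hθθ.trans h.2⟩)
    obtain ⟨s, kP, hkP⟩ := par_codes hDr hMN b3 hF1 zero_lt_one hϖ'0 hR (fun t => (hA t).1)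
      (fun t => (hA t).2.2) hbody he hθ0 hθ1 hδ₁0 hε₂0 hε₃0.le hε₃1 hF₂
      (fun ω hω hT => (hf ω hω hT).1) hT2' hT3 hsz hm'1 hQm'
    refine ⟨kq (fun _ => 1) H.b H.th A0 f (X - t) s, kP, kc (X - t) s (1 / θ₂),
      QL (fun _ => 1) H.b H.th A0 T f θ₂, fun j => kc_le (by positivity) j, ?_, ?_, ?_⟩
    · rw [← Pb_Pe]
      rw [hε₂] at hQm
      exact hQm
    · rw [← Pb_Pe]
      rw [← Pb_Pe] at hkP
      have h1 : Pb H.p (fun ω => QL (fun _ => 1) H.b H.th A0 T f θ₂ (H.line ω) ∧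
          kq (fun _ => 1) H.b H.th A0 f (X - t) s (H.line ω) ≠ kP (Z ω, Bs ω)) ≤
          Pb H.p (fun ω => QL (fun _ => 1) H.b H.th A0 T f θ (H.line ω) ∧
          kq (fun _ => 1) H.b H.th A0 f (X - t) s (H.line ω) ≠ kP (Z ω, Bs ω)) :=
        Pb_mono hp0 fun ω _ h => ⟨⟨h.1.1, hθθ.trans h.1.2⟩, h.2⟩
      have h2 := (mul_le_mul_of_nonneg_left h1 hδ₁0.le).trans hkP
      rw [hδd] at h2
      have h3 : ε₃ + δ + ε₃ + 1 / m' ≤ δ₁ * ε := by
        rw [hδ₁]
        rw [hε₃] at hm'i hδ3 ⊢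
        have h4 : 0 < ε ^ 2 := by positivity
        have h5 : ε / 4 * ε = ε ^ 2 / 4 := by ring
        rw [h5]
        linarith
      exact le_of_mul_le_mul_left (h2.trans h3) hδ₁0
    · refine le_trans (Pb_mono hqv.nonneg fun v hv hbig => ?_) (hT2'.trans ?_)
      · obtain ⟨hQ, u, hu⟩ := hbig
        by_contra hns
        refine absurd hu (not_lt.2 ?_)
        obtain ⟨hT, hq1⟩ := hQ
        have hv0 := ((tup_pos_iff hp0 H.line _ v).1 hv).1 0
        have hfb := (hf _ hv0 hT).1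
        have u2 : Un (dr (fun _ => 1) H.b H.th A0 (f (H.line (v 0)))) :=
          un_un (hθ0.trans_le hfb)
        obtain ⟨rL, hrL⟩ : ∃ rL : ℝ, rL = dr (fun _ => 1) H.b H.th A0 (f (H.line (v 0))) 0 /
          dr (fun _ => 1) H.b H.th A0 (f (H.line (v 0))) 1 := ⟨_, rfl⟩
        have hrb : |rL| ≤ 1 / θ₂ := by
          rw [hrL]
          exact slope_le1 u2 hθ₂0 hq1
        have hnear : |rL - kc (X - t) s (1 / θ₂)
            (kq (fun _ => 1) H.b H.th A0 f (X - t) s (H.line (v 0)))| ≤ θ / θ₂ := by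
          have h1 := kc_near (Y := X - t) (s := s) hrb
          have h2 : kq (fun _ => 1) H.b H.th A0 f (X - t) s (H.line (v 0)) =
              ⌊2 ^ (X - t) * rL + s⌋ := by
            rw [hrL]
            rfl
          rw [h2]
          refine h1.trans ?_
          have h3 : (1 : ℝ) / 2 ^ (X - t) ≤ θ := by
            rw [hθ, one_div, ← Real.rpow_natCast, ← Real.rpow_neg two_pos.le]
            refine Real.rpow_le_rpow_of_exponent_le one_le_two ?_
            rw [Nat.cast_sub hH.tX]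
            have h4 : κ ≤ 5 / 16 * h := by linarith
            have h5 := mul_le_mul_of_nonneg_right h4 hX0.le
            linarith
          have h2 : θ ≤ θ / θ₂ := by
            rw [le_div_iff₀ hθ₂0]
            exact mul_le_of_le_one_right hθ0.le hθ₂1
          linarith
        have hcol : ∀ a, |(A0 fun j => H.th (v j)) 0 a - kc (X - t) s (1 / θ₂)
            (kq (fun _ => 1) H.b H.th A0 f (X - t) s (H.line (v 0))) *
            (A0 fun j => H.th (v j)) 1 a| ≤ (2 + K2) * (θ / θ₂) := by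
          intro a
          have h1 : |(A0 fun j => H.th (v j)) 0 a - rL * (A0 fun j => H.th (v j)) 1 a| ≤
              2 * (θ / θ₂) := by
            by_cases hBig : θ ≤ nb (bdv (fun _ => 1) H.b H.th A0 v)
            · have hR' : ¬ RR ((2 : ℝ) ^ (-(κ₁ * X))) (bdv (fun _ => 1) H.b H.th A0 v)
                  (bdv (fun _ => 1) H.b H.th A0 (f (H.line (v 0)))) := fun hc =>
                hns ⟨hBig, hT, hc⟩
              have c1 := rr_col hR' (hθ0.trans_le hfb) a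
              have c2 : |wg (co (bdv (fun _ => 1) H.b H.th A0 v) a)
                  (un (bdv (fun _ => 1) H.b H.th A0 (f (H.line (v 0)))))| ≤ θ := by
                refine c1.trans ((div_le_div_of_nonneg_left (by positivity) hθ0 hfb).trans ?_)
                rw [div_le_iff₀ hθ0]
                exact hr1
              have c3 := col_big1 hθ₂0 hq1 c2
              rw [hrL]
              have c4 : |bdv (fun _ => (1 : Matrix (Fin 2) (Fin 2) ℝ)) H.b H.th A0 v 0 a -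
                  dr (fun _ => 1) H.b H.th A0 (f (H.line (v 0))) 0 /
                  dr (fun _ => 1) H.b H.th A0 (f (H.line (v 0))) 1 *
                  bdv (fun _ => (1 : Matrix (Fin 2) (Fin 2) ℝ)) H.b H.th A0 v 1 a| ≤ θ / θ₂ := c3
              rw [hbod] at c4
              have c5 : 0 ≤ θ / θ₂ := by positivity
              linarith
            · have c0 := nb_le (bdv (fun _ => 1) H.b H.th A0 v) 0 a
              have c1 := nb_le (bdv (fun _ => 1) H.b H.th A0 v) 1 a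
              rw [hbod] at c0 c1 hBig
              have hns := (not_le.1 hBig).le
              refine (abs_sub _ _).trans ?_
              rw [abs_mul]
              have c2 := mul_le_mul hrb (c1.trans hns) (abs_nonneg _) (by positivity)
              have c3 : 1 / θ₂ * θ = θ / θ₂ := by ring
              have c4 : θ ≤ θ / θ₂ := by
                rw [le_div_iff₀ hθ₂0]
                exact mul_le_of_le_one_right hθ0.le hθ₂1
              linarith
          obtain ⟨x, hx⟩ : ∃ x : ℝ, x = kc (X - t) s (1 / θ₂)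
            (kq (fun _ => 1) H.b H.th A0 f (X - t) s (H.line (v 0))) := ⟨_, rfl⟩
          rw [← hx] at hnear ⊢
          have e1 : (A0 fun j => H.th (v j)) 0 a - x * (A0 fun j => H.th (v j)) 1 a =
              ((A0 fun j => H.th (v j)) 0 a - rL * (A0 fun j => H.th (v j)) 1 a) +
              (rL - x) * (A0 fun j => H.th (v j)) 1 a := by ring
          rw [e1]
          refine (abs_add_le _ _).trans ?_
          rw [abs_mul]
          have c6 := mul_le_mul hnear (((hA fun j => H.th (v j)).2.1 1 a).trans hK12)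
            (abs_nonneg _) (by positivity)
          linarith
        have h1 := cmb_dd (hA fun j => H.th (v j)).1 (v := dd n H.tau H.E u fun j => H.th (v j))
          (K := K2) (fun b => (hA2 v u b).trans hK12) hcol
        refine h1.trans (le_of_eq ?_)
        ring
      · rw [hδd, hε₃]
        linarith

end Pool.DIR16
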