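import Pool.Agent.H16.DIR.Qu
import Pool.Agent.H21.FS.Qh

/-!
# DIR: the first coordinate of the slopes

`qh_u`: a picture of degree `n` with two coordinates whose row is not full, and such that the digits of
`Z 1 - ka Z 0` are full for all closed slopes `ka`. Then the first coordinates of the slopes are
polynomials of degree `n` in the time, with coefficients which are functions of the line and few given
the context.
-/

set_option autoImplicit false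

namespace Pool.DIR16

open Finset Real Matrix
open Pool.Agent.H49.Ent Pool.Agent.H32.Dense Pool.STK Pool.POT Pool.FAD Pool.SLO Pool.TQ
open Pool.K2S (Pe)
open Pool.DIR21
open Pool.BFL (Pb)
open Pool.BD64 (QHd pol)
open Pool.TT37 (dd con_d)
open Pool.FS21 (okd_mi line_det okd_mono okd_tm far_tm ex_pow log_sz hWa hWk)

variable {k n : ℕ}

/-- **The first coordinate of the slopes.** -/
theorem qh_u (k n : ℕ) (hn : 1 ≤ n) {h x₀ σ ε₀ : ℝ} (hh : 0 < h) (hh1 : h ≤ 1) (hx0 : 0 < x₀)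
    (hx : x₀ ≤ h ^ 2 / 16) (hσ : 0 < σ) (hε₀ : 0 < ε₀) :
    ∃ io ϖ : ℝ, 0 < io ∧ 0 < ϖ ∧ ∀ C : ℝ, 1 ≤ C → ∃ X0 : ℕ,
    ∀ (H : QHd 2 k n) (ρ β σ' : Type) (S : H.Ω → ρ) (Wd : H.Ω → β) (Z : H.Ω → Fin 2 → ℤ)
      (Bs : H.Ω → σ') (X t : ℕ), X0 ≤ X → UDir H S Wd Z Bs X t C (io * X) h ϖ →
      ∃ ep : (Fin 2 → ℤ) × (H.Vt × H.B) → Fin (n + 1) → Fin k → ℝ,
        (∀ z a u, |ep z a u| ≤ (2 : ℝ) ^ (σ * X)) ∧
        Pb H.p (fun ω => ¬ ∀ u, |H.E (H.th ω) u 0 -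
          ∑ a, ep (H.line ω) a u * ((H.tau (H.th ω) : ℝ) / 2 ^ X) ^ (a : ℕ)| ≤
            (2 : ℝ) ^ ((σ - x₀) * X)) ≤ ε₀ ∧
        ∀ Y : ℕ, (Y : ℝ) ≤ (x₀ - σ) * X →
          CH H.p (fun ω (v : Fin (n + 1) × Fin k) => ⌊(2 : ℝ) ^ Y * ep (H.line ω) v.1 v.2⌋)
            H.b ≤ ε₀ * X := by
  classical
  have hL2 : 0 < Real.log 2 := Real.log_pos (by norm_num)
  have hn0 : (0 : ℝ) ≤ n := Nat.cast_nonneg n
  have hk0 : (0 : ℝ) ≤ k := Nat.cast_nonneg k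
  have hx1 : x₀ ≤ 1 := by
    have : h ^ 2 ≤ 1 := pow_le_one₀ hh.le hh1
    linarith
  obtain ⟨W, hW⟩ : ∃ W : ℝ, W = ((n : ℝ) + 2) ^ 2 * (k + 1) * 8 := ⟨_, rfl⟩
  have hW8 : 8 ≤ W := by
    rw [hW]
    have h1 : (1 : ℝ) ≤ ((n : ℝ) + 2) ^ 2 := one_le_pow₀ (by linarith)
    have h2 : (1 : ℝ) ≤ (k : ℝ) + 1 := by linarith
    nlinarith [mul_le_mul h1 h2 zero_le_one (by positivity)]
  obtain ⟨δ, hδ⟩ : ∃ δ : ℝ, δ = min ε₀ 1 / (W * (W * (3 + σ))) := ⟨_, rfl⟩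
  have hm0 : 0 < min ε₀ 1 := lt_min hε₀ one_pos
  have hδ0 : 0 < δ := by
    rw [hδ]
    positivity
  obtain ⟨s', hs'⟩ : ∃ s' : ℝ, s' = min (σ / 8) 1 / (n + 3) := ⟨_, rfl⟩
  have hs'm : 0 < min (σ / 8) 1 := lt_min (by positivity) one_pos
  have hs'0 : 0 < s' := by
    rw [hs']
    positivity
  have hs'n : s' * (n + 3) = min (σ / 8) 1 := by
    rw [hs']
    field_simp
  have hs'1 : s' * (n + 3) ≤ 1 := hs'n.le.trans (min_le_right _ _)
  have hs'3 : s' * (n + 3) ≤ σ / 8 := hs'n.le.trans (min_le_left _ _)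
  have hs'4 : s' ≤ 1 := by
    have h5 : s' * 1 ≤ s' * (n + 3) := mul_le_mul_of_nonneg_left (by linarith) hs'0.le
    linarith
  -- the mass of the direction
  obtain ⟨ε', hε'⟩ : ∃ ε' : ℝ, ε' = min (min δ 1) (ε₀ / (4 * (n + 1))) := ⟨_, rfl⟩
  have hε'0 : 0 < ε' := by
    rw [hε']
    exact lt_min (lt_min hδ0 one_pos) (by positivity)
  have he1 : ε' ≤ δ := by
    rw [hε']
    exact (min_le_left _ _).trans (min_le_left _ _)
  have he2 : ε' ≤ 1 := by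
    rw [hε']
    exact (min_le_left _ _).trans (min_le_right _ _)
  have he3 : ε' ≤ ε₀ / (4 * (n + 1)) := by rw [hε']; exact min_le_right _ _
  have he4 : ε' ≤ ε₀ := by
    refine he3.trans (div_le_self hε₀.le ?_)
    linarith
  obtain ⟨io1, ϖ, hio1, hϖ, H1⟩ := qh_udd k n hn hh hh1 hε'0 he2
  obtain ⟨io, hio⟩ : ∃ io : ℝ, io = min io1 (min (δ * s' * Real.log 2 / 64) (ε₀ / (4 * (n + 1)))) :=
    ⟨_, rfl⟩
  have hio0 : 0 < io := by
    rw [hio]
    exact lt_min hio1 (lt_min (by positivity) (by positivity))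
  have hi1 : io ≤ io1 := by rw [hio]; exact min_le_left _ _
  have hi2 : io ≤ δ * s' * Real.log 2 / 64 := by
    rw [hio]
    exact (min_le_right _ _).trans (min_le_left _ _)
  have hi3 : io ≤ ε₀ / (4 * (n + 1)) := by
    rw [hio]
    exact (min_le_right _ _).trans (min_le_right _ _)
  refine ⟨io, ϖ, hio0, hϖ, fun C hC => ?_⟩
  obtain ⟨K, X1, hK0, H1⟩ := H1 C hC
  obtain ⟨X2, hX2⟩ := ex_lin (a := s') (b := 4) hs'0
  obtain ⟨X3, hX3⟩ := ex_pow (a := σ / 2) (b := (n + 1) * (2 * C * 2 ^ (n + 1))) (by positivity)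
  obtain ⟨X4, hX4⟩ := ex_lin (a := δ * s' * Real.log 2 / 32) (b := Real.log 4) (by positivity)
  obtain ⟨X5, hX5⟩ := ex_lin (a := ε₀ / 4) (b := ((n : ℝ) + 1) * k * (Real.log 2 +
    Real.log (2 * ((n + 1) * 2 ^ (n + 1) + 1) + 1)) + 1) (by positivity)
  obtain ⟨X6, hX6⟩ := ex_pow (a := σ / 4) (b := K) (by positivity)
  refine ⟨max (max X1 (max X2 X3)) (max (max X4 X5) (max X6 1)),
    fun H ρ β σ' S Wd Z Bs X t hX hH' => ?_⟩
  have hH := hH'.dir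
  obtain ⟨b1, b2⟩ := max_le_iff.1 hX
  obtain ⟨b1, b3⟩ := max_le_iff.1 b1
  obtain ⟨b3, b4⟩ := max_le_iff.1 b3
  obtain ⟨b5, b6⟩ := max_le_iff.1 b2
  obtain ⟨b7, b8⟩ := max_le_iff.1 b5
  obtain ⟨b9, b10⟩ := max_le_iff.1 b6
  have hX1 : (1 : ℝ) ≤ X := by exact_mod_cast b10
  have hX0 : (0 : ℝ) < X := by linarith
  replace hX2 := hX2 X b3
  replace hX3 := hX3 X b4
  replace hX4 := hX4 X b7
  replace hX5 := hX5 X b8
  replace hX6 := hX6 X b9
  have hl := hH.ok.law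
  have h2X : (0 : ℝ) < 2 ^ X := by positivity
  obtain ⟨s, hs⟩ : ∃ s : ℝ, s = (2 : ℝ) ^ (-(s' * X)) := ⟨_, rfl⟩
  have hs0 : 0 < s := by rw [hs]; positivity
  have hs1 : s ≤ 1 := by
    rw [hs]
    have h5 : 0 ≤ s' * X := by positivity
    exact Real.rpow_le_one_of_one_le_of_nonpos (by norm_num) (by linarith)
  -- the slopes
  have r1 := H1 H ρ β σ' S Wd Z Bs X t b1
    (hH'.mono (mul_le_mul_of_nonneg_right hi1 hX0.le))
  obtain ⟨th', hth'⟩ : ∃ th' : H.Ω → H.Tt, th' = H.th := ⟨_, rfl⟩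
  obtain ⟨tau', htau'⟩ : ∃ tau' : H.Tt → ℤ, tau' = H.tau := ⟨_, rfl⟩
  obtain ⟨E', hE'⟩ : ∃ E' : H.Tt → Fin k → Fin 1 → ℝ,
    E' = fun x u _ => H.E x u 0 := ⟨_, rfl⟩
  have htt : ∀ ω, tau' (th' ω) = H.tau (H.th ω) := fun ω => by rw [htau', hth']
  have hEE : ∀ ω u i, E' (th' ω) u i = H.E (H.th ω) u 0 :=
    fun ω u i => by rw [hE', hth']
  obtain ⟨e, he⟩ : ∃ e : ℝ, e = K * (2 : ℝ) ^ (-(x₀ * X)) := ⟨_, rfl⟩
  have he0 : 0 < e := by rw [he]; positivity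
  have hq1 := (tup_isLaw hl H.line (n + 2)).nonneg
  have r2 : Pb (tup H.p H.line (n + 2)) (fun w => ∃ u i,
      e < |dd n tau' E' u (fun j => th' (w j.succ)) i|) ≤ δ := by
    have him : Im (tup H.p H.line (n + 2)) (tup H.p H.line (n + 1)) (fun w => w ∘ Fin.succ) :=
      im_of_marg (tup_sub hl.nonneg H.line (M := n + 1) (N := n + 2) Fin.succ
        (Fin.succ_injective _))
    rw [Pb_im him] at r1
    refine le_trans (Pb_mono hq1 ?_) (r1.trans he1)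
    rintro w - ⟨u, i, hu⟩
    refine ⟨u, ?_⟩
    have hi : i = 0 := Subsingleton.elim _ _
    rw [hi, hth', hE', htau', he] at hu
    have e1 : dd n H.tau (fun x u (_ : Fin 1) => H.E x u 0) u (fun j => H.th (w j.succ)) 0 =
        dd n H.tau H.E u (fun j => H.th ((w ∘ Fin.succ) j)) 0 := by
      unfold dd
      rfl
    rw [e1] at hu
    refine lt_of_le_of_lt ?_ hu
    refine mul_le_mul_of_nonneg_left ?_ hK0.le
    refine Real.rpow_le_rpow_of_exponent_le (by norm_num) ?_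
    have := mul_le_mul_of_nonneg_right hx hX0.le
    linarith
  -- the times
  have r3 : Pb (tup H.p H.line 1) (fun w =>
      |((tau' (th' (w 0)) - tau' (th' (w 1)) : ℤ) : ℝ)| ≤ s * 2 ^ X) ≤ δ := by
    have h1 := far_tm hl H.line (fun ω => H.tau (H.th ω)) hH.ok.tau_r (okd_tm hH.ok) hs'4 hX2
    rw [← hs] at h1
    simp only [htt]
    have h2 : 0 < s' * X / 2 * Real.log 2 := by positivity
    rw [← le_div_iff₀ h2] at h1
    refine h1.trans ?_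
    rw [div_le_iff₀ h2]
    have h3 := mul_le_mul_of_nonneg_right hi2 hX0.le
    linarith
  -- the polynomials
  have hEb : ∀ ω u i, |E' (th' ω) u i| ≤ 2 * C := fun ω u i => by
    rw [hEE]
    have h2 := hH.ok.E_b ω u 0
    linarith
  obtain ⟨ep, hb, hP⟩ := con_d hl H.line th' tau' n E' (C := 2 * C) (s := s) (e := e) (X := X)
    hs0 hs1 (fun ω => by rw [htt]; exact hH.ok.tau_r ω) hEb r2 r3
  have hpw : (2 / s) ^ (n + 1) ≤ 2 ^ (n + 1) * (2 : ℝ) ^ (σ / 2 * X) := by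
    rw [div_pow, div_eq_mul_inv]
    refine mul_le_mul_of_nonneg_left ?_ (by positivity)
    rw [hs, ← Real.rpow_natCast ((2 : ℝ) ^ (-(s' * X))), ← Real.rpow_mul (by norm_num),
      ← Real.rpow_neg (by norm_num)]
    refine Real.rpow_le_rpow_of_exponent_le (by norm_num) ?_
    have h5 : -(-(s' * (X : ℝ)) * ((n + 1 : ℕ) : ℝ)) = (s' * (n + 3) - 2 * s') * X := by
      push_cast
      ring
    rw [h5]
    exact mul_le_mul_of_nonneg_right (by linarith) hX0.le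
  have hCb : (n + 1) * (2 * C * (2 / s) ^ (n + 1)) ≤ (2 : ℝ) ^ (σ * X) := by
    have e1 : (2 : ℝ) ^ (σ * X) = (2 : ℝ) ^ (σ / 2 * X) * (2 : ℝ) ^ (σ / 2 * X) := by
      rw [← Real.rpow_add (by norm_num)]
      congr 1
      ring
    rw [e1]
    calc (n + 1) * (2 * C * (2 / s) ^ (n + 1)) ≤
          (n + 1) * (2 * C * (2 ^ (n + 1) * (2 : ℝ) ^ (σ / 2 * X))) := by gcongr
      _ = (n + 1) * (2 * C * 2 ^ (n + 1)) * (2 : ℝ) ^ (σ / 2 * X) := by ring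
      _ ≤ _ := mul_le_mul_of_nonneg_right hX3 (by positivity)
  have hmass : (n + 2) * δ + (n + 2) ^ 2 * δ ≤ W * δ := by
    have h1 : ((n : ℝ) + 2) + (n + 2) ^ 2 ≤ W := by
      rw [hW]
      nlinarith [mul_nonneg (sq_nonneg ((n : ℝ) + 2)) hk0]
    have := mul_le_mul_of_nonneg_right h1 hδ0.le
    linarith
  have hWδ : W * δ * (W * (3 + σ)) = min ε₀ 1 := by
    rw [hδ]
    field_simp
  have hWδ1 : W * δ ≤ ε₀ := by
    have h1 : 1 ≤ W * (3 + σ) := one_le_mul_of_one_le_of_one_le (by linarith) (by linarith)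
    have h2 : 0 ≤ W * δ := by positivity
    calc W * δ = W * δ * 1 := (mul_one _).symm
      _ ≤ W * δ * (W * (3 + σ)) := mul_le_mul_of_nonneg_left h1 h2
      _ ≤ ε₀ := hWδ.le.trans (min_le_left _ _)
  have herr : e / s ^ (n + 2) ≤ (2 : ℝ) ^ (σ / 2 * X - x₀ * X) := by
    have h1 : e / s ^ (n + 2) = K * (2 : ℝ) ^ (s' * (n + 2) * X - x₀ * X) := by
      rw [he, mul_div_assoc, hs, ← Real.rpow_natCast ((2 : ℝ) ^ (-(s' * X))),
        ← Real.rpow_mul (by norm_num), ← Real.rpow_sub (by norm_num)]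
      congr 2
      push_cast
      ring
    rw [h1]
    calc K * (2 : ℝ) ^ (s' * (n + 2) * X - x₀ * X) ≤
          (2 : ℝ) ^ (σ / 4 * X) * (2 : ℝ) ^ (s' * (n + 2) * X - x₀ * X) :=
          mul_le_mul_of_nonneg_right hX6 (by positivity)
      _ = (2 : ℝ) ^ (σ / 4 * X + (s' * (n + 2) * X - x₀ * X)) := by
          rw [← Real.rpow_add (by norm_num)]
      _ ≤ _ := by
          refine Real.rpow_le_rpow_of_exponent_le (by norm_num) ?_
          have h2 : s' * (n + 2) ≤ σ / 4 := by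
            have h5 : s' * (n + 2) = s' * (n + 3) - s' := by ring
            linarith
          have h3 := mul_le_mul_of_nonneg_right h2 hX0.le
          linarith
  have hP' : Pb H.p (fun ω => ¬ ∀ (i : Fin 1) (u : Fin k), |E' (th' ω) u i -
      ∑ a, ep (H.line ω) a u 0 * ((tau' (th' ω) : ℝ) / 2 ^ X) ^ (a : ℕ)| ≤
        (2 : ℝ) ^ (σ / 2 * X - x₀ * X)) ≤ W * δ := by
    refine le_trans ?_ (hP.trans hmass)
    refine Pool.TT37.pb_mono hl.nonneg fun ω _ h1 h2 => h1 fun i u => ?_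
    have hi : i = 0 := Subsingleton.elim _ _
    rw [hi]
    exact (h2 u 0).trans herr
  refine ⟨fun z a u => ep z a u 0, fun z a u => (hb z a u 0).trans hCb, ?_, ?_⟩
  · refine le_trans ?_ (hP'.trans hWδ1)
    refine Pool.TT37.pb_mono hl.nonneg fun ω _ h1 h2 => h1 fun u => ?_
    have h3 := h2 0 u
    rw [hEE, htt] at h3
    refine h3.trans (Real.rpow_le_rpow_of_exponent_le (by norm_num) ?_)
    have h5 : 0 ≤ σ * X := by positivity
    linarith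
  · intro Y hY
    have hVb := log_sz (x₀ := x₀) hx1 hσ hY
    have hDY : (2 : ℝ) ^ Y * ((n + 1) * ((2 : ℝ) ^ (σ / 2 * X - x₀ * X) * (2 / s) ^ (n + 1))) + 1 ≤
        (n + 1) * 2 ^ (n + 1) + 1 := by
      have h1 : (2 : ℝ) ^ Y * ((n + 1) * ((2 : ℝ) ^ (σ / 2 * X - x₀ * X) * (2 / s) ^ (n + 1))) ≤
          (2 : ℝ) ^ Y * ((n + 1) * ((2 : ℝ) ^ (σ / 2 * X - x₀ * X) *
            (2 ^ (n + 1) * (2 : ℝ) ^ (σ / 2 * X)))) := by gcongr
      have h2 : (2 : ℝ) ^ Y * ((2 : ℝ) ^ (σ / 2 * X - x₀ * X) * (2 : ℝ) ^ (σ / 2 * X)) ≤ 1 := by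
        rw [← Real.rpow_natCast, ← Real.rpow_add (by norm_num), ← Real.rpow_add (by norm_num)]
        refine Real.rpow_le_one_of_one_le_of_nonpos (by norm_num) ?_
        have h5 : 0 ≤ σ * X := by positivity
        linarith
      have h3 : (2 : ℝ) ^ Y * ((n + 1) * ((2 : ℝ) ^ (σ / 2 * X - x₀ * X) *
            (2 ^ (n + 1) * (2 : ℝ) ^ (σ / 2 * X)))) = (n + 1) * 2 ^ (n + 1) *
            ((2 : ℝ) ^ Y * ((2 : ℝ) ^ (σ / 2 * X - x₀ * X) * (2 : ℝ) ^ (σ / 2 * X))) := by ring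
      have h4 : (n + 1 : ℝ) * 2 ^ (n + 1) *
            ((2 : ℝ) ^ Y * ((2 : ℝ) ^ (σ / 2 * X - x₀ * X) * (2 : ℝ) ^ (σ / 2 * X))) ≤
            (n + 1) * 2 ^ (n + 1) * 1 := mul_le_mul_of_nonneg_left h2 (by positivity)
      linarith
    have hMI : MI H.p th' H.line H.b ≤ ε₀ / (2 * (n + 1)) * X := by
      rw [hth']
      refine (okd_mi hH.ok).trans (mul_le_mul_of_nonneg_right ?_ hX0.le)
      refine hi3.trans (div_le_div_of_nonneg_left hε₀.le (by positivity) ?_)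
      linarith
    have hc := Pool.TC.coef_few hl H.line th' H.b (line_det H) tau' (c := 1) (k := k) (X := X) n
      E' (C := (2 : ℝ) ^ (σ * X)) (s := s) (e := (2 : ℝ) ^ (σ / 2 * X - x₀ * X)) (δ₁ := W * δ)
      (δ₂ := δ) (io := ε₀ / (2 * (n + 1)) * X) (D := (n + 1) * 2 ^ (n + 1) + 1) (by positivity)
      hs0 hs1 (by positivity) (fun ω => by rw [htt]; exact hH.ok.tau_r ω)
      (fun z a _ u => ep z a u 0) (fun z a _ u => (hb z a u 0).trans hCb) hP' r3 hMI Y hDY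
    have hcc : CH H.p (fun ω (v : Fin (n + 1) × Fin k) =>
        ⌊(2 : ℝ) ^ Y * ep (H.line ω) v.1 v.2 0⌋) H.b ≤
        CH H.p (fun ω (v : Fin (n + 1) × (Fin 1 × Fin k)) =>
          ⌊(2 : ℝ) ^ Y * ep (H.line ω) v.1 v.2.2 0⌋) H.b := by
      refine CH_mono_left hl.nonneg fun ω ω' _ _ e => ?_
      simp only [Prod.mk.injEq] at e
      funext v
      exact congrFun e.1 (v.1, (0, v.2))
    refine hcc.trans (hc.trans ?_)
    refine le_trans (le_of_eq ?_) (Pool.FS21.num_fin (a := (n : ℝ) + 1) (κ := (k : ℝ))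
      (io := ε₀ / (2 * (n + 1))) (by linarith) hk0
      (hW.symm ▸ hWa hn0 hk0) (hW.symm ▸ hWk hn0 hk0) hσ hε₀ hδ le_rfl hX0.le hX5 hVb)
    push_cast
    ring

end Pool.DIR16
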