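import Pool.Agent.H16.DIR.Qa
import Pool.Agent.H16.DIR.Qp

/-!
# DIR: a closed combination of the slopes

`qh_alt`: a picture of degree `n` with two coordinates whose row is not full, and such that the digits
of `Z 1 - ka Z 0` are full for all closed slopes `ka` of size at most `2 ^ (-del X)`. Then on many
samples the first coordinate minus `ka` times the second coordinate of the slopes is a polynomial of
degree `n` in the time with coefficients which are functions of the line, for a closed slope `ka` of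
size at most `2 ^ (del X)`.
-/

set_option autoImplicit false

namespace Pool.DIR16

open Finset Real Matrix
open Pool.Agent.H49.Ent Pool.Agent.H32.Dense Pool.STK Pool.POT Pool.FAD Pool.SLO Pool.TQ
open Pool.K2S (Pe)
open Pool.DIR21
open Pool.BFL (Pb)
open Pool.BD64 (QHd pol)
open Pool.TT37 (dd con_d)
open Pool.FS21 (okd_mi line_det okd_mono okd_tm far_tm ex_pow)

variable {k n : ℕ}

/-- The vectors of a combination. -/
theorem dd_cmb {T Λ : Type} {k : ℕ} (d : ℕ) (tau : T → ℤ) (E : T → Fin k → Fin 2 → ℝ)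
    (Q : Λ → Prop) [DecidablePred Q] (x : Λ → ℝ) (u : Fin k) (t : Fin (d + 2) → T) (l : Λ)
    (i : Fin 1) :
    dd d (fun y : T × Λ => tau y.1)
      (fun y u (_ : Fin 1) => if Q y.2 then E y.1 u 0 - x y.2 * E y.1 u 1 else 0) u
      (fun j => (t j, l)) i =
    if Q l then dd d tau E u t 0 - x l * dd d tau E u t 1 else 0 := by
  unfold dd
  by_cases h : Q l
  · rw [if_pos h]
    simp only [if_pos h]
    split_ifs with hc
    · rw [Finset.mul_sum, ← Finset.sum_sub_distrib]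
      refine Finset.sum_congr rfl fun j _ => ?_
      ring
    · rw [mul_zero, sub_zero]
  · rw [if_neg h]
    simp only [if_neg h, mul_zero, Finset.sum_const_zero, ite_self]

/-- **A closed combination of the slopes.** -/
theorem qh_alt (k n : ℕ) (hn : 1 ≤ n) {h del σ : ℝ} (hh : 0 < h) (hh1 : h ≤ 1) (hd : 0 < del)
    (hdh : del ≤ h ^ 2 / 16) (hσ : 0 < σ) :
    ∃ io ϖ : ℝ, 0 < io ∧ 0 < ϖ ∧ ∀ C : ℝ, 1 ≤ C → ∃ X0 : ℕ,
    ∀ (H : QHd 2 k n) (ρ β σ' : Type) (S : H.Ω → ρ) (Wd : H.Ω → β) (Z : H.Ω → Fin 2 → ℤ)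
      (Bs : H.Ω → σ') (X t : ℕ), X0 ≤ X → SDir H S Wd Z Bs X t C (io * X) h del ϖ →
      ∃ (kL : (Fin 2 → ℤ) × (H.Vt × H.B) → ℤ) (kP : (Fin 2 → ℤ) × σ' → ℤ) (ka : ℤ → ℝ)
        (ep : (Fin 2 → ℤ) × (H.Vt × H.B) → Fin (n + 1) → Fin k → ℝ),
        (∀ j, |ka j| ≤ (2 : ℝ) ^ (del * X)) ∧
        (∀ z a u, |ep z a u| ≤ (2 : ℝ) ^ ((σ + del) * X)) ∧
        1 / 16 ≤ Pe H.p (fun ω => kL (H.line ω) = kP (Z ω, Bs ω) ∧
          ∀ u, |H.E (H.th ω) u 0 - ka (kL (H.line ω)) * H.E (H.th ω) u 1 -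
            ∑ a, ep (H.line ω) a u * ((H.tau (H.th ω) : ℝ) / 2 ^ X) ^ (a : ℕ)| ≤
              (2 : ℝ) ^ ((σ + del - h ^ 2 / 16) * X)) := by
  classical
  have hL2 : 0 < Real.log 2 := Real.log_pos (by norm_num)
  have hn0 : (0 : ℝ) ≤ n := Nat.cast_nonneg n
  have hk0 : (0 : ℝ) ≤ k := Nat.cast_nonneg k
  obtain ⟨W, hW⟩ : ∃ W : ℝ, W = ((n : ℝ) + 2) ^ 2 * 2 := ⟨_, rfl⟩
  have hW8 : 8 ≤ W := by
    rw [hW]
    nlinarith
  obtain ⟨δ, hδ⟩ : ∃ δ : ℝ, δ = 1 / (32 * W) := ⟨_, rfl⟩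
  have hδ0 : 0 < δ := by rw [hδ]; positivity
  have hWδ : W * δ = 1 / 32 := by
    rw [hδ]
    field_simp
  obtain ⟨s', hs'⟩ : ∃ s' : ℝ, s' = min (σ / 8) 1 / (n + 3) := ⟨_, rfl⟩
  have hs'm : 0 < min (σ / 8) 1 := lt_min (by positivity) one_pos
  have hs'0 : 0 < s' := by
    rw [hs']
    positivity
  have hs'n : s' * (n + 3) = min (σ / 8) 1 := by
    rw [hs']
    field_simp
  have hs'3 : s' * (n + 3) ≤ σ / 8 := hs'n.le.trans (min_le_left _ _)
  have hs'1 : s' * (n + 3) ≤ 1 := hs'n.le.trans (min_le_right _ _)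
  have hs'4 : s' ≤ 1 := by
    have h5 : s' * 1 ≤ s' * (n + 3) := mul_le_mul_of_nonneg_left (by linarith) hs'0.le
    linarith
  -- the mass of the direction
  obtain ⟨ε', hε'⟩ : ∃ ε' : ℝ, ε' = min δ (1 / 32) := ⟨_, rfl⟩
  have hε'0 : 0 < ε' := by
    rw [hε']
    exact lt_min hδ0 (by norm_num)
  have he1 : ε' ≤ δ := by
    rw [hε']
    exact min_le_left _ _
  have he2 : ε' ≤ 1 / 32 := by
    rw [hε']
    exact min_le_right _ _
  obtain ⟨io1, ϖ, hio1, hϖ, H1⟩ := qh_aad k n hn hh hh1 hd hdh hε'0 (he2.trans (by norm_num))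
  obtain ⟨io, hio⟩ : ∃ io : ℝ, io = min io1 (δ * s' * Real.log 2 / 64) := ⟨_, rfl⟩
  have hio0 : 0 < io := by
    rw [hio]
    exact lt_min hio1 (by positivity)
  have hi1 : io ≤ io1 := by rw [hio]; exact min_le_left _ _
  have hi2 : io ≤ δ * s' * Real.log 2 / 64 := by
    rw [hio]
    exact min_le_right _ _
  refine ⟨io, ϖ, hio0, hϖ, fun C hC => ?_⟩
  obtain ⟨K, X1, hK0, H1⟩ := H1 C hC
  obtain ⟨X2, hX2⟩ := ex_lin (a := s') (b := 4) hs'0
  obtain ⟨X3, hX3⟩ := ex_pow (a := σ / 2) (b := (n + 1) * (2 * C * 2 ^ (n + 1))) (by positivity)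
  obtain ⟨X4, hX4⟩ := ex_lin (a := δ * s' * Real.log 2 / 32) (b := Real.log 4) (by positivity)
  obtain ⟨X6, hX6⟩ := ex_pow (a := σ / 4) (b := K) (by positivity)
  refine ⟨max (max X1 (max X2 X3)) (max X4 (max X6 1)),
    fun H ρ β σ' S Wd Z Bs X t hX hH' => ?_⟩
  have hH := hH'.dir
  obtain ⟨b1, b2⟩ := max_le_iff.1 hX
  obtain ⟨b1, b3⟩ := max_le_iff.1 b1
  obtain ⟨b3, b4⟩ := max_le_iff.1 b3
  obtain ⟨b7, b6⟩ := max_le_iff.1 b2
  obtain ⟨b9, b10⟩ := max_le_iff.1 b6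
  have hX1 : (1 : ℝ) ≤ X := by exact_mod_cast b10
  have hX0 : (0 : ℝ) < X := by linarith
  replace hX2 := hX2 X b3
  replace hX3 := hX3 X b4
  replace hX4 := hX4 X b7
  replace hX6 := hX6 X b9
  have hl := hH.ok.law
  have h2X : (0 : ℝ) < 2 ^ X := by positivity
  obtain ⟨s, hs⟩ : ∃ s : ℝ, s = (2 : ℝ) ^ (-(s' * X)) := ⟨_, rfl⟩
  have hs0 : 0 < s := by rw [hs]; positivity
  have hs1 : s ≤ 1 := by
    rw [hs]
    have h5 : 0 ≤ s' * X := by positivity
    exact Real.rpow_le_one_of_one_le_of_nonpos (by norm_num) (by linarith)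
  -- the slopes
  obtain ⟨kL, kP, ka, Q, g1, g2, g3, r1⟩ := H1 H ρ β σ' S Wd Z Bs X t b1
    (hH'.mono (mul_le_mul_of_nonneg_right hi1 hX0.le))
  obtain ⟨th', hth'⟩ : ∃ th' : H.Ω → H.Tt × ((Fin 2 → ℤ) × (H.Vt × H.B)),
    th' = fun ω => (H.th ω, H.line ω) := ⟨_, rfl⟩
  obtain ⟨tau', htau'⟩ : ∃ tau' : H.Tt × ((Fin 2 → ℤ) × (H.Vt × H.B)) → ℤ,
    tau' = fun y => H.tau y.1 := ⟨_, rfl⟩
  obtain ⟨E', hE'⟩ : ∃ E' : H.Tt × ((Fin 2 → ℤ) × (H.Vt × H.B)) → Fin k → Fin 1 → ℝ,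
    E' = fun y u _ => if Q y.2 then H.E y.1 u 0 - ka (kL y.2) * H.E y.1 u 1 else 0 := ⟨_, rfl⟩
  have htt : ∀ ω, tau' (th' ω) = H.tau (H.th ω) := fun ω => by rw [htau', hth']
  have hEE : ∀ ω u i, E' (th' ω) u i = if Q (H.line ω) then
      H.E (H.th ω) u 0 - ka (kL (H.line ω)) * H.E (H.th ω) u 1 else 0 :=
    fun ω u i => by rw [hE', hth']
  obtain ⟨e, he⟩ : ∃ e : ℝ, e = K * (2 : ℝ) ^ (-((h ^ 2 / 16 - del) * X)) := ⟨_, rfl⟩
  have he0 : 0 < e := by rw [he]; positivity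
  have hq1 := (tup_isLaw hl H.line (n + 2)).nonneg
  have r2 : Pb (tup H.p H.line (n + 2)) (fun w => ∃ u i,
      e < |dd n tau' E' u (fun j => th' (w j.succ)) i|) ≤ δ := by
    have him : Im (tup H.p H.line (n + 2)) (tup H.p H.line (n + 1)) (fun w => w ∘ Fin.succ) :=
      im_of_marg (tup_sub hl.nonneg H.line (M := n + 1) (N := n + 2) Fin.succ
        (Fin.succ_injective _))
    rw [Pb_im him] at r1
    refine le_trans (Pb_mono hq1 ?_) (r1.trans he1)
    rintro w hw ⟨u, i, hu⟩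
    have hln : ∀ j, H.line (w j) = H.line (w 0) := ((tup_pos_iff hl.nonneg H.line _ w).1 hw).2
    obtain ⟨l, hl'⟩ : ∃ l, l = H.line (w 0) := ⟨_, rfl⟩
    have e1 : (fun j : Fin (n + 2) => th' (w j.succ)) =
        fun j => (H.th (w j.succ), l) := by
      funext j
      rw [hth']
      simp only
      rw [hln, hl']
    have e3 := dd_cmb n H.tau H.E Q (fun l => ka (kL l)) u (fun j => H.th (w j.succ)) l i
    rw [e1, htau', hE', e3] at hu
    have e2 : H.line ((w ∘ Fin.succ) 0) = l := by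
      rw [hl']
      exact hln _
    rw [e2]
    by_cases hQ : Q l
    · rw [if_pos hQ] at hu
      refine ⟨hQ, u, ?_⟩
      rw [he] at hu
      exact hu
    · rw [if_neg hQ, abs_zero] at hu
      linarith
  -- the times
  have r3 : Pb (tup H.p H.line 1) (fun w =>
      |((tau' (th' (w 0)) - tau' (th' (w 1)) : ℤ) : ℝ)| ≤ s * 2 ^ X) ≤ δ := by
    have h1 := far_tm hl H.line (fun ω => H.tau (H.th ω)) hH.ok.tau_r (okd_tm hH.ok) hs'4 hX2
    rw [← hs] at h1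
    simp only [htt]
    have h2 : 0 < s' * X / 2 * Real.log 2 := by positivity
    rw [← le_div_iff₀ h2] at h1
    refine h1.trans ?_
    rw [div_le_iff₀ h2]
    have h3 := mul_le_mul_of_nonneg_right hi2 hX0.le
    linarith
  -- the polynomials
  obtain ⟨R, hR⟩ : ∃ R : ℝ, R = (2 : ℝ) ^ (del * X) := ⟨_, rfl⟩
  have hR1 : 1 ≤ R := by
    rw [hR]
    exact Real.one_le_rpow one_le_two (by positivity)
  have hEb : ∀ ω u i, |E' (th' ω) u i| ≤ 2 * C * R := fun ω u i => by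
    rw [hEE]
    have h2 := hH.ok.E_b ω u 0
    have h3 := hH.ok.E_b ω u 1
    have hC0 : 0 ≤ C := by linarith
    split_ifs
    · refine (abs_sub _ _).trans ?_
      rw [abs_mul]
      have h4 := mul_le_mul (g1 (kL (H.line ω))) h3 (abs_nonneg _) (by positivity)
      rw [← hR] at h4
      have h5 : C * 1 ≤ C * R := mul_le_mul_of_nonneg_left hR1 hC0
      linarith
    · rw [abs_zero]
      positivity
  obtain ⟨ep, hb, hP⟩ := con_d hl H.line th' tau' n E' (C := 2 * C * R) (s := s) (e := e) (X := X)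
    hs0 hs1 (fun ω => by rw [htt]; exact hH.ok.tau_r ω) hEb r2 r3
  have hpw : (2 / s) ^ (n + 1) ≤ 2 ^ (n + 1) * (2 : ℝ) ^ (σ / 2 * X) := by
    rw [div_pow, div_eq_mul_inv]
    refine mul_le_mul_of_nonneg_left ?_ (by positivity)
    rw [hs, ← Real.rpow_natCast ((2 : ℝ) ^ (-(s' * X))), ← Real.rpow_mul (by norm_num),
      ← Real.rpow_neg (by norm_num)]
    refine Real.rpow_le_rpow_of_exponent_le (by norm_num) ?_
    have h5 : -(-(s' * (X : ℝ)) * ((n + 1 : ℕ) : ℝ)) = (s' * (n + 3) - 2 * s') * X := by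
      push_cast
      ring
    rw [h5]
    exact mul_le_mul_of_nonneg_right (by linarith) hX0.le
  have hCb : (n + 1) * (2 * C * R * (2 / s) ^ (n + 1)) ≤ (2 : ℝ) ^ ((σ + del) * X) := by
    have e1 : (2 : ℝ) ^ ((σ + del) * X) =
        R * ((2 : ℝ) ^ (σ / 2 * X) * (2 : ℝ) ^ (σ / 2 * X)) := by
      rw [hR, ← Real.rpow_add (by norm_num), ← Real.rpow_add (by norm_num)]
      congr 1
      ring
    rw [e1]
    calc (n + 1) * (2 * C * R * (2 / s) ^ (n + 1)) ≤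
          (n + 1) * (2 * C * R * (2 ^ (n + 1) * (2 : ℝ) ^ (σ / 2 * X))) := by gcongr
      _ = R * ((n + 1) * (2 * C * 2 ^ (n + 1)) * (2 : ℝ) ^ (σ / 2 * X)) := by ring
      _ ≤ _ := mul_le_mul_of_nonneg_left (mul_le_mul_of_nonneg_right hX3 (by positivity))
          (by linarith)
  have hmass : (n + 2) * δ + (n + 2) ^ 2 * δ ≤ 1 / 32 := by
    have h1 : ((n : ℝ) + 2) + (n + 2) ^ 2 ≤ W := by
      rw [hW]
      nlinarith
    have := mul_le_mul_of_nonneg_right h1 hδ0.le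
    linarith
  have herr : e / s ^ (n + 2) ≤ (2 : ℝ) ^ ((σ + del - h ^ 2 / 16) * X) := by
    have h1 : e / s ^ (n + 2) =
        K * (2 : ℝ) ^ (s' * (n + 2) * X - (h ^ 2 / 16 - del) * X) := by
      rw [he, mul_div_assoc, hs, ← Real.rpow_natCast ((2 : ℝ) ^ (-(s' * X))),
        ← Real.rpow_mul (by norm_num), ← Real.rpow_sub (by norm_num)]
      congr 2
      push_cast
      ring
    rw [h1]
    calc K * (2 : ℝ) ^ (s' * (n + 2) * X - (h ^ 2 / 16 - del) * X) ≤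
          (2 : ℝ) ^ (σ / 4 * X) * (2 : ℝ) ^ (s' * (n + 2) * X - (h ^ 2 / 16 - del) * X) :=
          mul_le_mul_of_nonneg_right hX6 (by positivity)
      _ = (2 : ℝ) ^ (σ / 4 * X + (s' * (n + 2) * X - (h ^ 2 / 16 - del) * X)) := by
          rw [← Real.rpow_add (by norm_num)]
      _ ≤ _ := by
          refine Real.rpow_le_rpow_of_exponent_le (by norm_num) ?_
          have h2 : s' * (n + 2) ≤ σ / 4 := by
            have h5 : s' * (n + 2) = s' * (n + 3) - s' := by ring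
            linarith
          have h3 := mul_le_mul_of_nonneg_right h2 hX0.le
          have h4 : 0 ≤ σ * X := by positivity
          linarith
  refine ⟨kL, kP, ka, fun z a u => ep z a u 0, g1, fun z a u => (hb z a u 0).trans hCb, ?_⟩
  obtain ⟨G, hG⟩ : ∃ G : H.Ω → Prop, G = fun ω => kL (H.line ω) = kP (Z ω, Bs ω) ∧
          ∀ u, |H.E (H.th ω) u 0 - ka (kL (H.line ω)) * H.E (H.th ω) u 1 -
            ∑ a, ep (H.line ω) a u 0 * ((H.tau (H.th ω) : ℝ) / 2 ^ X) ^ (a : ℕ)| ≤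
              (2 : ℝ) ^ ((σ + del - h ^ 2 / 16) * X) := ⟨_, rfl⟩
  have h1 := Pe_sub (G := G) (G1 := fun ω => Q (H.line ω)) hl.nonneg
    (G2 := fun ω => Q (H.line ω) ∧ kL (H.line ω) ≠ kP (Z ω, Bs ω))
    (G3 := fun ω => ¬ ∀ u i, |E' (th' ω) u i -
      ∑ a, ep (H.line ω) a u i * ((tau' (th' ω) : ℝ) / 2 ^ X) ^ (a : ℕ)| ≤ e / s ^ (n + 2))
    (fun ω hω hQ => by
      by_cases c1 : kL (H.line ω) = kP (Z ω, Bs ω)
      · by_cases c2 : ∀ u i, |E' (th' ω) u i -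
            ∑ a, ep (H.line ω) a u i * ((tau' (th' ω) : ℝ) / 2 ^ X) ^ (a : ℕ)| ≤
              e / s ^ (n + 2)
        · left
          rw [hG]
          refine ⟨c1, fun u => ?_⟩
          have h3 := (c2 u 0).trans herr
          rw [hEE, htt, if_pos hQ] at h3
          exact h3
        · exact Or.inr (Or.inr c2)
      · exact Or.inr (Or.inl ⟨hQ, c1⟩))
  rw [← Pb_Pe] at g3
  rw [← hG]
  have h2 := hP.trans hmass
  linarith

end Pool.DIR16
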