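import Pool.Agent.H16.DIR.Bad
import Pool.Agent.H21.DIR.Qe

/-!
# DIR: the numbers of the bad lines
-/

set_option autoImplicit false

namespace Pool.DIR16

open Finset Real

/-- The length of the block of the upper digits. -/
noncomputable def la (h : ℝ) : ℝ := 3 / 4 * h - 5 / 16 * h ^ 2

theorem num_he {η F₀ e1 io X n A B : ℝ} (hη : 0 < η) (hF : 0 < F₀) (he0 : 0 < e1) (hn : 0 ≤ n)
    (he1 : e1 ≤ η / (4 * F₀)) (hX : 0 < X)
    (hi : io ≤ η / (4 * F₀ * (4 * n + 9))) (hX3 : F₀ * (A + B) ≤ η / 4 * X) :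
    F₀ * (|e1 * X| + (4 * n + 9) * (io * X) + A + B) ≤ η * X := by
  rw [abs_of_nonneg (mul_pos he0 hX).le]
  have h2 : F₀ * (e1 * X) ≤ η / 4 * X := by
    have h3 : F₀ * e1 ≤ η / 4 := by
      calc F₀ * e1 ≤ F₀ * (η / (4 * F₀)) := mul_le_mul_of_nonneg_left he1 hF.le
        _ = η / 4 := by field_simp
    have := mul_le_mul_of_nonneg_right h3 hX.le
    linarith
  have h3 : F₀ * ((4 * n + 9) * (io * X)) ≤ η / 4 * X := by
    have h4 : F₀ * (4 * n + 9) * io ≤ η / 4 := by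
      have h5 : 0 < 4 * F₀ * (4 * n + 9) := by positivity
      rw [le_div_iff₀ h5] at hi
      linarith
    have := mul_le_mul_of_nonneg_right h4 hX.le
    linarith
  have h7 : 0 ≤ η / 4 * X := by positivity
  have h6 : F₀ * (e1 * X + (4 * n + 9) * (io * X) + A + B) =
      F₀ * (e1 * X) + F₀ * ((4 * n + 9) * (io * X)) + F₀ * (A + B) := by ring
  rw [h6]
  linarith

theorem num_hR {η ϖ io X h L : ℝ} (hϖ : 0 < ϖ) (hη : 0 < η) (hX : 0 < X) (hi4 : io ≤ η / 4)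
    (hi5 : io ≤ η * ϖ / 4) (hX4 : L / ϖ ≤ η / 4 * X) :
    (2 - h) * X * Real.log 2 + io * X + (io * X + L) / ϖ ≤
      (2 - h) * X * Real.log 2 + η * X := by
  have h1 : io * X ≤ η / 4 * X := mul_le_mul_of_nonneg_right hi4 hX.le
  have h2 : io * X / ϖ ≤ η / 4 * X := by
    rw [div_le_iff₀ hϖ]
    have := mul_le_mul_of_nonneg_right hi5 hX.le
    linarith
  rw [add_div]
  have h3 : 0 ≤ η * X := by positivity
  linarith

/-- The accuracy of the slopes. -/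
theorem num_sz {κ κ₁ ε₃ θ : ℝ} {X t : ℕ} (hε₃ : 0 < ε₃) (htX : t ≤ X)
    (hθ : θ = (2 : ℝ) ^ (-(κ * X))) (h1 : (X : ℝ) - t ≤ (κ₁ - 5 * κ) * X)
    (hX6 : Real.log (10 / ε₃) / Real.log 2 ≤ κ * X) :
    10 * 2 ^ (X - t) * (2 : ℝ) ^ (-(κ₁ * X)) ≤ ε₃ * θ ^ 4 := by
  have hL2 : 0 < Real.log 2 := Real.log_pos (by norm_num)
  have hXt : (((X - t : ℕ) : ℝ)) = X - t := by rw [Nat.cast_sub htX]
  have hpow : (2 : ℝ) ^ (X - t) = (2 : ℝ) ^ ((X : ℝ) - t) := by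
    rw [← Real.rpow_natCast, hXt]
  have h4 : θ ^ 4 = (2 : ℝ) ^ (-(4 * κ * X)) := by
    rw [hθ, ← Real.rpow_natCast, ← Real.rpow_mul (by norm_num)]
    congr 1
    push_cast
    ring
  rw [h4, hpow, mul_assoc, ← Real.rpow_add (by norm_num)]
  have h2 : (2 : ℝ) ^ ((X : ℝ) - t + -(κ₁ * X)) ≤ (2 : ℝ) ^ (-(κ * X)) * (2 : ℝ) ^ (-(4 * κ * X)) := by
    rw [← Real.rpow_add (by norm_num)]
    exact Real.rpow_le_rpow_of_exponent_le (by norm_num) (by linarith)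
  have h5 : 10 * (2 : ℝ) ^ (-(κ * X)) ≤ ε₃ := by
    have h5 : 10 / ε₃ ≤ (2 : ℝ) ^ (κ * X) := by
      rw [div_le_iff₀ hL2] at hX6
      rw [← Real.exp_log (by positivity : (0 : ℝ) < 10 / ε₃), Real.rpow_def_of_pos two_pos]
      exact Real.exp_le_exp.2 (by linarith)
    rw [Real.rpow_neg (by norm_num), ← div_eq_mul_inv, div_le_iff₀ (by positivity)]
    rw [div_le_iff₀ hε₃] at h5
    linarith
  have h6 : (0 : ℝ) < (2 : ℝ) ^ (-(4 * κ * X)) := by positivity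
  calc 10 * (2 : ℝ) ^ ((X : ℝ) - t + -(κ₁ * X)) ≤
        10 * ((2 : ℝ) ^ (-(κ * X)) * (2 : ℝ) ^ (-(4 * κ * X))) :=
        mul_le_mul_of_nonneg_left h2 (by norm_num)
    _ = (10 * (2 : ℝ) ^ (-(κ * X))) * (2 : ℝ) ^ (-(4 * κ * X)) := by ring
    _ ≤ _ := mul_le_mul_of_nonneg_right h5 h6.le

/-- The length of the block. -/
theorem num_t2 {h X t a : ℝ} (hh : 0 < h) (hh1 : h ≤ 1) (ha : a ≤ 6 / 16) (hX : 0 < X)
    (h2 : la h * X ≤ X - t + h / 16 * X) : a * h * X ≤ X - t := by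
  have h3 : a * h ≤ la h - h / 16 := by
    unfold la
    nlinarith
  have h4 := mul_le_mul_of_nonneg_right h3 hX.le
  linarith

/-- The logarithm of the bound of the slopes. -/
theorem num_log {κ g θ X : ℝ} (hg : g = κ * Real.log 2) (hθ : θ = (2 : ℝ) ^ (-(κ * X)))
    (hκX : 0 ≤ κ * X) : Real.log (2 * (1 / θ + 2) + 1) ≤ g * X + Real.log 7 ∧
      Real.log θ = -(g * X) := by
  have hθ0 : 0 < θ := by rw [hθ]; positivity
  have hθ1 : θ ≤ 1 := by
    rw [hθ]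
    exact Real.rpow_le_one_of_one_le_of_nonpos (by norm_num) (by linarith)
  have e9 : Real.log θ = -(g * X) := by
    rw [hθ, Real.log_rpow (by norm_num), hg]
    ring
  refine ⟨?_, e9⟩
  have h1 : 1 ≤ 1 / θ := by rwa [le_div_iff₀ hθ0, one_mul]
  have h2 : 2 * (1 / θ + 2) + 1 ≤ 7 * (1 / θ) := by linarith
  have h3 : Real.log (1 / θ) = g * X := by
    rw [one_div, Real.log_inv, e9, neg_neg]
  have h4 := Real.log_le_log (by positivity) h2
  rw [Real.log_mul (by norm_num) (by positivity), h3] at h4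
  linarith

/-- The number of the vectors. -/
theorem num_cnt {m g ϖ₁ C : ℝ} {K X : ℕ} (hm : 0 < m) (hg : 0 < g) (hg1 : g ≤ 1)
    (hϖ₁ : ϖ₁ = m * g / 32) (hK : 32 / (m * g) < K) (hC : 1 ≤ C) :
    (1 / m / K + 1 / m * ϖ₁) * (2 * Real.log (4 * (C * 2 ^ X) + 1)) ≤
      g / 8 * X + Real.log (9 * C) := by
  have hX0 : (0 : ℝ) ≤ X := Nat.cast_nonneg X
  have hL1 : Real.log 2 ≤ 1 := by
    have := Real.log_two_lt_d9
    linarith
  have hKR : (0 : ℝ) < K := lt_of_le_of_lt (by positivity) hK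
  have l9 : 0 ≤ Real.log (9 * C) := Real.log_nonneg (by linarith)
  have e4 : Real.log (4 * (C * 2 ^ X) + 1) ≤ X + Real.log (9 * C) := by
    have h1 : (1 : ℝ) ≤ 2 ^ X := one_le_pow₀ (by norm_num)
    have h2 := Pool.TQ.log_pow_le (A := 9 * C) (by linarith) X (y := 4 * (C * 2 ^ X) + 1)
      (by positivity) (by nlinarith)
    have h3 : X * Real.log 2 ≤ X := mul_le_of_le_one_right hX0 hL1
    linarith
  have e5 : 1 / m / K + 1 / m * ϖ₁ ≤ g / 16 := by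
    have h1 : 1 / m / K ≤ g / 32 := by
      rw [div_lt_iff₀ (by positivity)] at hK
      rw [div_div, div_le_div_iff₀ (by positivity) (by norm_num)]
      nlinarith
    have h2 : 1 / m * ϖ₁ = g / 32 := by
      rw [hϖ₁]
      field_simp
    linarith
  have e5' : 0 ≤ 1 / m / K + 1 / m * ϖ₁ := by
    rw [hϖ₁]
    positivity
  calc _ ≤ (1 / m / K + 1 / m * ϖ₁) * (2 * (X + Real.log (9 * C))) :=
        mul_le_mul_of_nonneg_left (by linarith) e5'
    _ ≤ g / 16 * (2 * (X + Real.log (9 * C))) :=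
        mul_le_mul_of_nonneg_right e5 (by positivity)
    _ ≤ _ := by nlinarith

theorem num_div {m g e1 io n X D : ℝ} (hm : 0 < m) (hn : 0 ≤ n) (hX : 0 < X) (he0 : 0 < e1)
    (he12 : e1 ≤ m * g / 8) (hi2 : io ≤ m * g / (8 * (2 * n + 5))) :
    (|e1 * X| + (2 * n + 5) * (io * X) + D) / m ≤ g / 4 * X + D / m := by
  rw [abs_of_nonneg (mul_pos he0 hX).le]
  have h1 : (e1 * X + (2 * n + 5) * (io * X)) / m ≤ g / 4 * X := by
    rw [div_le_iff₀ hm]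
    have h2 := mul_le_mul_of_nonneg_right he12 hX.le
    have h3 : io * (8 * (2 * n + 5)) ≤ m * g := by
      rwa [le_div_iff₀ (by positivity)] at hi2
    have h4 := mul_le_mul_of_nonneg_right h3 hX.le
    linarith
  rw [add_div]
  linarith

/-- **The numbers.** -/
theorem num_fin {h κ g m ϖ₁ e1 io n C D1 D2 D3 D4 D5 θ : ℝ} {K X t : ℕ} (hh : 0 < h)
    (hh1 : h ≤ 1)
    (hκ : κ = h ^ 2 / 16) (hg : g = κ * Real.log 2) (hg0 : 0 < g) (hg1 : g ≤ 1) (hm : 0 < m)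
    (hϖ₁ : ϖ₁ = m * g / 32)
    (hK : 32 / (m * g) < K) (hC : 1 ≤ C) (hn : 0 ≤ n) (he0 : 0 < e1)
    (he12 : e1 ≤ m * g / 8) (hi2 : io ≤ m * g / (8 * (2 * n + 5))) (hi0 : 0 < io)
    (hi6 : io ≤ g / 8)
    (hX : (0 : ℝ) < X) (hθ : θ = (2 : ℝ) ^ (-(κ * X)))
    (h2 : la h * X ≤ (X : ℝ) - t + h / 16 * X)
    (hX5 : Real.log (9 * C) + Real.log (K + 1) + (D1 + Real.log 2 + D2) / m + D3 + D4 + D5 +
      Real.log 7 + 1 ≤ g / 4 * X) :
    (2 - h) * ((X : ℝ) - t) * Real.log 2 + io * X +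
      (1 / m / K + 1 / m * ϖ₁) * (2 * Real.log (4 * (C * 2 ^ X) + 1)) +
      Real.log (K + 1) + (|e1 * X| + (2 * n + 5) * (io * X) + D1 + Real.log 2 + D2) / m + D3 +
      D4 + D5 + Real.log (2 * (1 / θ + 2) + 1) <
      (1 - ϖ₁ / m) * (((X : ℝ) - t) * Real.log 2 - io * X) + (((X : ℝ) - t) * Real.log 2 +
        Real.log θ) := by
  have hL2 : 0 < Real.log 2 := Real.log_pos (by norm_num)
  have hL1 : Real.log 2 ≤ 1 := by
    have := Real.log_two_lt_d9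
    linarith
  have hκX : 0 ≤ κ * X := by rw [hκ]; positivity
  obtain ⟨e8, e9⟩ := num_log hg hθ hκX
  have e6 := num_cnt (X := X) hm hg0 hg1 hϖ₁ hK hC
  have e7 := num_div (D := D1 + Real.log 2 + D2) hm hn hX he0 he12 hi2
  have e7' : |e1 * X| + (2 * n + 5) * (io * X) + D1 + Real.log 2 + D2 =
      |e1 * X| + (2 * n + 5) * (io * X) + (D1 + Real.log 2 + D2) := by ring
  rw [e7']
  obtain ⟨Y, hY⟩ : ∃ Y : ℝ, Y = ((X : ℝ) - t) * Real.log 2 := ⟨_, rfl⟩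
  have hYX : Y ≤ X := by
    rw [hY]
    have h2 : (X : ℝ) - t ≤ X := by
      have : (0 : ℝ) ≤ t := Nat.cast_nonneg t
      linarith
    have h3 : (X : ℝ) * Real.log 2 ≤ X := mul_le_of_le_one_right hX.le hL1
    have h4 := mul_le_mul_of_nonneg_right h2 hL2.le
    linarith
  have hgain : 6 * (g * X) ≤ h * Y := by
    have h5 := num_t2 (a := 6 / 16) hh hh1 le_rfl hX h2
    have h6 := mul_le_mul_of_nonneg_left (mul_le_mul_of_nonneg_right h5 hL2.le) hh.le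
    rw [hg, hκ, hY]
    linarith
  have e10 : ϖ₁ / m * (Y - io * X) ≤ g / 32 * X := by
    have h1 : ϖ₁ / m = g / 32 := by
      rw [hϖ₁]
      field_simp
    rw [h1]
    have h3 : 0 ≤ io * X := by positivity
    exact mul_le_mul_of_nonneg_left (by linarith) (by positivity)
  have e11 := mul_le_mul_of_nonneg_right hi6 hX.le
  have e12 : (1 - ϖ₁ / m) * (Y - io * X) = Y - io * X - ϖ₁ / m * (Y - io * X) := by ring
  have e13 : (2 - h) * ((X : ℝ) - t) * Real.log 2 = 2 * Y - h * Y := by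
    rw [hY]
    ring
  rw [← hY, e12, e9, e13]
  have hgX : 0 < g * X := by positivity
  obtain ⟨V1, hV1⟩ : ∃ V1 : ℝ, V1 = (1 / m / K + 1 / m * ϖ₁) *
    (2 * Real.log (4 * (C * 2 ^ X) + 1)) := ⟨_, rfl⟩
  rw [← hV1] at e6 ⊢
  obtain ⟨V2, hV2⟩ : ∃ V2 : ℝ, V2 = (|e1 * X| + (2 * n + 5) * (io * X) +
    (D1 + Real.log 2 + D2)) / m := ⟨_, rfl⟩
  rw [← hV2] at e7 ⊢
  linarith

end Pool.DIR16
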