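import Pool.Agent.H16.DIR.Qn

/-!
# DIR: the vectors of `n + 2` times have a small first coordinate

`UDir`: the hypotheses of DIR with a row of the upper digits and fullness of the digits of
`Z 1 - ka Z 0` for the closed slopes `ka`. `qh_udd`: the first coordinate of the vector of `n + 2`
times is small.
-/

set_option autoImplicit false

namespace Pool.DIR16

open Finset Real Matrix
open Pool.Agent.H49.Ent Pool.Agent.H32.Dense Pool.STK Pool.POT Pool.FAD Pool.SLO Pool.TQ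
open Pool.K2S (Pe)
open Pool.DIR21
open Pool.BFL (Pb)
open Pool.BD64 (QHd body_dcs)
open Pool.TT37 (dd)
open Pool.FS21 (okd_mi line_det okd_mono)

variable {k n : ℕ}

/-- **The hypotheses.** -/
structure UDir (H : QHd 2 k n) {ρ β σ : Type} (S : H.Ω → ρ) (Wd : H.Ω → β) (Z : H.Ω → Fin 2 → ℤ)
    (Bs : H.Ω → σ) (X t : ℕ) (C d h ϖ : ℝ) : Prop where
  dir : DirH H S Wd Z Bs X C d h ϖ
  tX : t ≤ X
  t1 : (X : ℝ) - t ≤ la h * X
  t2 : la h * X ≤ (X : ℝ) - t + h / 16 * X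
  row : ∀ G : H.Ω → Prop, ϖ ≤ Pe H.p G → 0 < Pe H.p G →
    CH (cond H.p G True) (fun ω i => Z ω i / 2 ^ t) (fun ω => (Wd ω, S ω)) ≤
      (2 - h) * ((X : ℝ) - t) * Real.log 2 + d
  fi : FIh H.p H.line (fun ω => (Wd ω, S ω)) Z Bs t ((2 : ℝ) ^ (h ^ 2 / 16 * X))
    (((X : ℝ) - t) * Real.log 2 - d) ϖ

theorem UDir.mono {H : QHd 2 k n} {ρ β σ : Type} {S : H.Ω → ρ} {Wd : H.Ω → β}
    {Z : H.Ω → Fin 2 → ℤ} {Bs : H.Ω → σ} {X t : ℕ} {C d d' h ϖ : ℝ}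
    (hH : UDir H S Wd Z Bs X t C d h ϖ) (hd : d ≤ d') : UDir H S Wd Z Bs X t C d' h ϖ where
  dir := hH.dir.mono hd
  tX := hH.tX
  t1 := hH.t1
  t2 := hH.t2
  row := fun G h1 h2 => (hH.row G h1 h2).trans (by linarith)
  fi := fun kL kP ka B h1 h2 h3 h4 => le_trans (by linarith) (hH.fi kL kP ka B h1 h2 h3 h4)

/-- The first coordinate of a vector in the body. -/
theorem row_dd {A : Matrix (Fin 2) (Fin 2) ℝ} (hA : A.det ≠ 0) {v : Fin 2 → ℝ} {K e : ℝ}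
    (hv : ∀ b, |(A⁻¹ *ᵥ v) b| ≤ K) (h : ∀ a, |A 0 a| ≤ e) : |v 0| ≤ 2 * K * e := by
  have h1 := ell_dd hA (l := ![1, 0]) hv (e := e) (fun a => by
    simp only [Fin.sum_univ_two, Matrix.cons_val_zero, Matrix.cons_val_one,
      Matrix.cons_val_fin_one, one_mul, zero_mul, add_zero]
    exact h a)
  simpa [Fin.sum_univ_two] using h1

/-- **The vectors of `n + 2` times.** -/
theorem qh_udd (k n : ℕ) (hn : 1 ≤ n) {h ε : ℝ} (hh : 0 < h) (hh1 : h ≤ 1) (hε : 0 < ε)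
    (hε1 : ε ≤ 1) :
    ∃ io ϖ : ℝ, 0 < io ∧ 0 < ϖ ∧ ∀ C : ℝ, 1 ≤ C → ∃ (K : ℝ) (X0 : ℕ), 0 < K ∧
    ∀ (H : QHd 2 k n) (ρ β σ' : Type) (S : H.Ω → ρ) (Wd : H.Ω → β) (Z : H.Ω → Fin 2 → ℤ)
      (Bs : H.Ω → σ') (X t : ℕ), X0 ≤ X → UDir H S Wd Z Bs X t C (io * X) h ϖ →
        Pb (tup H.p H.line (n + 1)) (fun v => ∃ u, K * (2 : ℝ) ^ (-(h ^ 2 / 16 * X)) <
          |dd n H.tau H.E u (fun j => H.th (v j)) 0|) ≤ ε := by
  classical
  have hL2 : 0 < Real.log 2 := Real.log_pos (by norm_num)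
  have hL1 : Real.log 2 ≤ 1 := by
    have := Real.log_two_lt_d9
    linarith
  have hn0 : (0 : ℝ) ≤ n := Nat.cast_nonneg n
  obtain ⟨κ, hκ⟩ : ∃ κ : ℝ, κ = h ^ 2 / 16 := ⟨_, rfl⟩
  have hκ0 : 0 < κ := by rw [hκ]; positivity
  have hh2 : h ^ 2 ≤ h := by nlinarith
  have hκh : 16 * κ ≤ h := by rw [hκ]; linarith
  obtain ⟨κ₁, hκ₁⟩ : ∃ κ₁ : ℝ, κ₁ = 3 / 4 * h := ⟨_, rfl⟩
  obtain ⟨g, hg⟩ : ∃ g : ℝ, g = κ * Real.log 2 := ⟨_, rfl⟩
  have hg0 : 0 < g := by rw [hg]; positivity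
  have hg1 : g ≤ 1 := by
    rw [hg]
    calc κ * Real.log 2 ≤ 1 * 1 := mul_le_mul (by linarith) hL1 hL2.le zero_le_one
      _ = 1 := one_mul 1
  obtain ⟨δ₁, hδ₁⟩ : ∃ δ₁ : ℝ, δ₁ = ε / 4 := ⟨_, rfl⟩
  have hδ₁0 : 0 < δ₁ := by rw [hδ₁]; positivity
  have hδ₁1 : δ₁ ≤ 1 := by rw [hδ₁]; linarith
  obtain ⟨ε₂, hε₂⟩ : ∃ ε₂ : ℝ, ε₂ = ε / 4 := ⟨_, rfl⟩
  have hε₂0 : 0 < ε₂ := by rw [hε₂]; positivity
  obtain ⟨ε₃, hε₃⟩ : ∃ ε₃ : ℝ, ε₃ = ε ^ 2 / 256 := ⟨_, rfl⟩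
  have hε₃0 : 0 < ε₃ := by rw [hε₃]; positivity
  have hεε : ε ^ 2 ≤ 1 := pow_le_one₀ hε.le hε1
  have hε₃1 : ε₃ ≤ 1 := by rw [hε₃]; linarith
  obtain ⟨δ, hδ⟩ : ∃ δ : ℝ, δ = δ₁ * ε₃ := ⟨_, rfl⟩
  have hδ0 : 0 < δ := by rw [hδ]; positivity
  have hδd : δ / δ₁ = ε₃ := by rw [hδ]; field_simp
  have hδ3 : δ ≤ ε₃ := by
    rw [hδ]
    exact mul_le_of_le_one_left hε₃0.le hδ₁1
  obtain ⟨m, hm⟩ : ∃ m : ℝ, m = ε ^ 2 / 64 := ⟨_, rfl⟩
  have hm0 : 0 < m := by rw [hm]; positivity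
  have hm1 : m ≤ 1 := by rw [hm]; linarith
  obtain ⟨m', hm'⟩ := exists_nat_gt (1 / ε₃)
  have hm'R : (0 : ℝ) < m' := lt_of_le_of_lt (by positivity) hm'
  have hm'1 : 1 ≤ m' := by
    have : 0 < m' := by exact_mod_cast hm'R
    omega
  have hm'i : (1 : ℝ) / m' ≤ ε₃ := by
    rw [div_le_iff₀ hm'R]
    rw [div_lt_iff₀ hε₃0] at hm'
    linarith
  obtain ⟨F₀, hF₀⟩ : ∃ F₀ : ℝ, F₀ = 16 / ε ^ 2 := ⟨_, rfl⟩
  have hF1 : 1 ≤ F₀ := by
    rw [hF₀, le_div_iff₀ (by positivity)]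
    linarith
  have hF0 : 0 < F₀ := by linarith
  have hF₂ : 1 ≤ F₀ * (δ₁ * ε₂) := by
    rw [hF₀, hδ₁, hε₂]
    refine le_of_eq ?_
    field_simp
    norm_num
  obtain ⟨η, ϖ', hη0, hϖ'0, hMN⟩ := mass_mn (h := h) (κ₁ := κ₁) (δ := δ) (F₀ := F₀)
    (by rw [hκ₁]; linarith) hh1 (by rw [hκ₁]; positivity) hδ0 (hδ3.trans hε₃1) hF1
  -- the constants of the inequality
  obtain ⟨ϖ₁, hϖ₁⟩ : ∃ ϖ₁ : ℝ, ϖ₁ = m * g / 32 := ⟨_, rfl⟩
  have hϖ₁0 : 0 < ϖ₁ := by rw [hϖ₁]; positivity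
  obtain ⟨K, hK⟩ := exists_nat_gt (32 / (m * g))
  have hKR : (0 : ℝ) < K := lt_of_le_of_lt (by positivity) hK
  have hK0 : 0 < K := by exact_mod_cast hKR
  obtain ⟨e1, he1⟩ : ∃ e1 : ℝ, e1 = min (η / (4 * F₀)) (m * g / 8) := ⟨_, rfl⟩
  have he10 : 0 < e1 := by
    rw [he1]
    exact lt_min (by positivity) (by positivity)
  have he11 : e1 ≤ η / (4 * F₀) := by rw [he1]; exact min_le_left _ _
  have he12 : e1 ≤ m * g / 8 := by rw [he1]; exact min_le_right _ _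
  obtain ⟨io1, hio1, hB⟩ := body_dcs 2 k n hn e1 he10
  obtain ⟨io, hio⟩ : ∃ io : ℝ, io = min (min io1 (g / 8)) (min (min (m * g / (8 * (2 * n + 5)))
    (η / (4 * F₀ * (4 * n + 9)))) (min (η / 4) (η * ϖ' / 4))) := ⟨_, rfl⟩
  have hio0 : 0 < io := by
    rw [hio]
    exact lt_min (lt_min hio1 (by positivity)) (lt_min (lt_min (by positivity) (by positivity))
      (lt_min (by positivity) (by positivity)))
  have hi1 : io ≤ io1 := by rw [hio]; exact (min_le_left _ _).trans (min_le_left _ _)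
  have hi6 : io ≤ g / 8 := by rw [hio]; exact (min_le_left _ _).trans (min_le_right _ _)
  have hi2 : io ≤ m * g / (8 * (2 * n + 5)) := by
    rw [hio]
    exact (min_le_right _ _).trans ((min_le_left _ _).trans (min_le_left _ _))
  have hi3 : io ≤ η / (4 * F₀ * (4 * n + 9)) := by
    rw [hio]
    exact (min_le_right _ _).trans ((min_le_left _ _).trans (min_le_right _ _))
  have hi4 : io ≤ η / 4 := by
    rw [hio]
    exact (min_le_right _ _).trans ((min_le_right _ _).trans (min_le_left _ _))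
  have hi5 : io ≤ η * ϖ' / 4 := by
    rw [hio]
    exact (min_le_right _ _).trans ((min_le_right _ _).trans (min_le_right _ _))
  obtain ⟨ϖ, hϖ⟩ : ∃ ϖ : ℝ, ϖ = min ϖ' (ϖ₁ * m) := ⟨_, rfl⟩
  have hϖ0 : 0 < ϖ := by rw [hϖ]; exact lt_min hϖ'0 (by positivity)
  have hϖa : ϖ ≤ ϖ' := by rw [hϖ]; exact min_le_left _ _
  have hϖb : ϖ ≤ ϖ₁ * m := by rw [hϖ]; exact min_le_right _ _
  have hϖc : ϖ ≤ ϖ₁ := hϖb.trans (mul_le_of_le_one_right hϖ₁0.le hm1)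
  refine ⟨io, ϖ, hio0, hϖ0, fun C hC => ?_⟩
  obtain ⟨K1, r, X1, hB⟩ := hB C hC
  obtain ⟨X2, hMN⟩ := hMN C (4 * 1) hC (by norm_num)
  obtain ⟨K2, hK2⟩ : ∃ K2 : ℝ, K2 = max K1 1 := ⟨_, rfl⟩
  have hK21 : 1 ≤ K2 := by rw [hK2]; exact le_max_right _ _
  have hK12 : K1 ≤ K2 := by rw [hK2]; exact le_max_left _ _
  obtain ⟨X3, hX3⟩ := ex_lin (a := η / 4) (b := F₀ * (|Pool.POT64.Cch 2 1 C| +
    |Cc 2 (4 * 1)|)) (by positivity)
  obtain ⟨X4, hX4⟩ := ex_lin (a := η / 4) (b := Real.log 2 / ϖ') (by positivity)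
  obtain ⟨X5, hX5⟩ := ex_lin (a := g / 4) (b := Real.log (9 * C) + Real.log (K + 1) +
    (|Pool.POT64.Cch 2 1 C| + Real.log 2 + |Cc 2 (4 * 1)|) / m + Ca (4 * 1) + Real.log 9 +
    Real.log (2 * (2 * (K2 + 1) + 1) + 1) + Real.log 7 + 1) (by positivity)
  obtain ⟨X6, hX6⟩ := ex_lin (a := κ) (b := Real.log (10 / ε₃) / Real.log 2) hκ0
  refine ⟨2 * K2 * (1 + K2), max (max X1 (max X2 X3)) (max (max X4 X5) (max X6 1)),
    by positivity, fun H ρ β σ' S Wd Z Bs X t hX hH => ?_⟩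
  obtain ⟨b1, b2⟩ := max_le_iff.1 hX
  obtain ⟨b1, b3⟩ := max_le_iff.1 b1
  obtain ⟨b3, b4⟩ := max_le_iff.1 b3
  obtain ⟨b5, b6⟩ := max_le_iff.1 b2
  obtain ⟨b7, b8⟩ := max_le_iff.1 b5
  obtain ⟨b9, b10⟩ := max_le_iff.1 b6
  have hX1' : (1 : ℝ) ≤ X := by exact_mod_cast b10
  have hX0 : (0 : ℝ) < X := by linarith
  replace hX3 := hX3 X b4
  replace hX4 := hX4 X b7
  replace hX5 := hX5 X b8
  replace hX6 := hX6 X b9
  have hok := hH.dir
  obtain ⟨A0, hA, hA2, -, hbody⟩ := hB H X b1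
    (okd_mono hok.ok (mul_le_mul_of_nonneg_right hi1 hX0.le))
  have hbod : ∀ v : Fin (n + 2) → H.Ω, bdv (fun _ => 1) H.b H.th A0 v =
      A0 fun j => H.th (v j) := fun v => by
    unfold bdv bod
    rw [one_mul]
  have hbw : ∀ w : Fin (n + 2 + 1) → H.Ω, bw (fun _ => 1) H.b H.th A0 w =
      A0 fun j => H.th (w j.succ) := fun w => by
    unfold bw bod
    rw [one_mul]
  have hd0 : 0 ≤ io * X := by positivity
  have hl := hok.ok.law
  have hp0 := hl.nonneg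
  obtain ⟨θ, hθ⟩ : ∃ θ : ℝ, θ = (2 : ℝ) ^ (-(κ * X)) := ⟨_, rfl⟩
  have hθ0 : 0 < θ := by rw [hθ]; positivity
  have hκX : 0 ≤ κ * X := by positivity
  have hθ1 : θ ≤ 1 := by
    rw [hθ]
    exact Real.rpow_le_one_of_one_le_of_nonpos (by norm_num) (by linarith)
  have hθi : 1 / θ = (2 : ℝ) ^ (h ^ 2 / 16 * X) := by
    rw [hθ, Real.rpow_neg (by norm_num), one_div, inv_inv, hκ]
  -- the row given the base
  have hR : (2 - h) * X * Real.log 2 + io * X + (io * X + Real.log 2) / ϖ' ≤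
      (2 - h) * X * Real.log 2 + η * X := by
    exact num_hR hϖ'0 hη0 hX0 hi4 hi5 hX4
  have he : F₀ * (|e1 * (X : ℝ)| + (4 * n + 9) * (io * X) + |Pool.POT64.Cch 2 1 C| +
      |Cc 2 (4 * 1)|) ≤ η * X := by
    exact num_he hη0 hF0 he10 hn0 he11 hX0 hi3 hX3
  have hDr0 := hok.dr
  have hDr : DrOk H.p H.line H.th H.b H.hgt S Wd Z Bs (fun _ => 1) X C 1 (io * X)
      ((2 - h) * X * Real.log 2 + io * X) ϖ' :=
    { hDr0 with nf := fun G h1 h2 => hDr0.nf G (hϖa.trans h1) h2 }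
  -- the same line
  have hs := hDr.same hMN b3 hF1 zero_le_one hϖ'0 hR (fun t => (hA t).1) (fun t => (hA t).2.2)
    hbody (by
      refine le_trans ?_ he
      refine le_trans ?_ (mul_le_mul_of_nonneg_right hF1 (by positivity))
      have h1 := le_abs_self (e1 * (X : ℝ))
      have h2 := le_abs_self (Pool.POT64.Cch 2 1 C)
      have h3 := abs_nonneg (Cc 2 (4 * 1))
      have h4 : (2 * (2 * (n : ℝ) + 4) + 1) * (io * X) = (4 * n + 9) * (io * X) := by ring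
      rw [h4]
      linarith)
  obtain ⟨T, f, hf, hT1, hT2, hT3⟩ := sel hl H.line (n + 1)
    (fun v => θ ≤ nb (bdv (fun _ => 1) H.b H.th A0 v))
    (fun v u => RR ((2 : ℝ) ^ (-(κ₁ * X))) (bdv (fun _ => 1) H.b H.th A0 v)
      (bdv (fun _ => 1) H.b H.th A0 u)) hδ₁0
  have hT2' : Pb (tup H.p H.line (n + 1)) (fun v => θ ≤ nb (bdv (fun _ => 1) H.b H.th A0 v) ∧
      T (H.line (v 0)) ∧ RR ((2 : ℝ) ^ (-(κ₁ * X))) (bdv (fun _ => 1) H.b H.th A0 v)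
        (bdv (fun _ => 1) H.b H.th A0 (f (H.line (v 0))))) ≤ δ / δ₁ := by
    rw [le_div_iff₀ hδ₁0, mul_comm]
    exact hT2.trans hs
  -- the sizes
  have hla : la h = κ₁ - 5 * κ := by
    unfold la
    rw [hκ₁, hκ]
    ring
  have hsz : 10 * 2 ^ (X - t) * (2 : ℝ) ^ (-(κ₁ * X)) ≤ ε₃ * θ ^ 4 := by
    refine num_sz hε₃0 hH.tX hθ ?_ hX6
    rw [← hla]
    exact hH.t1
  have hr1 : (2 : ℝ) ^ (-(κ₁ * X)) ≤ θ * θ := by
    rw [hθ, ← Real.rpow_add (by norm_num)]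
    refine Real.rpow_le_rpow_of_exponent_le (by norm_num) ?_
    have h3 : 2 * κ ≤ κ₁ := by rw [hκ₁]; linarith
    have := mul_le_mul_of_nonneg_right h3 hX0.le
    linarith
  -- the bad lines
  have hbad : Pb H.p (fun ω => BL (fun _ => 1) H.b H.th A0 T f θ (H.line ω)) ≤ ε₂ := by
    refine bad_lines hDr hMN b3 hF1 zero_lt_one hϖ'0 hR (fun t => (hA t).1)
      (fun t => (hA t).2.2) (Kb := K2) (by linarith) (fun w i a => by
        rw [hbw]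
        exact ((hA _).2.1 i a).trans hK12) hbody he hθ0 hθ1 hδ₁0 hδ0.le hε₂0 hε₃0.le hε₃1 hF₂
      (fun ω hω hT => (hf ω hω hT).1) hT2' hT3 hH.tX hsz hm'1 hm0 ?_
      (b₁ := ((X : ℝ) - t) * Real.log 2 - io * X) (ϖ₁ := ϖ₁)
      (R₂ := (2 - h) * ((X : ℝ) - t) * Real.log 2 + io * X) ?_ hϖ₁0.le ?_ (by linarith) ?_ ?_ hK0 ?_
    · -- the masses
      rw [hδd, hm, hδ₁, hε₂]
      rw [hε₃] at hm'i hδ3 ⊢
      linarith
    · -- the block is not short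
      have h4 := num_t2 (a := 5 / 16) hh hh1 (by norm_num) hX0 hH.t2
      have h5 := mul_le_mul_of_nonneg_right h4 hL2.le
      have h6 := mul_le_mul_of_nonneg_right hi6 hX0.le
      have h7 : g / 8 * X ≤ 5 / 16 * h * X * Real.log 2 := by
        rw [hg]
        have h8 : κ / 8 ≤ 5 / 16 * h := by linarith
        have h9 := mul_le_mul_of_nonneg_right (mul_le_mul_of_nonneg_right h8 hX0.le) hL2.le
        linarith
      linarith
    · -- fullness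
      intro kL kP ka B' c1 c2 c3 c4
      rw [hθi] at c1
      exact hH.fi kL kP ka B' c1 c2 (hϖb.trans c3) c4
    · have h1 : 0 ≤ (X : ℝ) - t := by
        have : (t : ℝ) ≤ X := by exact_mod_cast hH.tX
        linarith
      have h2 : 0 ≤ 2 - h := by linarith
      positivity
    · exact fun G h1 h2 => hH.row G (hϖc.trans h1) h2
    · -- the numbers
      exact num_fin hh hh1 hκ hg hg0 hg1 hm0 hϖ₁ hK hC hn0 he10 he12 hi2 hio0 hi6 hX0 hθ hH.t2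
        hX5
  -- the conclusion
  have hA0b : ∀ v i a, |bdv (fun _ => (1 : Matrix (Fin 2) (Fin 2) ℝ)) H.b H.th A0 v i a| ≤ K2 :=
    fun v i a => by
      rw [hbod]
      exact ((hA _).2.1 i a).trans hK12
  have hqv := tup_isLaw hl H.line (n + 1)
  have him : Im (tup H.p H.line (n + 1)) H.p (fun v => v 0) := im_tup hp0 H.line _ 0
  have hBL : Pb (tup H.p H.line (n + 1)) (fun v =>
      BL (fun _ => 1) H.b H.th A0 T f θ (H.line (v 0))) ≤ ε₂ := by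
    rw [← Pb_im him (fun ω => BL (fun _ => 1) H.b H.th A0 T f θ (H.line ω))]
    exact hbad
  refine le_trans (Pb_mono hqv.nonneg fun v hv hbig => ?_) ((Pb_or hqv.nonneg _ _).trans
    ((add_le_add hT1 ((Pb_or hqv.nonneg _ _).trans (add_le_add hT2' hBL))).trans ?_))
  · by_contra hn'
    push Not at hn'
    obtain ⟨n1, n2, n3⟩ := hn'
    obtain ⟨u, hu⟩ := hbig
    refine absurd hu (not_lt.2 ?_)
    have hcol : ∀ a, |bdv (fun _ => (1 : Matrix (Fin 2) (Fin 2) ℝ)) H.b H.th A0 v 0 a| ≤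
        (1 + K2) * θ := by
      intro a
      by_cases hBig : θ ≤ nb (bdv (fun _ => 1) H.b H.th A0 v)
      · have hT := n1 hBig
        have hR' := n2 hBig hT
        have hv0 := ((tup_pos_iff hp0 H.line _ v).1 hv).1 0
        have hfb := (hf _ hv0 hT).1
        have c1 := rr_col hR' (hθ0.trans_le hfb) a
        have c2 : |wg (co (bdv (fun _ => 1) H.b H.th A0 v) a)
            (un (bdv (fun _ => 1) H.b H.th A0 (f (H.line (v 0)))))| ≤ θ := by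
          refine c1.trans ((div_le_div_of_nonneg_left (by positivity) hθ0 hfb).trans ?_)
          rw [div_le_iff₀ hθ0]
          exact hr1
        have c3 : |dr (fun _ => 1) H.b H.th A0 (f (H.line (v 0))) 0| < θ := by
          by_contra hcon
          exact n3 ⟨hT, not_lt.1 hcon⟩
        have c4 := col_small (un_un (hθ0.trans_le hfb)) hθ1 c3 c2 (V := K2) (hA0b v 1 a)
        calc _ ≤ θ + K2 * θ := c4
          _ = _ := by ring
      · have c1 := nb_le (bdv (fun _ => 1) H.b H.th A0 v) 0 a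
        have c2 : 0 ≤ K2 * θ := by positivity
        have := not_le.1 hBig
        linarith
    have h1 := row_dd (hA fun j => H.th (v j)).1 (v := dd n H.tau H.E u fun j => H.th (v j))
      (K := K2) (e := (1 + K2) * θ) (fun b => (hA2 v u b).trans hK12) (fun a => by
        have := hcol a
        rw [hbod] at this
        exact this)
    rw [← hκ, ← hθ]
    refine h1.trans (le_of_eq ?_)
    ring
  · rw [hδd, hδ₁, hε₂, hε₃]
    have : ε ^ 2 ≤ ε * 1 := by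
      rw [pow_two]
      exact mul_le_mul_of_nonneg_left hε1 hε.le
    linarith

end Pool.DIR16
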