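import Pool.Agent.H16.DIR.Key
import Pool.Agent.H46.PR.Thr4

/-!
# DIR: the choice of a copy, and almost parallel vectors of the plane

`cpy_sel`: the choice of a copy as a function of the height and the base. `FIh`: the digits of
`Z 1 - ka Z 0` are full for every closed slope `ka`.
-/

set_option autoImplicit false

namespace Pool.DIR16

open Finset Real Matrix
open Pool.Agent.H49.Ent Pool.Agent.H32.Dense Pool.STK Pool.POT Pool.FAD Pool.SLO Pool.TQ
open Pool.K2S (Pe)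
open Pool.DIR21
open Pool.BFL (Pb)
open Pool.PR46 (glue_select)

section cpy

variable {Γ S σ : Type} [Fintype Γ] {q : Γ → ℝ}

theorem cpy_glue (Z : Γ → S) (B : Γ → σ) (Bad : Γ → Γ → Prop) :
    Pb (glue q q (fun w => (Z w, B w)) (fun w => (Z w, B w))) (fun w => Bad w.1 w.2) =
      Pb (cpy q Z B) (fun W => Bad (W 0) (W 1)) := by
  classical
  unfold Pb
  have e3 := (finTwoArrowEquiv Γ).sum_comp (fun w : Γ × Γ => if Bad w.1 w.2 then
    glue q q (fun w => (Z w, B w)) (fun w => (Z w, B w)) w else 0)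
  rw [← e3]
  refine Finset.sum_congr rfl fun W _ => ?_
  have e4 : finTwoArrowEquiv Γ W = (W 0, W 1) := rfl
  rw [e4]
  simp only
  by_cases h : Bad (W 0) (W 1)
  · rw [if_pos h, if_pos h]
    show glue q q (fun w => (Z w, B w)) (fun w => (Z w, B w)) (W 0, W 1) =
      q (W 0) * ∏ j : Fin 1, cond q (fun w => (Z w, B w)) (Z (W 0), B (W 0)) (W j.succ)
    unfold glue
    simp only [Finset.univ_unique, Fin.default_eq_zero, Finset.prod_singleton]
    have e5 : W (Fin.succ 0) = W 1 := rfl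
    rw [e5]
    unfold Pool.Agent.H49.Ent.cond
    by_cases h2 : (Z (W 0), B (W 0)) = (Z (W 1), B (W 1))
    · rw [if_pos h2, if_pos h2.symm, mul_div_assoc]
    · rw [if_neg h2, if_neg (fun h => h2 h.symm), mul_zero]
  · rw [if_neg h, if_neg h]

/-- **The choice of a copy.** -/
theorem cpy_sel (hq : IsLaw q) (Z : Γ → S) (B : Γ → σ) (Bad : Γ → Γ → Prop) :
    ∃ sel : S × σ → Γ, (∀ w, 0 < q w → 0 < q (sel (Z w, B w))) ∧
      Pb q (fun w => Bad w (sel (Z w, B w))) ≤ Pb (cpy q Z B) (fun W => Bad (W 0) (W 1)) := by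
  obtain ⟨sel, h1, h2⟩ := glue_select hq hq (X := fun w => (Z w, B w)) (Y := fun w => (Z w, B w))
    (fun _ => rfl) Bad
  refine ⟨sel, fun w hw => (h1 w hw).1, h2.trans (le_of_eq ?_)⟩
  exact cpy_glue Z B Bad

end cpy

section geo

theorem wg_swap (u v : Fin 2 → ℝ) : wg v u = -wg u v := by
  unfold wg
  ring

/-- The columns and the direction. -/
theorem rr_col {A B : Matrix (Fin 2) (Fin 2) ℝ} {ρ : ℝ} (h : ¬ RR ρ A B) (hB : 0 < nb B)
    (a : Fin 2) : |wg (co A a) (un B)| ≤ ρ / nb B := by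
  rw [wg_un, abs_div, abs_of_pos hB]
  refine div_le_div_of_nonneg_right ?_ hB.le
  by_contra hcon
  exact h ⟨a, _, not_le.1 hcon⟩

/-- The two directions. -/
theorem rr_un {A B : Matrix (Fin 2) (Fin 2) ℝ} {ρ θ : ℝ} (hρ : 0 ≤ ρ) (h : ¬ RR ρ A B)
    (hθ : 0 < θ) (hA : θ ≤ nb A) (hB : θ ≤ nb B) : |wg (un A) (un B)| ≤ ρ / (θ * θ) := by
  have h1 : 0 < nb A := hθ.trans_le hA
  have h2 : 0 < nb B := hθ.trans_le hB
  rw [wg_un2, abs_div, abs_of_pos (mul_pos h1 h2)]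
  have h3 : |wg (co A (lc A).2) (co B (lc B).2)| ≤ ρ := by
    by_contra hcon
    exact h ⟨_, _, not_le.1 hcon⟩
  calc _ ≤ ρ / (nb A * nb B) := div_le_div_of_nonneg_right h3 (mul_pos h1 h2).le
    _ ≤ _ := div_le_div_of_nonneg_left hρ (by positivity) (mul_le_mul hA hB hθ.le h1.le)

/-- A vector almost parallel to a direction whose first coordinate is small. -/
theorem col_small {v e : Fin 2 → ℝ} (he : Un e) {θ ρ V : ℝ} (hθ1 : θ ≤ 1) (h0 : |e 0| < θ)
    (h : |wg v e| ≤ ρ) (hv : |v 1| ≤ V) : |v 0| ≤ ρ + V * θ := by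
  have h1 : |e 1| = 1 := by
    obtain ⟨i, hi⟩ := he.2
    fin_cases i
    · have : |e 0| = 1 := hi
      linarith
    · exact hi
  have hV : 0 ≤ V := (abs_nonneg _).trans hv
  have h2 : |v 0| = |v 0 * e 1| := by rw [abs_mul, h1, mul_one]
  have h3 : v 0 * e 1 = wg v e + v 1 * e 0 := by
    unfold wg
    ring
  rw [h2, h3]
  refine (abs_add_le _ _).trans ?_
  rw [abs_mul]
  have := mul_le_mul hv h0.le (abs_nonneg _) hV
  linarith

/-- A vector almost parallel to a direction whose first coordinate is not small. -/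
theorem col_big {v e : Fin 2 → ℝ} {θ ρ : ℝ} (hθ : 0 < θ) (h0 : θ ≤ |e 0|) (h : |wg v e| ≤ ρ) :
    |v 1 - e 1 / e 0 * v 0| ≤ ρ / θ := by
  have hρ : 0 ≤ ρ := (abs_nonneg _).trans h
  have h1 : 0 < |e 0| := hθ.trans_le h0
  have hne : e 0 ≠ 0 := abs_pos.1 h1
  have e1 : v 1 - e 1 / e 0 * v 0 = -wg v e / e 0 := by
    unfold wg
    field_simp
    ring
  rw [e1, abs_div, abs_neg]
  calc _ ≤ ρ / |e 0| := div_le_div_of_nonneg_right h h1.le
    _ ≤ _ := div_le_div_of_nonneg_left hρ hθ h0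

/-- The slopes of two almost parallel directions. -/
theorem slope_near {e e' : Fin 2 → ℝ} {θ θ' ρ : ℝ} (hθ : 0 < θ) (hθ' : 0 < θ') (h0 : θ ≤ |e 0|)
    (h0' : θ' ≤ |e' 0|) (h : |wg e e'| ≤ ρ) : |e 1 / e 0 - e' 1 / e' 0| ≤ ρ / (θ * θ') := by
  have hρ : 0 ≤ ρ := (abs_nonneg _).trans h
  have h1 : 0 < |e 0| := hθ.trans_le h0
  have h1' : 0 < |e' 0| := hθ'.trans_le h0'
  have hne : e 0 ≠ 0 := abs_pos.1 h1
  have hne' : e' 0 ≠ 0 := abs_pos.1 h1'
  have e1 : e 1 / e 0 - e' 1 / e' 0 = -wg e e' / (e 0 * e' 0) := by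
    unfold wg
    field_simp
    ring
  rw [e1, abs_div, abs_neg, abs_mul]
  calc _ ≤ ρ / (|e 0| * |e' 0|) := div_le_div_of_nonneg_right h (by positivity)
    _ ≤ _ := div_le_div_of_nonneg_left hρ (by positivity)
        (mul_le_mul h0 h0' hθ'.le h1.le)

/-- The first coordinate of an almost parallel direction. -/
theorem first_big {e e' : Fin 2 → ℝ} (he : Un e) (he' : Un e') {θ ρ : ℝ} (h0 : θ ≤ |e 0|)
    (h : |wg e e'| ≤ ρ) : θ - 2 * ρ ≤ |e' 0| := by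
  obtain ⟨s, hs, h1⟩ := nsg he he' h
  have h2 := h1 0
  have h3 : |s * e 0| = |e 0| := by
    rcases hs with rfl | rfl
    · rw [one_mul]
    · rw [neg_one_mul, abs_neg]
  have h4 := abs_sub_abs_le_abs_sub (s * e 0) (e' 0)
  rw [abs_sub_comm (s * e 0) (e' 0), h3] at h4
  linarith

/-- The slope is bounded. -/
theorem slope_le {e : Fin 2 → ℝ} (he : Un e) {θ : ℝ} (hθ : 0 < θ) (h0 : θ ≤ |e 0|) :
    |e 1 / e 0| ≤ 1 / θ := by
  have h1 : 0 < |e 0| := hθ.trans_le h0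
  rw [abs_div]
  calc _ ≤ 1 / |e 0| := div_le_div_of_nonneg_right (he.1 1) h1.le
    _ ≤ _ := div_le_div_of_nonneg_left zero_le_one hθ h0

end geo

/-- **Fullness**: the digits of `Z 1 - ka Z 0` above `2 ^ t` are full for every slope `ka` which is a
function of the line and a function of `(Z, Bs)`. -/
def FIh {Ω Λ σ σ' : Type} [Fintype Ω] (p : Ω → ℝ) (L : Ω → Λ) (WS : Ω → σ) (Z : Ω → Fin 2 → ℤ)
    (Bs : Ω → σ') (t : ℕ) (Kb b₁ ϖ₂ : ℝ) : Prop :=
  ∀ (kL : Λ → ℤ) (kP : (Fin 2 → ℤ) × σ' → ℤ) (ka : ℤ → ℝ) (B : Ω → Prop), (∀ k, |ka k| ≤ Kb) →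
    (∀ ω, 0 < p ω → B ω → kL (L ω) = kP (Z ω, Bs ω)) → ϖ₂ ≤ Pe p B → 0 < Pe p B →
    b₁ ≤ CH (cond p B True) (fun ω => ⌊((Z ω 1 : ℝ) - ka (kL (L ω)) * Z ω 0) / 2 ^ t⌋)
      (fun ω => (kL (L ω), WS ω))

end Pool.DIR16
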