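import Pool.Agent.H16.DIR.Vz
import Pool.Agent.H16.DIR.Qb
import Pool.Agent.H64.LV.Dir

/-!
# DIR: a closed combination of the gradients of two places

`vd_alt`: if the digits of two places are not full, and the digits of `M 1 - ka M 0` are full for all
closed slopes `ka` of size at most `2 ^ (-del X)`, then on many samples the gradient of the place `0`
minus `ka` times the gradient of the place `1` is a polynomial of the time with coefficients which are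
functions of the line, for a closed slope `ka` of size at most `2 ^ (del X)`.
-/

set_option autoImplicit false

namespace Pool.DIR16

open Finset Real
open Pool.Agent.H49.Ent Pool.Agent.H32.Dense Pool.STK
open Pool.AVG71 (MI_eq MI_eq')
open Pool.KVA (MI)
open Pool.BD64 (QHd pol)
open Pool.DIR21 (DirH qh_dir)
open Pool.K2S (Pe)
open Pool.BFL (Pb)
open Pool.LV64

/-- **The hypotheses in the picture.** -/
theorem sdir {Ω β : Type} {k K : ℕ} {d : VD Ω β 2 k} [Fintype Ω]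
    {ρ₁ ρ₂ ν₁ ν₂ σ₁ σ₂ υ σ' : Type} {p : Ω → ℝ} {Rj : Ω → ρ₁}
    {Rx : Ω → ρ₂} {nj : Ω → ν₁} {nx : Ω → ν₂} {bj : Ω → σ₁} {bx : Ω → σ₂} {V : Ω → υ}
    {M : Ω → Fin 2 → ℤ} {Bs : Ω → σ'} {F e B : ℝ}
    (H : d.Hyp K p Rj Rx nj nx bj bx V M F e B) {ω₀ : Ω} (hω₀ : 0 < p ω₀)
    (ht : d.X * Real.log 2 - e ≤ CH p (fun ω => ⌊(2 : ℝ) ^ d.X * d.th ω⌋) (d.L K))
    {CB C U h dd π₀ b₁ del : ℝ} {t : ℕ} (hCB : 0 ≤ CB) (hB : B ≤ CB * 2 ^ d.m)
    (hBs : Det p (fun ω => (Wn d.X V M ω, (d.T ω, d.g K ω))) Bs)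
    (hfew : MI p M (fun ω => (V ω, (d.T ω, d.g K ω))) Bs ≤ e)
    (hrow : ∀ G : Ω → Prop, π₀ ≤ Pe p G → 0 < Pe p G → CH (cond p G True) M
      (fun ω => (Wn d.X V M ω, (d.th ω, d.z ω))) ≤ U)
    (hU : U ≤ (2 - h) * d.X * Real.log 2 + dd)
    (hC : CB + VD.Cv k K + 2 * ((K + 1) * (k + 1)) + 5 ≤ C)
    (hdd : VD.Dv 2 k d.m e + 2 * VD.Eu k K d.m B ≤ dd)
    (hmt : d.m + t ≤ d.X) (t1 : (d.X : ℝ) - t ≤ la h * d.X)
    (t2 : la h * d.X ≤ (d.X : ℝ) - t + h / 16 * d.X)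
    (hrow' : ∀ G : Ω → Prop, π₀ ≤ Pe p G → 0 < Pe p G → CH (cond p G True)
      (fun ω i => M ω i / 2 ^ (d.m + t)) (fun ω => (Wn d.X V M ω, (d.th ω, d.z ω))) ≤
        (2 - h) * ((d.X : ℝ) - t) * Real.log 2 + dd)
    (hdel : 0 ≤ del)
    (hfi : FIh p (d.L K) (fun ω => (Wn d.X V M ω, (d.th ω, d.z ω))) M Bs (d.m + t)
      ((2 : ℝ) ^ (-(del * d.X))) b₁ π₀)
    (hb : ((d.X : ℝ) - t) * Real.log 2 - dd + Real.log 13 ≤ b₁) :
    SDir (d.pic K p ω₀) (fun ω : Ω => (d.th ω, d.z ω)) (Wn d.X V M) (Zn d.m d.X p ω₀ M) Bs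
      d.X t C dd h del π₀ := by
  have h0 := H.law.nonneg
  have hcp : ∀ G : Ω → Prop, 0 < Pe p G → IsLaw (cond p G True) := fun G hG =>
    ⟨cond_nonneg h0 G True, sum_cond p G (ne_of_gt hG)⟩
  have hqp : ∀ G : Ω → Prop, ∀ ω, 0 < cond p G True ω → 0 < p ω := fun G ω hω =>
    ((cond_pos_iff h0 G True ω).mp hω).1
  have hmo : ∀ {α : Type} (G : Ω → Prop) (A : Ω → α),
      CH (cond p G True) A (fun ω => (Wn d.X V M ω, (d.T ω, d.g K ω))) ≤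
      CH (cond p G True) A (fun ω => (Wn d.X V M ω, (d.th ω, d.z ω))) := by
    intro α G A
    refine CH_mono_cond (cond_nonneg h0 G True) fun ω ν _ _ e => ?_
    obtain ⟨e1, e2⟩ := Prod.ext_iff.mp e
    obtain ⟨e3, e4⟩ := Prod.ext_iff.mp e2
    exact Prod.ext e1 (Prod.ext (Prod.ext_iff.mp e3).1 (Prod.ext_iff.mp e4).1)
  have hKb : 1 + (2 : ℝ) ^ (-(del * d.X)) ≤ 2 * 2 ^ t := by
    have h1 : (2 : ℝ) ^ (-(del * d.X)) ≤ 1 :=
      Real.rpow_le_one_of_one_le_of_nonpos one_le_two (by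
        have : 0 ≤ del * (d.X : ℝ) := by positivity
        linarith)
    have h2 : (1 : ℝ) ≤ 2 ^ t := one_le_pow₀ (by norm_num)
    linarith
  have hd := H.dirh hω₀ ht (C := C) (U := U) (π₀ := π₀) (h := h) (dd := dd) hCB hB hBs hfew
    (fun G hG hG0 => (hmo G M).trans (hrow G hG hG0)) hU hC hdd
  refine ⟨⟨hd.ok, hd.Z_b, hd.rel, hd.wd, ?_, hd.BY, hd.few, ?_⟩, (Nat.le_add_left t d.m).trans hmt,
    t1, t2, ?_, ?_⟩
  · intro (ω : Ω) (ω' : Ω) (a : 0 < p ω) (b : 0 < p ω') e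
    obtain ⟨_, e4⟩ := Prod.ext_iff.mp e
    have e5 : ((d.pic K p ω₀).th ω, (d.pic K p ω₀).b ω) =
      ((d.pic K p ω₀).th ω', (d.pic K p ω₀).b ω') := e4
    rw [VD.pic_thb a, VD.pic_thb b] at e5
    obtain ⟨e6, e7⟩ := Prod.ext_iff.mp e5
    show (d.th ω, d.z ω) = (d.th ω', d.z ω')
    exact Prod.ext (Prod.ext_iff.mp e6).1 (Prod.ext_iff.mp e7).1
  · intro G hG hG0
    exact (Zn_nf (hcp G hG0).nonneg (hqp G) M _).trans ((hrow G hG hG0).trans hU)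
  · intro G hG hG0
    exact (row_zn hmt (hcp G hG0).nonneg (hqp G) ω₀ V M _).trans (hrow' G hG hG0)
  · have h1 := fih_zn (L' := (d.pic K p ω₀).line) (g := d.lnL K) hmt
      (fun ω hω => VD.lnL_eq hω) ω₀ V M (fun ω => (d.th ω, d.z ω)) Bs (by positivity) hKb H.law hfi
    exact fun kL kP ka B' a1 a2 a3 a4 => le_trans (by linarith) (h1 kL kP ka B' a1 a2 a3 a4)

/-- **A closed combination of the gradients of two places.** -/
theorem vd_alt (k K : ℕ) (hK : 1 ≤ K) {h del x₀ σ CB : ℝ} (hh : 0 < h) (hh1 : h ≤ 1)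
    (hd : 0 < del) (hx : 0 < x₀) (hxh : x₀ + del < h ^ 2 / 16) (hσ : 0 < σ) (hCB : 0 ≤ CB) :
    ∃ ι π₀ : ℝ, 0 < ι ∧ 0 < π₀ ∧ ∃ X₀ : ℕ,
      ∀ {Ω β : Type} [Fintype Ω] (p : Ω → ℝ) (d : VD Ω β 2 k) {ρ₁ ρ₂ ν₁ ν₂ σ₁ σ₂ υ σ' : Type}
        (Rj : Ω → ρ₁) (Rx : Ω → ρ₂) (nj : Ω → ν₁) (nx : Ω → ν₂) (bj : Ω → σ₁) (bx : Ω → σ₂)
        (V : Ω → υ) (M : Ω → Fin 2 → ℤ) (Bs : Ω → σ') (F e B U U' b₁ : ℝ) (t : ℕ), X₀ ≤ d.X →
        d.Hyp K p Rj Rx nj nx bj bx V M F e B →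
        d.X * Real.log 2 - e ≤ CH p (fun ω => ⌊(2 : ℝ) ^ d.X * d.th ω⌋) (d.L K) →
        Det p (fun ω => (Wn d.X V M ω, (d.T ω, d.g K ω))) Bs →
        MI p M (fun ω => (V ω, (d.T ω, d.g K ω))) Bs ≤ e →
        (∀ G : Ω → Prop, π₀ ≤ Pe p G → CH (cond p G True) M
          (fun ω => (Wn d.X V M ω, (d.th ω, d.z ω))) ≤ U) →
        (∀ G : Ω → Prop, π₀ ≤ Pe p G → CH (cond p G True) (fun ω i => M ω i / 2 ^ (d.m + t))
          (fun ω => (Wn d.X V M ω, (d.th ω, d.z ω))) ≤ U') →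
        FIh p (d.L K) (fun ω => (Wn d.X V M ω, (d.th ω, d.z ω))) M Bs (d.m + t)
          ((2 : ℝ) ^ (-(del * d.X))) b₁ π₀ →
        e ≤ ι * d.X → (d.m : ℝ) ≤ ι * d.X → B ≤ CB * 2 ^ d.m → t ≤ d.X →
        (d.X : ℝ) - t ≤ la h * d.X → la h * d.X ≤ (d.X : ℝ) - t + h / 16 * d.X →
        U ≤ (2 - h) * d.X * Real.log 2 + ι * d.X →
        U' ≤ (2 - h) * ((d.X : ℝ) - t) * Real.log 2 + ι * d.X →
        ((d.X : ℝ) - t) * Real.log 2 - ι * d.X ≤ b₁ →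
        ∃ (kL : LamV β 2 k K → ℤ) (kP : (Fin 2 → ℤ) × σ' → ℤ) (ka : ℤ → ℝ)
          (mu : LamV β 2 k K → Fin k → Polynomial ℝ),
          (∀ j, |ka j| ≤ (2 : ℝ) ^ (del * d.X)) ∧
          (∀ l j, (mu l j).natDegree ≤ K) ∧
          (∀ l j (u : ℝ), |(mu l j).eval u| ≤
            (K + 1) * (|u| + 1) ^ K * (2 : ℝ) ^ ((σ + del) * d.X)) ∧
          1 / 16 ≤ Pe p (fun ω => kL (d.L K ω) = kP (M ω, Bs ω) ∧
            ∀ j, |d.bb ω 0 j - ka (kL (d.L K ω)) * d.bb ω 1 j -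
              (mu (d.L K ω) j).eval (d.th ω)| ≤ (2 : ℝ) ^ (-(x₀ * d.X))) := by
  classical
  have hl2 : 0 < Real.log 2 := Real.log_pos (by norm_num)
  have hl2' : Real.log 2 ≤ 1 := by
    have := Real.log_two_lt_d9
    linarith
  have hl11 : 0 < Real.log 11 := Real.log_pos (by norm_num)
  have hk0 : (0 : ℝ) ≤ k := Nat.cast_nonneg k
  have hK0 : (0 : ℝ) ≤ K := Nat.cast_nonneg K
  have hh2 : h ^ 2 ≤ h := by nlinarith
  obtain ⟨δ, hδ⟩ : ∃ δ : ℝ, δ = (h ^ 2 / 16 - del - x₀) / 4 := ⟨_, rfl⟩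
  have hδ0 : 0 < δ := by rw [hδ]; linarith
  obtain ⟨x₁, hx₁⟩ : ∃ x₁ : ℝ, x₁ = x₀ + 4 * δ := ⟨_, rfl⟩
  have hx1h : x₁ + del = h ^ 2 / 16 := by rw [hx₁, hδ]; ring
  have hx1p : 0 < x₁ := by rw [hx₁]; linarith
  obtain ⟨s, hs⟩ : ∃ s : ℝ, s = min (σ / 2) δ := ⟨_, rfl⟩
  have hs0 : 0 < s := by rw [hs]; exact lt_min (by linarith) hδ0
  have hs1 : s ≤ σ / 2 := by rw [hs]; exact min_le_left _ _
  have hs2 : s ≤ δ := by rw [hs]; exact min_le_right _ _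
  obtain ⟨io, ϖ, hio, hϖ, hqd⟩ := qh_alt k K hK hh hh1 hd (by linarith) hs0
  obtain ⟨C, hC⟩ : ∃ C : ℝ, C = CB + VD.Cv k K + 2 * (((K : ℝ) + 1) * (k + 1)) + 5 := ⟨_, rfl⟩
  have hKk : (0 : ℝ) ≤ 2 * (((K : ℝ) + 1) * (k + 1)) := by positivity
  have hCv : 1 ≤ VD.Cv k K := by
    unfold VD.Cv
    have h1 : (0 : ℝ) ≤ (K : ℝ) * K := by positivity
    linarith
  obtain ⟨X1, hX1⟩ := hqd C (by rw [hC]; linarith)
  obtain ⟨Lc, hLc⟩ : ∃ Lc : ℝ, Lc = 2 * Real.log (2 * (2 * ((K : ℝ) + 1 + k) +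
    (CB + 2 * (((K : ℝ) + 1) * (k + 1))) + 1) + 1) + 2 * Real.log 11 := ⟨_, rfl⟩
  obtain ⟨ι, hι⟩ : ∃ ι : ℝ, ι = min (io / (2 * (k + 8))) (min s (h / 4)) := ⟨_, rfl⟩
  have hι0 : 0 < ι := by rw [hι]; exact lt_min (by positivity) (lt_min hs0 (by positivity))
  have hι1 : ι * (2 * (k + 8)) ≤ io := by
    have : ι ≤ io / (2 * (k + 8)) := by rw [hι]; exact min_le_left _ _
    rwa [le_div_iff₀ (by positivity)] at this
  have hι2 : ι ≤ s := by rw [hι]; exact (min_le_right _ _).trans (min_le_left _ _)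
  have hι3 : ι ≤ h / 4 := by rw [hι]; exact (min_le_right _ _).trans (min_le_right _ _)
  obtain ⟨X2, hX2⟩ := exists_nat_ge (2 * Lc / io)
  obtain ⟨X3, hX3⟩ := exists_nat_ge ((Real.log (2 * ((K + 1) * K) + 2) / Real.log 2) / δ)
  obtain ⟨X4, hX4⟩ := exists_nat_ge (2 * Real.log 13 / io)
  refine ⟨ι, ϖ, hι0, hϖ, max (max X1 X4) (max X2 X3), ?_⟩
  intro Ω β _ p d ρ₁ ρ₂ ν₁ ν₂ σ₁ σ₂ υ σ' Rj Rx nj nx bj bx V M Bs F e B U U' b₁ t hXd H ht hBs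
    hfew hrow hrow' hfi he hm hB htX t1 t2 hU hU' hb₁
  have hp := H.law
  have h0 := hp.nonneg
  obtain ⟨ω₀, hω₀⟩ : ∃ ω₀, 0 < p ω₀ := by
    by_contra hcon
    push Not at hcon
    have : ∑ ω, p ω ≤ 0 := Finset.sum_nonpos fun ω _ => hcon ω
    rw [hp.sum_one] at this
    linarith
  have hXa : X1 ≤ d.X := (le_max_left _ _).trans ((le_max_left _ _).trans hXd)
  have hXe : X4 ≤ d.X := (le_max_right _ _).trans ((le_max_left _ _).trans hXd)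
  have hXb : X2 ≤ d.X := (le_max_left _ _).trans ((le_max_right _ _).trans hXd)
  have hXc : X3 ≤ d.X := (le_max_right _ _).trans ((le_max_right _ _).trans hXd)
  have hXR : (0 : ℝ) ≤ d.X := Nat.cast_nonneg _
  have n2 : 2 * Lc ≤ io * d.X := by
    have h1 : 2 * Lc / io ≤ d.X := hX2.trans (by exact_mod_cast hXb)
    rw [div_le_iff₀ hio] at h1
    linarith
  have n4 : 2 * Real.log 13 ≤ io * d.X := by
    have h1 : 2 * Real.log 13 / io ≤ d.X := hX4.trans (by exact_mod_cast hXe)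
    rw [div_le_iff₀ hio] at h1
    linarith
  have n3 : Real.log (2 * ((K + 1) * K) + 2) / Real.log 2 ≤ δ * d.X := by
    have h1 : (Real.log (2 * ((K + 1) * K) + 2) / Real.log 2) / δ ≤ d.X :=
      hX3.trans (by exact_mod_cast hXc)
    rw [div_le_iff₀ hδ0] at h1
    linarith
  have hιX : 0 ≤ ι * d.X := by positivity
  have hιio : ι * d.X * (2 * (k + 8)) ≤ io * d.X := by
    have := mul_le_mul_of_nonneg_right hι1 hXR
    linarith
  have hkm : k * (d.m : ℝ) * Real.log 2 ≤ k * (ι * d.X) := by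
    have h2 : k * (d.m : ℝ) ≤ k * (ι * d.X) := mul_le_mul_of_nonneg_left hm hk0
    have h3 : 0 ≤ k * (d.m : ℝ) := by positivity
    exact (mul_le_of_le_one_right h3 hl2').trans h2
  have hmm : (d.m : ℝ) * Real.log 2 ≤ ι * d.X :=
    (mul_le_of_le_one_right (Nat.cast_nonneg _) hl2').trans hm
  have hkι : 0 ≤ k * (ι * d.X) := by positivity
  have hdd : VD.Dv 2 k d.m e + 2 * VD.Eu k K d.m B ≤ io * d.X := by
    have h1 := VD.Eu_le (k := k) (K := K) hCB H.B0 hB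
    unfold VD.Dv
    push_cast
    rw [hLc] at n2
    linarith
  have hmt : d.m + t ≤ d.X := by
    have g1 : (d.m : ℝ) ≤ h / 4 * d.X := hm.trans (mul_le_mul_of_nonneg_right hι3 hXR)
    have g2 : h / 4 ≤ la h - h / 16 := by
      unfold la
      nlinarith
    have g3 := mul_le_mul_of_nonneg_right g2 hXR
    have g4 : ((d.m + t : ℕ) : ℝ) ≤ d.X := by
      push_cast
      linarith
    exact_mod_cast g4
  have hdir := sdir H hω₀ ht (C := C) (U := U) (π₀ := ϖ) (h := h) (dd := io * d.X) hCB hB hBs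
    hfew (fun G hG _ => hrow G hG) (by linarith) (le_of_eq hC.symm) hdd hmt t1 t2
    (fun G hG _ => (hrow' G hG).trans (by linarith)) hd.le hfi (by linarith)
  obtain ⟨kL, kP, ka, ep, c1, he3, he4⟩ :=
    hX1 (d.pic K p ω₀) _ _ _ _ _ _ _ d.X t hXa hdir
  have hline : ∀ {ω : Ω}, 0 < p ω → (d.pic K p ω₀).line ω = d.lnL K (d.L K ω) :=
    fun h => VD.lnL_eq h
  have hmub : ∀ (l : LamV β 2 k K) (j : Fin k) (a : Fin (K + 1)),
      |2 ^ d.m * ep (d.lnL K l) a j| ≤ (2 : ℝ) ^ ((σ + del) * d.X) := by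
    intro l j a
    rw [abs_mul, abs_of_pos (by positivity : (0 : ℝ) < 2 ^ d.m)]
    have g3 : (2 : ℝ) ^ d.m ≤ 2 ^ (s * d.X) := by
      rw [← Real.rpow_natCast]
      exact Real.rpow_le_rpow_of_exponent_le one_le_two
        (hm.trans (mul_le_mul_of_nonneg_right hι2 hXR))
    calc (2 : ℝ) ^ d.m * |ep (d.lnL K l) a j| ≤ 2 ^ (s * d.X) * 2 ^ ((s + del) * d.X) :=
          mul_le_mul g3 (he3 _ a j) (abs_nonneg _) (by positivity)
      _ = 2 ^ (s * d.X + (s + del) * d.X) := by rw [← Real.rpow_add two_pos]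
      _ ≤ 2 ^ ((σ + del) * d.X) := Real.rpow_le_rpow_of_exponent_le one_le_two (by
          have := mul_le_mul_of_nonneg_right hs1 hXR
          linarith)
  refine ⟨fun l => kL (d.lnL K l), fun y => kP ((fun i => y.1 i % 2 ^ d.X / 2 ^ d.m), y.2), ka,
    fun l j => plc fun a => 2 ^ d.m * ep (d.lnL K l) a j, c1,
    fun l j => plc_deg _, fun l j u => plc_bd (hmub l j) u, ?_⟩
  rw [← Pool.DIR21.Pb_Pe] at he4 ⊢
  refine he4.trans (Pb_le_Pb h0 ?_)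
  rintro ω hω ⟨hk, hgood⟩
  rw [hline hω] at hk hgood
  refine ⟨?_, fun j => ?_⟩
  · have e0 : (Zn d.m d.X p ω₀ M ω, Bs ω) =
        ((fun i => M ω i % 2 ^ d.X / 2 ^ d.m : Fin 2 → ℤ), Bs ω) := by
      refine Prod.ext (funext fun i => ?_) rfl
      show Zn d.m d.X p ω₀ M ω i = M ω i % 2 ^ d.X / 2 ^ d.m
      unfold Zn
      rw [rr_eq hω]
    exact hk.trans (congrArg kP e0)
  have hX : (0 : ℝ) < 2 ^ d.X := by positivity
  have hm0 : (0 : ℝ) < 2 ^ d.m := by positivity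
  have h1 := hgood j
  have hth := H.th ω hω
  obtain ⟨a, ha⟩ : ∃ a : Fin (K + 1) → ℝ, a = fun a => ep (d.lnL K (d.L K ω)) a j := ⟨_, rfl⟩
  obtain ⟨x, hx⟩ : ∃ x : ℝ, x = ka (kL (d.lnL K (d.L K ω))) := ⟨_, rfl⟩
  rw [← hx] at h1
  have h2 : |(d.bb ω 0 j - x * d.bb ω 1 j) / 2 ^ d.m - ∑ i : Fin (K + 1), a i *
      ((⌊(2 : ℝ) ^ d.X * d.th ω⌋ : ℝ) / 2 ^ d.X) ^ (i : ℕ)| ≤
      (2 : ℝ) ^ ((s - x₁) * d.X) := by
    have e1 : ∀ i, (d.pic K p ω₀).E ((d.pic K p ω₀).th ω) j i = d.bb ω i j / 2 ^ d.m := by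
      intro i
      show d.bb (rr p ω₀ ω) i j / 2 ^ d.m = _
      rw [rr_eq hω]
    have e2 : ((d.pic K p ω₀).tau ((d.pic K p ω₀).th ω) : ℝ) / 2 ^ d.X =
        (⌊(2 : ℝ) ^ d.X * d.th ω⌋ : ℝ) / 2 ^ d.X := by
      show (⌊(2 : ℝ) ^ d.X * d.th (rr p ω₀ ω)⌋ : ℝ) / 2 ^ d.X = _
      rw [rr_eq hω]
    rw [e1, e1, e2] at h1
    rw [ha]
    have e3 : (d.bb ω 0 j - x * d.bb ω 1 j) / 2 ^ d.m =
      d.bb ω 0 j / 2 ^ d.m - x * (d.bb ω 1 j / 2 ^ d.m) := by ring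
    rw [e3]
    refine h1.trans (le_of_eq ?_)
    congr 2
    linarith
  have h3 := plc_near (X := d.X) (a := a) (A := (2 : ℝ) ^ ((s + del) * d.X)) (fun i => by
    rw [ha]
    exact he3 _ i j) hth.1 hth.2
  have h4 : (plc fun a => 2 ^ d.m * ep (d.lnL K (d.L K ω)) a j).eval (d.th ω) =
      2 ^ d.m * (plc a).eval (d.th ω) := by
    rw [plc_eval, plc_eval, Finset.mul_sum, ha]
    exact Finset.sum_congr rfl fun i _ => by ring
  rw [h4]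
  show |d.bb ω 0 j - ka (kL (d.lnL K (d.L K ω))) * d.bb ω 1 j -
    2 ^ d.m * (plc a).eval (d.th ω)| ≤ _
  rw [← hx]
  have h5 : |d.bb ω 0 j - x * d.bb ω 1 j - 2 ^ d.m * (plc a).eval (d.th ω)| ≤
      2 ^ d.m * ((2 : ℝ) ^ ((s - x₁) * d.X) +
        (K + 1) * K * ((2 : ℝ) ^ ((s + del) * d.X) / 2 ^ d.X)) := by
    have e1 : d.bb ω 0 j - x * d.bb ω 1 j - 2 ^ d.m * (plc a).eval (d.th ω) =
        2 ^ d.m * ((d.bb ω 0 j - x * d.bb ω 1 j) / 2 ^ d.m - (plc a).eval (d.th ω)) := by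
      field_simp
    rw [e1, abs_mul, abs_of_pos hm0]
    refine mul_le_mul_of_nonneg_left ?_ hm0.le
    have g1 := abs_le.1 h2
    have g2 := abs_le.1 h3
    rw [abs_le]
    constructor <;> linarith [g1.1, g1.2, g2.1, g2.2]
  refine h5.trans ?_
  -- the numbers
  have g3 : (2 : ℝ) ^ d.m ≤ 2 ^ (δ * d.X) := by
    rw [← Real.rpow_natCast]
    exact Real.rpow_le_rpow_of_exponent_le one_le_two
      (hm.trans (mul_le_mul_of_nonneg_right (hι2.trans hs2) hXR))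
  have g4 : (2 : ℝ) ^ ((s + del) * d.X) / 2 ^ d.X ≤ 2 ^ ((s - x₁) * d.X) := by
    rw [← Real.rpow_natCast, ← Real.rpow_sub two_pos]
    refine Real.rpow_le_rpow_of_exponent_le one_le_two ?_
    have e2 : x₁ + del ≤ 1 := by linarith
    have e3 := mul_le_mul_of_nonneg_right e2 hXR
    linarith
  have g5 : (2 : ℝ) * ((K + 1) * K) + 2 ≤ 2 ^ (δ * d.X) := by
    rw [div_le_iff₀ hl2] at n3
    have e1 : (0 : ℝ) < 2 * ((K + 1) * K) + 2 := by positivity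
    rw [← Real.exp_log e1, Real.rpow_def_of_pos two_pos]
    exact Real.exp_le_exp.2 (by linarith)
  have g6 : (0 : ℝ) < (2 : ℝ) ^ ((s - x₁) * d.X) := Real.rpow_pos_of_pos two_pos _
  have hKK : (0 : ℝ) ≤ (K + 1) * K := by positivity
  have g7 := mul_le_mul_of_nonneg_left g4 hKK
  have g8 := mul_le_mul_of_nonneg_right g5 g6.le
  have g9 : 0 ≤ ((K : ℝ) + 1) * K * 2 ^ ((s - x₁) * d.X) := by positivity
  calc (2 : ℝ) ^ d.m * ((2 : ℝ) ^ ((s - x₁) * d.X) + (K + 1) * K *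
        ((2 : ℝ) ^ ((s + del) * d.X) / 2 ^ d.X))
      ≤ 2 ^ (δ * d.X) * (2 ^ (δ * d.X) * (2 : ℝ) ^ ((s - x₁) * d.X)) := by
        refine mul_le_mul g3 ?_ (by positivity) (by positivity)
        linarith
    _ = 2 ^ (δ * d.X + (δ * d.X + (s - x₁) * d.X)) := by
        rw [← Real.rpow_add two_pos, ← Real.rpow_add two_pos]
    _ ≤ 2 ^ (-(x₀ * d.X)) := by
        refine Real.rpow_le_rpow_of_exponent_le one_le_two ?_
        have e1 : 2 * δ + s - x₁ ≤ -x₀ := by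
          rw [hx₁]
          linarith
        have e2 := mul_le_mul_of_nonneg_right e1 hXR
        linarith

end Pool.DIR16
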