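import Pool.Agent.H16.DIR.Qp
import Pool.Agent.H64.LV.Drh

/-!
# DIR: the digits of the places and the near digits

`fih_zn`: fullness for the digits of the places gives fullness for the near digits. `row_zn`: the row of
the upper digits.
-/

set_option autoImplicit false

namespace Pool.DIR16

open Finset Real
open Pool.Agent.H49.Ent Pool.Agent.H32.Dense Pool.STK
open Pool.K2S (Pe)
open Pool.LV64
open Pool.AVG71 (CH_pair_int)

variable {Ω : Type} [Fintype Ω] {p : Ω → ℝ}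

theorem emod_div {a : ℤ} {X s : ℕ} (hs : s ≤ X) :
    a % 2 ^ X / 2 ^ s = a / 2 ^ s - 2 ^ (X - s) * (a / 2 ^ X) := by
  have p2 : (2 : ℤ) ^ s ≠ 0 := by positivity
  have h1 := Int.mul_ediv_add_emod a (2 ^ X)
  have h2 : (2 : ℤ) ^ X = 2 ^ (X - s) * 2 ^ s := by rw [← pow_add, Nat.sub_add_cancel hs]
  have h3 : a / 2 ^ s = (a % 2 ^ X + 2 ^ (X - s) * (a / 2 ^ X) * 2 ^ s) / 2 ^ s := by
    congr 1
    calc a = 2 ^ X * (a / 2 ^ X) + a % 2 ^ X := h1.symm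
      _ = a % 2 ^ X + 2 ^ (X - s) * (a / 2 ^ X) * 2 ^ s := by
        rw [show (2 : ℤ) ^ X * (a / 2 ^ X) = 2 ^ (X - s) * 2 ^ s * (a / 2 ^ X) by rw [← h2]]
        ring
  rw [h3, Int.add_mul_ediv_right _ _ p2]
  ring

theorem Zn_div {m X t : ℕ} (hmt : m + t ≤ X) (ω₀ : Ω) (M : Ω → Fin 2 → ℤ) {ω : Ω} (hω : 0 < p ω)
    (i : Fin 2) : Zn m X p ω₀ M ω i / 2 ^ t =
      M ω i / 2 ^ (m + t) - 2 ^ (X - (m + t)) * (M ω i / 2 ^ X) := by
  unfold Zn
  rw [rr_eq hω, Int.ediv_ediv_of_nonneg (by positivity), ← pow_add]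
  exact emod_div hmt

/-- **The row of the upper digits.** -/
theorem row_zn {υ α : Type} {m X t : ℕ} (hmt : m + t ≤ X) {q : Ω → ℝ} (h0 : ∀ ω, 0 ≤ q ω)
    (hq : ∀ ω, 0 < q ω → 0 < p ω) (ω₀ : Ω) (V : Ω → υ) (M : Ω → Fin 2 → ℤ) (S : Ω → α) :
    CH q (fun ω i => Zn m X p ω₀ M ω i / 2 ^ t) (fun ω => (Wn X V M ω, S ω)) ≤
      CH q (fun ω i => M ω i / 2 ^ (m + t)) (fun ω => (Wn X V M ω, S ω)) := by
  refine CH_mono_left h0 fun ω ω' a b e => ?_
  obtain ⟨e1, e2⟩ := Prod.ext_iff.mp e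
  obtain ⟨e3, -⟩ := Prod.ext_iff.mp e2
  obtain ⟨-, e4⟩ := Prod.ext_iff.mp e3
  have e5 : ∀ i, M ω i / 2 ^ (m + t) = M ω' i / 2 ^ (m + t) := fun i => congrFun e1 i
  have e6 : ∀ i, M ω i / 2 ^ X = M ω' i / 2 ^ X := fun i => congrFun e4 i
  funext i
  rw [Zn_div hmt ω₀ M (hq ω a) i, Zn_div hmt ω₀ M (hq ω' b) i, e5, e6]

/-- **Fullness for the near digits.** -/
theorem fih_zn {Λ Λ' υ α σ' : Type} {m X t : ℕ} (hmt : m + t ≤ X) {L : Ω → Λ} {L' : Ω → Λ'}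
    {g : Λ → Λ'} (hg : ∀ ω, 0 < p ω → L' ω = g (L ω)) (ω₀ : Ω) (V : Ω → υ)
    (M : Ω → Fin 2 → ℤ) (S : Ω → α) (Bs : Ω → σ') {Kb b₁ ϖ₂ : ℝ} (hKb0 : 0 ≤ Kb)
    (hKb : 1 + Kb ≤ 2 * 2 ^ t) (hp : IsLaw p)
    (h : FIh p L (fun ω => (Wn X V M ω, S ω)) M Bs (m + t) Kb b₁ ϖ₂) :
    FIh p L' (fun ω => (Wn X V M ω, S ω)) (Zn m X p ω₀ M) Bs t Kb (b₁ - Real.log 13) ϖ₂ := by
  intro kL kP ka B hka hkk hB hB0
  have hkP : ∀ ω, 0 < p ω → B ω → kL (g (L ω)) =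
      kP ((fun y : (Fin 2 → ℤ) × σ' => ((fun i => y.1 i % 2 ^ X / 2 ^ m : Fin 2 → ℤ), y.2))
        (M ω, Bs ω)) := by
    intro ω hω hBω
    rw [← hg ω hω, hkk ω hω hBω]
    congr 1
    refine Prod.ext (funext fun i => ?_) rfl
    show Zn m X p ω₀ M ω i = M ω i % 2 ^ X / 2 ^ m
    unfold Zn
    rw [rr_eq hω]
  have h1 := h (fun l => kL (g l)) (fun y => kP ((fun i => y.1 i % 2 ^ X / 2 ^ m), y.2)) ka B
    hka hkP hB hB0
  have hpp := hp.nonneg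
  have hql : IsLaw (cond p B True) := Pool.TQ.cond_law hpp hB0
  have h0 := hql.nonneg
  have hqp : ∀ ω, 0 < cond p B True ω → 0 < p ω := fun ω hω =>
    ((cond_pos_iff hpp B True ω).mp hω).1
  obtain ⟨A', hA'⟩ : ∃ A' : Ω → ℤ, A' = fun ω => ⌊((Zn m X p ω₀ M ω 1 : ℝ) -
    ka (kL (L' ω)) * Zn m X p ω₀ M ω 0) / 2 ^ t⌋ := ⟨_, rfl⟩
  obtain ⟨B', hB'⟩ : ∃ B' : Ω → ℤ, B' = fun ω => ⌊((M ω 1 : ℝ) -
    ka (kL (g (L ω))) * M ω 0) / 2 ^ (m + t)⌋ := ⟨_, rfl⟩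
  have e1 : CH (cond p B True) B' (fun ω => (kL (g (L ω)), (Wn X V M ω, S ω))) =
      CH (cond p B True) B' (fun ω => (kL (L' ω), (Wn X V M ω, S ω))) := by
    refine CH_congr h0 (fun _ _ _ _ h => (Prod.ext_iff.mp h).1)
      (fun _ _ _ _ h => (Prod.ext_iff.mp h).1) ?_ ?_
    · intro ω ω' a b e
      simp only [Prod.mk.injEq] at e ⊢
      rw [hg ω (hqp ω a), hg ω' (hqp ω' b)]
      exact e
    · intro ω ω' a b e
      simp only [Prod.mk.injEq] at e ⊢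
      rw [hg ω (hqp ω a), hg ω' (hqp ω' b)] at e
      exact e
  have e2 := CH_le_add h0 B' A' (fun ω => (kL (L' ω), (Wn X V M ω, S ω)))
  have e3 : CH (cond p B True) B' (fun ω => (A' ω, (kL (L' ω), (Wn X V M ω, S ω)))) ≤
      Real.log 13 := by
    have k := CH_pair_int hql B' (fun ω => (A' ω, (kL (L' ω), (Wn X V M ω, S ω)))) (D := 6)
      (by norm_num) (fun ω ω' a b e => by
        simp only [Prod.mk.injEq] at e
        obtain ⟨c1, c2, c3, -⟩ := e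
        have hω := hqp ω a
        have hω' := hqp ω' b
        obtain ⟨-, c4⟩ := Prod.ext_iff.mp c3
        have c5 : ∀ i, M ω i / 2 ^ X = M ω' i / 2 ^ X := fun i => congrFun c4 i
        obtain ⟨κ, hκ⟩ : ∃ κ : ℝ, κ = ka (kL (L' ω)) := ⟨_, rfl⟩
        have hκb : |κ| ≤ Kb := by rw [hκ]; exact hka _
        have hm0 : (0 : ℝ) < 2 ^ m := by positivity
        have ht0 : (0 : ℝ) < 2 ^ t := by positivity
        -- the remainders
        have hrem : ∀ ν, 0 < p ν → ∀ i, 0 ≤ (M ν i : ℝ) - 2 ^ X * ((M ν i / 2 ^ X : ℤ) : ℝ) -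
            2 ^ m * (Zn m X p ω₀ M ν i : ℝ) ∧ (M ν i : ℝ) - 2 ^ X * ((M ν i / 2 ^ X : ℤ) : ℝ) -
            2 ^ m * (Zn m X p ω₀ M ν i : ℝ) ≤ 2 ^ m := by
          intro ν hν i
          have g1 := Int.mul_ediv_add_emod (M ν i) (2 ^ X)
          have g2 := Int.mul_ediv_add_emod (M ν i % 2 ^ X) (2 ^ m)
          have g3 := Int.emod_nonneg (M ν i % 2 ^ X) (by positivity : (2 : ℤ) ^ m ≠ 0)
          have g4 := Int.emod_lt_of_pos (M ν i % 2 ^ X) (by positivity : (0 : ℤ) < 2 ^ m)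
          have g5 : Zn m X p ω₀ M ν i = M ν i % 2 ^ X / 2 ^ m := by
            unfold Zn
            rw [rr_eq hν]
          have g6 : M ν i - 2 ^ X * (M ν i / 2 ^ X) - 2 ^ m * Zn m X p ω₀ M ν i =
              M ν i % 2 ^ X % 2 ^ m := by
            rw [g5]
            linarith
          have g7 : ((M ν i : ℝ) - 2 ^ X * ((M ν i / 2 ^ X : ℤ) : ℝ) -
              2 ^ m * (Zn m X p ω₀ M ν i : ℝ)) = ((M ν i % 2 ^ X % 2 ^ m : ℤ) : ℝ) := by
            rw [← g6]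
            push_cast
            ring
          rw [g7]
          constructor
          · exact_mod_cast g3
          · exact_mod_cast g4.le
        have r0 := hrem ω hω 0
        have r1 := hrem ω hω 1
        have r0' := hrem ω' hω' 0
        have r1' := hrem ω' hω' 1
        rw [← c5 0] at r0'
        rw [← c5 1] at r1'
        -- the near digits
        have n1 : |((Zn m X p ω₀ M ω 1 : ℝ) - κ * Zn m X p ω₀ M ω 0) / 2 ^ t -
            ((Zn m X p ω₀ M ω' 1 : ℝ) - κ * Zn m X p ω₀ M ω' 0) / 2 ^ t| ≤ 1 := by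
          have c1' : ⌊((Zn m X p ω₀ M ω 1 : ℝ) - κ * Zn m X p ω₀ M ω 0) / 2 ^ t⌋ =
              ⌊((Zn m X p ω₀ M ω' 1 : ℝ) - κ * Zn m X p ω₀ M ω' 0) / 2 ^ t⌋ := by
            rw [hA'] at c1
            simp only at c1
            rw [← c2, ← hκ] at c1
            exact c1
          exact (Int.abs_sub_lt_one_of_floor_eq_floor c1').le
        have n2 : |((M ω 1 : ℝ) - κ * M ω 0) / 2 ^ (m + t) -
            ((M ω' 1 : ℝ) - κ * M ω' 0) / 2 ^ (m + t)| ≤ 5 := by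
          obtain ⟨a0, ha0⟩ : ∃ a0 : ℝ, a0 = (M ω 0 : ℝ) - 2 ^ X * ((M ω 0 / 2 ^ X : ℤ) : ℝ) -
            2 ^ m * (Zn m X p ω₀ M ω 0 : ℝ) := ⟨_, rfl⟩
          obtain ⟨a1, ha1⟩ : ∃ a1 : ℝ, a1 = (M ω 1 : ℝ) - 2 ^ X * ((M ω 1 / 2 ^ X : ℤ) : ℝ) -
            2 ^ m * (Zn m X p ω₀ M ω 1 : ℝ) := ⟨_, rfl⟩
          obtain ⟨b0, hb0⟩ : ∃ b0 : ℝ, b0 = (M ω' 0 : ℝ) - 2 ^ X * ((M ω 0 / 2 ^ X : ℤ) : ℝ) -
            2 ^ m * (Zn m X p ω₀ M ω' 0 : ℝ) := ⟨_, rfl⟩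
          obtain ⟨b1, hb1⟩ : ∃ b1 : ℝ, b1 = (M ω' 1 : ℝ) - 2 ^ X * ((M ω 1 / 2 ^ X : ℤ) : ℝ) -
            2 ^ m * (Zn m X p ω₀ M ω' 1 : ℝ) := ⟨_, rfl⟩
          rw [← ha0] at r0
          rw [← ha1] at r1
          rw [← hb0] at r0'
          rw [← hb1] at r1'
          have e4 : ((M ω 1 : ℝ) - κ * M ω 0) / 2 ^ (m + t) -
              ((M ω' 1 : ℝ) - κ * M ω' 0) / 2 ^ (m + t) =
              (((Zn m X p ω₀ M ω 1 : ℝ) - κ * Zn m X p ω₀ M ω 0) / 2 ^ t -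
              ((Zn m X p ω₀ M ω' 1 : ℝ) - κ * Zn m X p ω₀ M ω' 0) / 2 ^ t) +
              ((a1 - b1) - κ * (a0 - b0)) / 2 ^ (m + t) := by
            rw [ha0, ha1, hb0, hb1, pow_add]
            field_simp
            ring
          rw [e4]
          refine (abs_add_le _ _).trans ?_
          have e5 : |((a1 - b1) - κ * (a0 - b0)) / 2 ^ (m + t)| ≤ 4 := by
            rw [abs_div, abs_of_pos (by positivity : (0 : ℝ) < 2 ^ (m + t)),
              div_le_iff₀ (by positivity)]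
            refine (abs_sub _ _).trans ?_
            rw [abs_mul]
            have f1 : |a1 - b1| ≤ 2 ^ m := by
              rw [abs_le]
              constructor <;> linarith [r1.1, r1.2, r1'.1, r1'.2]
            have f0 : |a0 - b0| ≤ 2 ^ m := by
              rw [abs_le]
              constructor <;> linarith [r0.1, r0.2, r0'.1, r0'.2]
            have f2 := mul_le_mul hκb f0 (abs_nonneg _) hKb0
            have f3 := mul_le_mul_of_nonneg_right hKb hm0.le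
            rw [pow_add]
            nlinarith [mul_pos hm0 ht0]
          linarith
        have g3 : ∀ x y : ℝ, |x - y| ≤ 5 → |((⌊x⌋ : ℤ) : ℝ) - ⌊y⌋| ≤ 6 := by
          intro x y hxy
          have a1 := Int.floor_le x
          have a2 := Int.lt_floor_add_one x
          have a3 := Int.floor_le y
          have a4 := Int.lt_floor_add_one y
          rw [abs_le] at hxy ⊢
          constructor <;> linarith [hxy.1, hxy.2]
        rw [hB']
        simp only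
        rw [← hg ω hω, ← hg ω' hω', ← c2, ← hκ]
        exact g3 _ _ n2)
    refine k.trans (le_of_eq ?_)
    norm_num
  have h1' : b₁ ≤ CH (cond p B True) B' (fun ω => (kL (g (L ω)), (Wn X V M ω, S ω))) := by
    rw [hB']
    exact h1
  rw [hA'] at e2 e3
  linarith

end Pool.DIR16
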